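import Mathlib

set_option autoImplicit false

namespace Pool.Agent.R117.Bent

open Finset Matrix

/-- The Walsh transform of `f : 𝔽₂ᵐ → 𝔽₂`: the sum over `x` of `(-1) ^ (f x + u ⬝ x)`. -/
def walsh {m : ℕ} (f : (Fin m → ZMod 2) → ZMod 2) (u : Fin m → ZMod 2) : ℤ :=
  ∑ x : Fin m → ZMod 2, (-1) ^ (f x + u ⬝ᵥ x).val

/-- `f` is bent. -/
def IsBent {m : ℕ} (f : (Fin m → ZMod 2) → ZMod 2) : Prop :=
  ∀ u, |walsh f u| = 2 ^ (m / 2)

/-- The dual of a bent function: `walsh f u = 2 ^ (m / 2) * (-1) ^ (dual f u)`. -/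
def dual {m : ℕ} (f : (Fin m → ZMod 2) → ZMod 2) : (Fin m → ZMod 2) → ZMod 2 :=
  fun u => if walsh f u = 2 ^ (m / 2) then 0 else 1

/-- The incidence matrix of the design `D_{g,h}`: the entry in row `b` and column `x` is
`g(b) + h(x + b) + (g + h)(x)`. -/
def designMatrix {m : ℕ} (g h : (Fin m → ZMod 2) → ZMod 2) :
    Matrix (Fin m → ZMod 2) (Fin m → ZMod 2) (ZMod 2) :=
  Matrix.of fun b x => g b + h (x + b) + (g + h) x

/-- The incidence matrix of the translation design of `h`: the entry in row `x` and column `y` is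
`h(x + y)`. -/
def translationMatrix {m : ℕ} (h : (Fin m → ZMod 2) → ZMod 2) :
    Matrix (Fin m → ZMod 2) (Fin m → ZMod 2) (ZMod 2) :=
  Matrix.of fun x y => h (x + y)

lemma sgn_add (a b : ZMod 2) : (-1 : ℤ) ^ (a + b).val = (-1) ^ a.val * (-1) ^ b.val := by
  revert a b; decide

lemma sum_sgn (n : ℕ) (Z : Fin n → ZMod 2) :
    ∑ X : Fin n → ZMod 2, (-1 : ℤ) ^ (X ⬝ᵥ Z).val = if Z = 0 then 2 ^ n else 0 := by
  have h1 : ∀ X : Fin n → ZMod 2, (-1 : ℤ) ^ (X ⬝ᵥ Z).val = ∏ i, (-1 : ℤ) ^ (X i * Z i).val := by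
    intro X
    unfold dotProduct
    have key : ∀ s : Finset (Fin n), (-1 : ℤ) ^ (∑ i ∈ s, X i * Z i).val
        = ∏ i ∈ s, (-1 : ℤ) ^ (X i * Z i).val := by
      intro s
      induction s using Finset.induction_on with
      | empty => simp
      | insert a s ha ih => rw [sum_insert ha, prod_insert ha, sgn_add, ih]
    exact key univ
  rw [sum_congr rfl (fun X _ => h1 X)]
  rw [← Fintype.piFinset_univ, ← Finset.prod_univ_sum (fun _ : Fin n => (univ : Finset (ZMod 2)))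
    (fun i a => (-1 : ℤ) ^ (a * Z i).val)]
  have h2 : ∀ z : ZMod 2, ∑ a : ZMod 2, (-1 : ℤ) ^ (a * z).val = if z = 0 then 2 else 0 := by
    decide
  rw [prod_congr rfl (fun i _ => h2 (Z i))]
  split_ifs with hZ
  · subst hZ
    simp
  · obtain ⟨i, hi⟩ := Function.ne_iff.1 hZ
    apply prod_eq_zero (mem_univ i)
    rw [if_neg]
    exact hi

/-- first half of a vector -/
def fst (x : Fin 8 → ZMod 2) : Fin 4 → ZMod 2 := fun i => x (Fin.castAdd 4 i)

/-- second half of a vector -/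
def snd (x : Fin 8 → ZMod 2) : Fin 4 → ZMod 2 := fun i => x (Fin.natAdd 4 i)

lemma zmod2_add_eq_zero (a b : ZMod 2) : a + b = 0 ↔ a = b := by
  revert a b; decide

/-- The Walsh transform of a Maiorana-McFarland function. -/
lemma walsh_mm (π ρ : (Fin 4 → ZMod 2) → (Fin 4 → ZMod 2)) (h1 : ∀ y, ρ (π y) = y)
    (h2 : ∀ y, π (ρ y) = y) (φ : (Fin 4 → ZMod 2) → ZMod 2) (u : Fin 8 → ZMod 2) :
    walsh (fun x : Fin 8 → ZMod 2 => fst x ⬝ᵥ π (snd x) + φ (snd x)) u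
      = 16 * (-1) ^ (snd u ⬝ᵥ ρ (fst u) + φ (ρ (fst u))).val := by
  unfold walsh
  rw [← Equiv.sum_comp (Fin.appendEquiv 4 4), Fintype.sum_prod_type, sum_comm]
  have e1 : ∀ X Y : Fin 4 → ZMod 2, fst (Fin.appendEquiv 4 4 (X, Y)) = X := by
    intro X Y; funext i; exact Fin.append_left X Y i
  have e2 : ∀ X Y : Fin 4 → ZMod 2, snd (Fin.appendEquiv 4 4 (X, Y)) = Y := by
    intro X Y; funext i; exact Fin.append_right X Y i
  have e3 : ∀ x : Fin 8 → ZMod 2, u ⬝ᵥ x = fst u ⬝ᵥ fst x + snd u ⬝ᵥ snd x := by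
    intro x
    unfold dotProduct fst snd
    exact Fin.sum_univ_add (a := 4) (b := 4) (fun i => u i * x i)
  have h3 : ∀ Y : Fin 4 → ZMod 2, ∑ X : Fin 4 → ZMod 2,
      (-1 : ℤ) ^ (fst (Fin.appendEquiv 4 4 (X, Y)) ⬝ᵥ π (snd (Fin.appendEquiv 4 4 (X, Y)))
        + φ (snd (Fin.appendEquiv 4 4 (X, Y))) + u ⬝ᵥ (Fin.appendEquiv 4 4 (X, Y))).val
      = if Y = ρ (fst u) then 16 * (-1) ^ (snd u ⬝ᵥ Y + φ Y).val else 0 := by
    intro Y
    have h4 : ∀ X : Fin 4 → ZMod 2,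
        (-1 : ℤ) ^ (fst (Fin.appendEquiv 4 4 (X, Y)) ⬝ᵥ π (snd (Fin.appendEquiv 4 4 (X, Y)))
        + φ (snd (Fin.appendEquiv 4 4 (X, Y))) + u ⬝ᵥ (Fin.appendEquiv 4 4 (X, Y))).val
        = (-1) ^ (X ⬝ᵥ (π Y + fst u)).val * (-1) ^ (snd u ⬝ᵥ Y + φ Y).val := by
      intro X
      rw [e3, e1, e2, ← sgn_add]
      congr 2
      rw [dotProduct_add, dotProduct_comm (fst u) X]
      ring
    rw [sum_congr rfl (fun X _ => h4 X), ← sum_mul, sum_sgn]
    have h5 : π Y + fst u = 0 ↔ Y = ρ (fst u) := by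
      constructor
      · intro h
        have h6 : π Y = fst u := by
          funext i
          exact (zmod2_add_eq_zero _ _).1 (congrFun h i)
        rw [← h6, h1]
      · rintro rfl
        rw [h2]
        funext i
        exact (zmod2_add_eq_zero _ _).2 rfl
    by_cases h6 : Y = ρ (fst u)
    · rw [if_pos h6, if_pos (h5.2 h6)]; norm_num
    · rw [if_neg h6, if_neg (fun h => h6 (h5.1 h)), zero_mul]
  rw [sum_congr rfl (fun Y _ => h3 Y), sum_ite_eq' univ (ρ (fst u)), if_pos (mem_univ _)]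

lemma sgn_cases (a : ZMod 2) : (-1 : ℤ) ^ a.val = if a = 0 then 1 else -1 := by
  revert a; decide

lemma isBent_of (f fs : (Fin 8 → ZMod 2) → ZMod 2)
    (h : ∀ u, walsh f u = 16 * (-1) ^ (fs u).val) : IsBent f := by
  intro u
  rw [h u, sgn_cases]
  split_ifs <;> norm_num

lemma dual_of (f fs : (Fin 8 → ZMod 2) → ZMod 2)
    (h : ∀ u, walsh f u = 16 * (-1) ^ (fs u).val) : dual f = fs := by
  funext u
  unfold dual
  rw [h u, sgn_cases]
  have h2 : ∀ a : ZMod 2, (if (16 * (if a = 0 then 1 else -1) : ℤ) = 2 ^ (8 / 2) then (0 : ZMod 2)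
      else 1) = a := by decide
  exact h2 _

end Pool.Agent.R117.Bent
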