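import Pool.Agent.R117.Bent
import Pool.Agent.R117.BentData

set_option autoImplicit false
set_option maxRecDepth 100000

namespace Pool.Agent.R117.Bent

open Finset Matrix

/-- `all` over a list, by the recursor (quick to evaluate). -/
noncomputable def allL {α : Type} (f : α → Bool) (l : List α) : Bool :=
  List.rec true (fun a _ ih => cond (f a) ih false) l

theorem allL_iff {α : Type} (f : α → Bool) (l : List α) :
    allL f l = true ↔ ∀ a ∈ l, f a = true := by
  induction l with
  | nil => simp [allL]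
  | cons a l ih =>
    have h : allL f (a :: l) = cond (f a) (allL f l) false := rfl
    rw [h]
    cases hfa : f a with
    | true => simp [ih, hfa]
    | false => simp [hfa]

/-- binary digit -/
def tb (m i : ℕ) : Bool := Nat.beq (Nat.mod (Nat.shiftRight m i) 2) 1

theorem tb_eq (m i : ℕ) : tb m i = m.testBit i := by
  rw [Nat.testBit_eq_decide_div_mod_eq]
  unfold tb
  change Nat.beq ((m >>> i) % 2) 1 = _
  rw [Nat.shiftRight_eq_div_pow, Bool.eq_iff_iff, Nat.beq_eq, decide_eq_true_iff]

/-- exclusive or of the values at the binary digits of a number -/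
noncomputable def comb (f : ℕ → ℕ) (l : List ℕ) (m : ℕ) : ℕ :=
  List.rec 0 (fun i _ ih => Nat.xor (cond (tb m i) (f i) 0) ih) l

/-- the vector with a given bit mask -/
def phi (w : ℕ) : Fin 256 → ZMod 2 := fun j => if w.testBit j then 1 else 0

lemma phi_xor (a b : ℕ) : phi (a ^^^ b) = phi a + phi b := by
  funext j
  simp only [phi, Nat.testBit_xor, Pi.add_apply]
  cases a.testBit j <;> cases b.testBit j <;> decide

lemma phi_zero : phi 0 = 0 := by
  funext j
  simp [phi]

lemma comb_mem (f : ℕ → ℕ) (l : List ℕ) (m : ℕ) (S : Submodule (ZMod 2) (Fin 256 → ZMod 2))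
    (hS : ∀ i ∈ l, phi (f i) ∈ S) : phi (comb f l m) ∈ S := by
  induction l with
  | nil =>
    change phi 0 ∈ S
    rw [phi_zero]; exact S.zero_mem
  | cons i l ih =>
    have h : comb f (i :: l) m = (cond (tb m i) (f i) 0) ^^^ comb f l m := rfl
    rw [h, phi_xor]
    apply S.add_mem _ (ih (fun j hj => hS j (List.mem_cons_of_mem _ hj)))
    cases tb m i with
    | true => exact hS i List.mem_cons_self
    | false =>
      change phi 0 ∈ S
      rw [phi_zero]; exact S.zero_mem

/-- the vector with number `n` -/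
def ev (n : Fin 256) : Fin 8 → ZMod 2 := fun i => if (n : ℕ).testBit i then 1 else 0

lemma ev_inj : Function.Injective ev := by
  intro m n h
  apply Fin.ext
  apply Nat.eq_of_testBit_eq
  intro i
  by_cases hi : i < 8
  · have h1 := congrFun h ⟨i, hi⟩
    simp only [ev] at h1
    cases hm : (m : ℕ).testBit i <;> cases hn : (n : ℕ).testBit i <;> simp_all
  · rw [Nat.testBit_lt_two_pow, Nat.testBit_lt_two_pow]
    · refine n.2.trans_le ?_
      calc 256 = 2 ^ 8 := by norm_num
        _ ≤ 2 ^ i := Nat.pow_le_pow_right (by norm_num) (by omega)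
    · refine m.2.trans_le ?_
      calc 256 = 2 ^ 8 := by norm_num
        _ ≤ 2 ^ i := Nat.pow_le_pow_right (by norm_num) (by omega)

lemma ev_bij : Function.Bijective ev := by
  rw [Fintype.bijective_iff_injective_and_card]
  refine ⟨ev_inj, ?_⟩
  rw [Fintype.card_fin, Fintype.card_fun, ZMod.card, Fintype.card_fin]
  norm_num

/-- the numbering of the vectors -/
noncomputable def evE : Fin 256 ≃ (Fin 8 → ZMod 2) := Equiv.ofBijective ev ev_bij

lemma xor_lt (m n : Fin 256) : (m : ℕ) ^^^ (n : ℕ) < 256 :=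
  Nat.xor_lt_two_pow (n := 8) m.2 n.2

lemma ev_xor (m n : Fin 256) : ev m + ev n = ev ⟨(m : ℕ) ^^^ (n : ℕ), xor_lt m n⟩ := by
  funext i
  simp only [ev, Nat.testBit_xor, Pi.add_apply]
  cases (m : ℕ).testBit i <;> cases (n : ℕ).testBit i <;> decide

lemma mem_idx (i : Fin 256) : (i : ℕ) ∈ idx := by
  have h : idx = List.range 256 := by decide +kernel
  rw [h, List.mem_range]
  exact i.2

lemma mem_idx30 (i : Fin 30) : (i : ℕ) ∈ idx30 := by
  have h : idx30 = List.range 30 := by decide +kernel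
  rw [h, List.mem_range]
  exact i.2

lemma rank_eq_span (A : Matrix (Fin 8 → ZMod 2) (Fin 8 → ZMod 2) (ZMod 2)) (R : ℕ → ℕ)
    (hR : ∀ i j : Fin 256, A (ev i) (ev j) = phi (R i) j) :
    A.rank = Module.finrank (ZMod 2)
      (Submodule.span (ZMod 2) (Set.range (fun i : Fin 256 => phi (R i)))) := by
  have h1 : (A.submatrix evE evE).rank = A.rank := Matrix.rank_submatrix A evE evE
  rw [← h1, Matrix.rank_eq_finrank_span_row]
  have h2 : (A.submatrix evE evE).row = fun i : Fin 256 => phi (R i) := by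
    funext i j
    exact hR i j
  rw [h2]

/-- upper bound for the rank -/
lemma rank_le (A : Matrix (Fin 8 → ZMod 2) (Fin 8 → ZMod 2) (ZMod 2)) (R : ℕ → ℕ)
    (hR : ∀ i j : Fin 256, A (ev i) (ev j) = phi (R i) j) (f : ℕ → ℕ) (l : List ℕ) (mask : ℕ → ℕ)
    (h : ∀ i : Fin 256, R i = comb f l (mask i)) : A.rank ≤ l.length := by
  classical
  rw [rank_eq_span A R hR]
  have h1 : Submodule.span (ZMod 2) (Set.range (fun i : Fin 256 => phi (R i)))
      ≤ Submodule.span (ZMod 2) ((l.map (fun i => phi (f i))).toFinset : Set (Fin 256 → ZMod 2)) := by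
    rw [Submodule.span_le]
    rintro _ ⟨i, rfl⟩
    simp only [h i]
    apply comb_mem
    intro j hj
    apply Submodule.subset_span
    rw [List.coe_toFinset, Set.mem_ofPred_eq, List.mem_map]
    exact ⟨j, hj, rfl⟩
  refine (Submodule.finrank_mono h1).trans ?_
  refine (finrank_span_finset_le_card _).trans ?_
  refine (List.toFinset_card_le _).trans ?_
  rw [List.length_map]

/-- lower bound for the rank -/
lemma le_rank (A : Matrix (Fin 8 → ZMod 2) (Fin 8 → ZMod 2) (ZMod 2)) (R : ℕ → ℕ)
    (hR : ∀ i j : Fin 256, A (ev i) (ev j) = phi (R i) j) (n : ℕ) (W : Fin n → ℕ)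
    (mask : Fin n → ℕ) (hW : ∀ k, W k = comb R idx (mask k)) (c : Fin n → Fin 256)
    (hc : ∀ k l : Fin n, (W k).testBit (c l) = decide (k = l)) : n ≤ A.rank := by
  classical
  rw [rank_eq_span A R hR]
  have hli : LinearIndependent (ZMod 2) (fun k : Fin n => phi (W k)) := by
    rw [Fintype.linearIndependent_iff]
    intro g hg l
    have h1 := congrFun hg (c l)
    rw [Finset.sum_apply, Finset.sum_eq_single l] at h1
    · simpa [phi, hc] using h1
    · intro k _ hkl
      simp [phi, hc, hkl]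
    · intro h; exact absurd (mem_univ l) h
  have h2 : Submodule.span (ZMod 2) (Set.range (fun k : Fin n => phi (W k)))
      ≤ Submodule.span (ZMod 2) (Set.range (fun i : Fin 256 => phi (R i))) := by
    rw [Submodule.span_le]
    rintro _ ⟨k, rfl⟩
    simp only [hW k]
    apply comb_mem
    intro j hj
    apply Submodule.subset_span
    have h : idx = List.range 256 := by decide +kernel
    rw [h, List.mem_range] at hj
    exact ⟨⟨j, hj⟩, rfl⟩
  have h3 := Submodule.finrank_mono h2
  rw [finrank_span_eq_card hli, Fintype.card_fin] at h3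
  exact h3

/-- number of a vector of length 4 -/
def num4 (y : Fin 4 → ZMod 2) : ℕ := (y 0).val + 2 * (y 1).val + 4 * (y 2).val + 8 * (y 3).val

/-- map given by a table of 4-bit numbers -/
def tmap (T : ℕ) (y : Fin 4 → ZMod 2) : Fin 4 → ZMod 2 :=
  fun i => if (T >>> (4 * num4 y)).testBit i then 1 else 0

/-- function given by a table of bits -/
def tfun (T : ℕ) (y : Fin 4 → ZMod 2) : ZMod 2 := if T.testBit (num4 y) then 1 else 0

/-- the function `g` -/
def gF : (Fin 8 → ZMod 2) → ZMod 2 := fun x => fst x ⬝ᵥ snd x + tfun g1T (snd x)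

/-- the function `h` -/
def hF : (Fin 8 → ZMod 2) → ZMod 2 := fun x => fst x ⬝ᵥ tmap piT (snd x) + tfun h1T (snd x)

/-- the dual of `g` -/
def gD : (Fin 8 → ZMod 2) → ZMod 2 := fun u => snd u ⬝ᵥ fst u + tfun g1T (fst u)

/-- the dual of `h` -/
def hD : (Fin 8 → ZMod 2) → ZMod 2 :=
  fun u => snd u ⬝ᵥ tmap piI (fst u) + tfun h1T (tmap piI (fst u))

lemma tab1 : ∀ y : Fin 4 → ZMod 2, tmap piI (tmap piT y) = y := by decide +kernel
lemma tab2 : ∀ y : Fin 4 → ZMod 2, tmap piT (tmap piI y) = y := by decide +kernel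
lemma tab3 : ∀ y : Fin 4 → ZMod 2, tmap siI (y + tmap piT y) = y := by decide +kernel
lemma tab4 : ∀ y : Fin 4 → ZMod 2, tmap siI y + tmap piT (tmap siI y) = y := by decide +kernel
lemma tab5 : ∀ y : Fin 4 → ZMod 2, tmap siI y = y + tmap piI y := by decide +kernel
lemma tab6 : ∀ y : Fin 4 → ZMod 2, tfun g1T (tmap siI y) + tfun h1T (tmap siI y)
    = tfun g1T y + tfun h1T (tmap piI y) := by decide +kernel

lemma walsh_g (u : Fin 8 → ZMod 2) : walsh gF u = 16 * (-1) ^ (gD u).val :=
  walsh_mm (fun y => y) (fun y => y) (fun _ => rfl) (fun _ => rfl) (tfun g1T) u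

lemma walsh_h (u : Fin 8 → ZMod 2) : walsh hF u = 16 * (-1) ^ (hD u).val :=
  walsh_mm (tmap piT) (tmap piI) tab1 tab2 (tfun h1T) u

lemma walsh_gh (u : Fin 8 → ZMod 2) : walsh (gF + hF) u = 16 * (-1) ^ ((gD + hD) u).val := by
  have h1 := walsh_mm (fun y => y + tmap piT y) (tmap siI) tab3 tab4
    (fun y => tfun g1T y + tfun h1T y) u
  have e1 : (fun x : Fin 8 → ZMod 2 => fst x ⬝ᵥ (fun y => y + tmap piT y) (snd x)
      + (fun y => tfun g1T y + tfun h1T y) (snd x)) = gF + hF := by
    funext x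
    simp only [gF, hF, Pi.add_apply, dotProduct_add]
    ring
  have e2 : snd u ⬝ᵥ tmap siI (fst u) + (fun y => tfun g1T y + tfun h1T y) (tmap siI (fst u))
      = (gD + hD) u := by
    simp only [gD, hD, Pi.add_apply]
    rw [tab6, tab5, dotProduct_add]
    ring
  rw [e1, e2] at h1
  exact h1

/-- row of the translation matrix -/
def rowN (i : ℕ) : ℕ := Nat.mod (Nat.shiftRight BN (Nat.mul 256 i)) (2 ^ 256)

/-- row of the design matrix -/
def rowM (i : ℕ) : ℕ :=
  Nat.xor (Nat.xor (cond (tb GT i) (2 ^ 256 - 1) 0) (rowN i)) (Nat.xor GT HT)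

/-- mask -/
def maskM (i : ℕ) : ℕ := Nat.mod (Nat.shiftRight MM (Nat.mul 32 i)) (2 ^ 32)

/-- combination -/
def rowW (i : ℕ) : ℕ := Nat.mod (Nat.shiftRight WN (Nat.mul 256 i)) (2 ^ 256)

/-- mask -/
def maskW (i : ℕ) : ℕ := Nat.mod (Nat.shiftRight WM (Nat.mul 256 i)) (2 ^ 256)

/-- the numbers below 29 -/
def idx29 : List ℕ := [0, 1, 2, 3, 4, 5, 6, 7, 8, 9, 10, 11, 12, 13, 14, 15, 16, 17, 18, 19, 20, 21,
  22, 23, 24, 25, 26, 27, 28]

/-- element of the spanning set -/
noncomputable def basM (i : ℕ) : ℕ := BL.getD i 0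

/-- pivot column -/
noncomputable def colC (i : ℕ) : ℕ := CL.getD i 0

/-- Boolean equality -/
def beqB (a b : Bool) : Bool := cond a b (cond b false true)

lemma beqB_iff (a b : Bool) : beqB a b = true ↔ a = b := by
  cases a <;> cases b <;> decide

lemma chk1 : allL (fun i => allL (fun j => beqB (tb (rowN i) j) (tb HT (Nat.xor i j))) idx) idx
    = true := by decide +kernel

lemma chk2 : allL (fun i => Nat.beq (rowM i) (comb basM idx29 (maskM i))) idx = true := by
  decide +kernel

lemma chk3 : allL (fun i => Nat.beq (rowW i) (comb rowN idx (maskW i))) idx30 = true := by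
  decide +kernel

lemma chk4 : allL (fun i => allL (fun j => beqB (tb (rowW i) (colC j)) (Nat.beq i j)) idx30) idx30
    = true := by decide +kernel

lemma chk5 : ∀ n : Fin 256, gF (ev n) = if GT.testBit n then 1 else 0 := by decide +kernel

lemma chk6 : ∀ n : Fin 256, hF (ev n) = if HT.testBit n then 1 else 0 := by decide +kernel

lemma chk7 : ∀ l : Fin 30, colC l % 256 = colC l := by decide +kernel

lemma chk1' (i j : Fin 256) : (rowN i).testBit j = HT.testBit ((i : ℕ) ^^^ (j : ℕ)) := by
  have h1 := (allL_iff _ _).1 ((allL_iff _ _).1 chk1 i (mem_idx i)) j (mem_idx j)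
  rw [beqB_iff, tb_eq, tb_eq] at h1
  exact h1

lemma entry_N (i j : Fin 256) : translationMatrix hF (ev i) (ev j) = phi (rowN i) j := by
  change hF (ev i + ev j) = _
  rw [ev_xor, chk6]
  unfold phi
  rw [chk1']

lemma entry_M (i j : Fin 256) : designMatrix gF hF (ev i) (ev j) = phi (rowM i) j := by
  change gF (ev i) + hF (ev j + ev i) + (gF (ev j) + hF (ev j)) = _
  have e : rowM i = ((cond (tb GT i) (2 ^ 256 - 1) 0) ^^^ (rowN i)) ^^^ (GT ^^^ HT) := rfl
  rw [e, phi_xor, phi_xor, phi_xor, Pi.add_apply, Pi.add_apply, Pi.add_apply]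
  congr 1
  · congr 1
    · rw [chk5, tb_eq]
      cases GT.testBit (i : ℕ) with
      | true =>
        have h9 : (2 ^ 256 - 1 : ℕ).testBit (j : ℕ) = true := by
          rw [Nat.testBit_two_pow_sub_one, decide_eq_true_iff]; exact j.2
        change (1 : ZMod 2) = if (2 ^ 256 - 1 : ℕ).testBit (j : ℕ) = true then 1 else 0
        rw [if_pos h9]
      | false => simp [phi]
    · rw [add_comm (ev j) (ev i), ev_xor, chk6]
      unfold phi
      rw [chk1']
  · rw [chk5, chk6]
    rfl

theorem rank_M : (designMatrix gF hF).rank ≤ 29 := by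
  refine rank_le _ rowM entry_M basM idx29 maskM (fun i => ?_)
  have h := (allL_iff _ _).1 chk2 i (mem_idx i)
  rwa [Nat.beq_eq] at h

theorem rank_N : 30 ≤ (translationMatrix hF).rank := by
  refine le_rank _ rowN entry_N 30 (fun k => rowW k) (fun k => maskW k) (fun k => ?_)
    (fun k => ⟨colC k % 256, Nat.mod_lt _ (by norm_num)⟩) (fun k l => ?_)
  · have h := (allL_iff _ _).1 chk3 k (mem_idx30 k)
    rwa [Nat.beq_eq] at h
  · have h := (allL_iff _ _).1 ((allL_iff _ _).1 chk4 k (mem_idx30 k)) l (mem_idx30 l)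
    rw [beqB_iff, tb_eq] at h
    have h2 : colC l % 256 = colC l := chk7 l
    change (rowW k).testBit (colC l % 256) = _
    rw [h2, h, Bool.eq_iff_iff, Nat.beq_eq, decide_eq_true_iff, Fin.ext_iff]

/-- main theorem -/
theorem main : ∃ g h : (Fin 8 → ZMod 2) → ZMod 2, IsBent g ∧ IsBent h ∧ IsBent (g + h) ∧
    dual (g + h) = dual g + dual h ∧ (designMatrix g h).rank ≤ 29 ∧
    30 ≤ (translationMatrix h).rank := by
  refine ⟨gF, hF, isBent_of gF gD walsh_g, isBent_of hF hD walsh_h,
    isBent_of (gF + hF) (gD + hD) walsh_gh, ?_, rank_M, rank_N⟩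
  rw [dual_of gF gD walsh_g, dual_of hF hD walsh_h, dual_of (gF + hF) (gD + hD) walsh_gh]

end Pool.Agent.R117.Bent
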