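import Mathlib

set_option autoImplicit false

namespace Pool.Agent.R117.Cyc

open Finset

/-- The translate `B + t`. -/
def translate {v : ℕ} (t : ZMod v) (B : Finset (ZMod v)) : Finset (ZMod v) :=
  B.map (addRightEmbedding t)

/-- `Bs` is the block multiset of a cyclic `(v, k, lam)`-design. -/
structure IsCyclicDesign (v k lam : ℕ) (Bs : Multiset (Finset (ZMod v))) : Prop where
  card_block : ∀ B ∈ Bs, B.card = k
  pair : ∀ x y : ZMod v, x ≠ y → Multiset.card (Bs.filter (fun B => x ∈ B ∧ y ∈ B)) = lam
  invariant : ∀ (t : ZMod v) (B : Finset (ZMod v)), Bs.count (translate t B) = Bs.count B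

open scoped Classical in
/-- There is a choice of one block from each block orbit such that the chosen blocks are pairwise
disjoint: a multiset `R` of pairwise disjoint sets containing, for each `B`, exactly as many
translates of `B` as `B` has copies in `Bs` (this is the number of block orbits that are copies of
the translation orbit of `B`). -/
def HasDisjointReps {v : ℕ} (Bs : Multiset (Finset (ZMod v))) : Prop :=
  ∃ R : Multiset (Finset (ZMod v)), R.Pairwise Disjoint ∧
    ∀ B : Finset (ZMod v), Multiset.card (R.filter (fun C => ∃ t, C = translate t B)) = Bs.count B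

lemma mem_translate {v : ℕ} (t : ZMod v) (B : Finset (ZMod v)) (x : ZMod v) :
    x ∈ translate t B ↔ x - t ∈ B := by
  unfold translate
  rw [mem_map]
  constructor
  · rintro ⟨y, hy, rfl⟩
    simpa using hy
  · intro h
    exact ⟨x - t, h, by simp⟩

lemma translate_translate {v : ℕ} (s t : ZMod v) (B : Finset (ZMod v)) :
    translate s (translate t B) = translate (t + s) B := by
  ext x
  rw [mem_translate, mem_translate, mem_translate]
  rw [show x - s - t = x - (t + s) by ring]

lemma translate_zero {v : ℕ} (B : Finset (ZMod v)) : translate 0 B = B := by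
  ext x
  rw [mem_translate, sub_zero]

lemma card_translate {v : ℕ} (t : ZMod v) (B : Finset (ZMod v)) :
    (translate t B).card = B.card := by
  unfold translate; rw [card_map]

/-- The translation orbit of `C`. -/
def orb {v : ℕ} [NeZero v] (C : Finset (ZMod v)) : Finset (Finset (ZMod v)) :=
  univ.image (fun t => translate t C)

lemma mem_orb {v : ℕ} [NeZero v] (C B : Finset (ZMod v)) :
    B ∈ orb C ↔ ∃ t, C = translate t B := by
  unfold orb
  rw [mem_image]
  constructor
  · rintro ⟨t, -, rfl⟩
    exact ⟨-t, by rw [translate_translate, add_neg_cancel, translate_zero]⟩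
  · rintro ⟨t, rfl⟩
    exact ⟨-t, mem_univ _, by rw [translate_translate, add_neg_cancel, translate_zero]⟩

lemma orb_card_le {v : ℕ} [NeZero v] (C : Finset (ZMod v)) : (orb C).card ≤ v := by
  unfold orb
  refine card_image_le.trans ?_
  rw [card_univ, ZMod.card]

open scoped Classical in
/-- The total number of blocks is the sum of the lengths of the orbits of the representatives. -/
lemma card_eq_sum_orb {v : ℕ} [NeZero v] (Bs R : Multiset (Finset (ZMod v)))
    (hR : ∀ B : Finset (ZMod v),
      Multiset.card (R.filter (fun C => ∃ t, C = translate t B)) = Bs.count B) :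
    Multiset.card Bs = (R.map (fun C => (orb C).card)).sum := by
  classical
  have h1 : Multiset.card Bs = ∑ B : Finset (ZMod v), Bs.count B := by
    rw [← Multiset.toFinset_sum_count_eq]
    apply Finset.sum_subset (subset_univ _)
    intro B _ hB
    rw [Multiset.mem_toFinset] at hB
    exact Multiset.count_eq_zero_of_notMem hB
  rw [h1, Finset.sum_congr rfl (fun B _ => (hR B).symm)]
  clear hR h1
  induction R using Multiset.induction_on with
  | empty => simp
  | cons C R ih =>
    rw [Multiset.map_cons, Multiset.sum_cons, ← ih]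
    have h2 : ∀ B : Finset (ZMod v),
        Multiset.card ((C ::ₘ R).filter (fun C => ∃ t, C = translate t B))
          = (if B ∈ orb C then 1 else 0)
            + Multiset.card (R.filter (fun C => ∃ t, C = translate t B)) := by
      intro B
      rw [Multiset.filter_cons, Multiset.card_add]
      congr 1
      by_cases h : ∃ t, C = translate t B
      · rw [if_pos h, if_pos ((mem_orb C B).2 h)]; rfl
      · rw [if_neg h, if_neg (fun h' => h ((mem_orb C B).1 h'))]; rfl
    rw [Finset.sum_congr rfl (fun B _ => h2 B), Finset.sum_add_distrib]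
    congr 1
    rw [← Finset.card_filter]
    congr 1
    ext B
    simp

/-- Pairwise disjoint sets of size `k`. -/
lemma card_mul_le {v : ℕ} [NeZero v] (R : Multiset (Finset (ZMod v))) (hR : R.Pairwise Disjoint)
    (k : ℕ) (hk : ∀ C ∈ R, C.card = k) : Multiset.card R * k ≤ v := by
  classical
  obtain ⟨l, rfl, hl⟩ := hR
  have key : ∀ l : List (Finset (ZMod v)), l.Pairwise Disjoint → (∀ C ∈ l, C.card = k) →
      ∃ U : Finset (ZMod v), U.card = l.length * k ∧ ∀ D : Finset (ZMod v),
        (∀ C ∈ l, Disjoint D C) → Disjoint D U := by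
    intro l
    induction l with
    | nil => intro _ _; exact ⟨∅, by simp, by simp⟩
    | cons C l ih =>
      intro hp hc
      rw [List.pairwise_cons] at hp
      obtain ⟨U, hU, hD⟩ := ih hp.2 (fun C' h => hc C' (List.mem_cons_of_mem _ h))
      refine ⟨C ∪ U, ?_, ?_⟩
      · rw [card_union_of_disjoint (hD C hp.1), hU, hc C List.mem_cons_self, List.length_cons]
        ring
      · intro D h
        rw [disjoint_union_right]
        exact ⟨h C List.mem_cons_self, hD D (fun C' h' => h C' (List.mem_cons_of_mem _ h'))⟩
  obtain ⟨U, hU, -⟩ := key l hl (fun C hC => hk C hC)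
  have h1 : U.card ≤ v := by
    have := card_le_univ U
    rwa [ZMod.card] at this
  rw [Multiset.coe_card, ← hU]
  exact h1

/-- number of blocks -/
lemma card_blocks {v k lam : ℕ} [NeZero v] (Bs : Multiset (Finset (ZMod v)))
    (h : IsCyclicDesign v k lam Bs) : Multiset.card Bs * (k * k - k) = v * (v - 1) * lam := by
  classical
  have h1 : ∑ p ∈ (univ : Finset (ZMod v × ZMod v)).filter (fun p => p.1 ≠ p.2),
      Multiset.card (Bs.filter (fun B => p.1 ∈ B ∧ p.2 ∈ B)) = v * (v - 1) * lam := by
    rw [Finset.sum_congr rfl (g := fun _ => lam), Finset.sum_const, smul_eq_mul]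
    · congr 1
      have h2 : (univ : Finset (ZMod v × ZMod v)).filter (fun p => p.1 ≠ p.2)
          = (univ : Finset (ZMod v)).offDiag := by
        ext p; simp
      rw [h2, offDiag_card, card_univ, ZMod.card, Nat.mul_sub, mul_one]
    · intro p hp
      rw [mem_filter] at hp
      exact h.pair _ _ hp.2
  rw [← h1]
  have h3 : ∀ Cs : Multiset (Finset (ZMod v)), (∀ B ∈ Cs, B.card = k) →
      Multiset.card Cs * (k * k - k)
        = ∑ p ∈ (univ : Finset (ZMod v × ZMod v)).filter (fun p => p.1 ≠ p.2),
          Multiset.card (Cs.filter (fun B => p.1 ∈ B ∧ p.2 ∈ B)) := by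
    intro Cs
    induction Cs using Multiset.induction_on with
    | empty => intro _; simp
    | cons C Cs ih =>
      intro hC
      have h4 := ih (fun B hB => hC B (Multiset.mem_cons_of_mem hB))
      have h5 : ∀ p : ZMod v × ZMod v,
          Multiset.card ((C ::ₘ Cs).filter (fun B => p.1 ∈ B ∧ p.2 ∈ B))
            = (if p.1 ∈ C ∧ p.2 ∈ C then 1 else 0)
              + Multiset.card (Cs.filter (fun B => p.1 ∈ B ∧ p.2 ∈ B)) := by
        intro p
        rw [Multiset.filter_cons, Multiset.card_add]
        congr 1
        by_cases hp : p.1 ∈ C ∧ p.2 ∈ C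
        · rw [if_pos hp, if_pos hp]; rfl
        · rw [if_neg hp, if_neg hp]; rfl
      rw [Finset.sum_congr rfl (fun p _ => h5 p), Finset.sum_add_distrib, ← h4,
        Multiset.card_cons, add_mul, one_mul, add_comm]
      congr 1
      rw [← Finset.card_filter, filter_filter]
      have h6 : (univ : Finset (ZMod v × ZMod v)).filter
          (fun p => p.1 ≠ p.2 ∧ (p.1 ∈ C ∧ p.2 ∈ C)) = C.offDiag := by
        ext p
        simp only [mem_filter, mem_univ, true_and, mem_offDiag]
        tauto
      rw [h6, offDiag_card, hC C (Multiset.mem_cons_self C Cs)]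
  exact h3 Bs h.card_block

/-- **Obstruction.** A cyclic `(v, k, k - 1)`-design with `k ≥ 3` and a block orbit of length less
than `v` has no system of disjoint representatives. -/
theorem no_reps {v k : ℕ} [NeZero v] (hk : 3 ≤ k) (Bs : Multiset (Finset (ZMod v)))
    (h : IsCyclicDesign v k (k - 1) Bs) (B0 : Finset (ZMod v)) (hB0 : B0 ∈ Bs)
    (t0 : ZMod v) (ht0 : t0 ≠ 0) (hshort : translate t0 B0 = B0) : ¬ HasDisjointReps Bs := by
  classical
  rintro ⟨R, hdis, hR0⟩
  have hR : ∀ B : Finset (ZMod v),
      Multiset.card (R.filter (fun C => ∃ t, C = translate t B)) = Bs.count B := by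
    intro B; convert hR0 B
  have hRk : ∀ C ∈ R, C.card = k := by
    intro C hC
    have h1 : 0 < Multiset.card (R.filter (fun C' => ∃ t, C' = translate t C)) :=
      Multiset.card_pos_iff_exists_mem.2
        ⟨C, Multiset.mem_filter.2 ⟨hC, 0, (translate_zero C).symm⟩⟩
    rw [hR C] at h1
    exact h.card_block C (Multiset.count_pos.1 h1)
  have hsum := card_eq_sum_orb Bs R hR
  have hle := card_mul_le R hdis k hRk
  have hnb := card_blocks Bs h
  -- a representative of the short orbit
  obtain ⟨C0, hC0, hC0s⟩ : ∃ C ∈ R, (orb C).card * 2 ≤ v := by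
    have h1 : 0 < Multiset.card (R.filter (fun C' => ∃ t, C' = translate t B0)) := by
      rw [hR B0]; exact Multiset.count_pos.2 hB0
    obtain ⟨C, hC⟩ := Multiset.card_pos_iff_exists_mem.1 h1
    rw [Multiset.mem_filter] at hC
    obtain ⟨hCR, s, rfl⟩ := hC
    refine ⟨_, hCR, ?_⟩
    -- every member of the orbit has at least two preimages
    have h2 : ∀ D ∈ orb (translate s B0),
        2 ≤ ((univ : Finset (ZMod v)).filter (fun t => translate t (translate s B0) = D)).card := by
      intro D hD
      unfold orb at hD
      rw [mem_image] at hD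
      obtain ⟨t, -, rfl⟩ := hD
      have h3 : ({t, t + t0} : Finset (ZMod v)) ⊆ (univ : Finset (ZMod v)).filter
          (fun t' => translate t' (translate s B0) = translate t (translate s B0)) := by
        intro u hu
        rw [mem_insert, mem_singleton] at hu
        rw [mem_filter]
        refine ⟨mem_univ _, ?_⟩
        rcases hu with rfl | rfl
        · rfl
        · rw [translate_translate, translate_translate]
          conv_rhs => rw [← hshort]
          rw [translate_translate]
          congr 1
          ring
      have h4 := card_le_card h3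
      rw [card_pair] at h4
      · exact h4
      · intro h5
        exact ht0 (by simpa using h5.symm)
    have h6 := card_eq_sum_card_image (fun t => translate t (translate s B0)) (univ : Finset (ZMod v))
    rw [card_univ, ZMod.card] at h6
    have h7 := Finset.sum_le_sum (s := univ.image (fun t => translate t (translate s B0)))
      (f := fun _ => 2) (g := fun D => ((univ : Finset (ZMod v)).filter
        (fun t => translate t (translate s B0) = D)).card) h2
    rw [Finset.sum_const, smul_eq_mul] at h7
    unfold orb
    omega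
  -- upper bound for the number of blocks
  obtain ⟨R', hR'⟩ := Multiset.exists_cons_of_mem hC0
  have h8 : (R.map (fun C => (orb C).card)).sum ≤ (orb C0).card + Multiset.card R' * v := by
    rw [hR', Multiset.map_cons, Multiset.sum_cons]
    apply Nat.add_le_add_left
    have := Multiset.sum_le_card_nsmul (R'.map (fun C => (orb C).card)) v (by
      intro x hx
      rw [Multiset.mem_map] at hx
      obtain ⟨C, -, rfl⟩ := hx
      exact orb_card_le C)
    rwa [Multiset.card_map, smul_eq_mul] at this
  rw [hR', Multiset.card_cons] at hle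
  rw [hsum] at hnb
  have hv : 0 < v := Nat.pos_of_ne_zero (NeZero.ne v)
  obtain ⟨K, rfl⟩ : ∃ K, k = K + 1 := ⟨k - 1, by omega⟩
  have e1 : (K + 1) * (K + 1) - (K + 1) = (K + 1) * K := by
    rw [← Nat.mul_sub_one]; simp
  rw [e1, Nat.add_sub_cancel] at hnb
  have h9 : (R.map (fun C => (orb C).card)).sum * (K + 1) = v * (v - 1) := by
    have hK : 0 < K := by omega
    apply Nat.eq_of_mul_eq_mul_right hK
    rw [← hnb]; ring
  obtain ⟨w, rfl⟩ : ∃ w, v = w + 1 := ⟨v - 1, by omega⟩
  rw [Nat.add_sub_cancel] at h9
  -- `(r + 1) (K + 1) ≤ w + 1` and `(w + 1) w ≤ (o + r (w + 1)) (K + 1)`, `2 o ≤ w + 1`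
  set r := Multiset.card R' with hr
  set o := (orb C0).card with ho
  have h10 : (w + 1) * w ≤ (o + r * (w + 1)) * (K + 1) := by
    rw [← h9]; exact Nat.mul_le_mul_right _ h8
  have h11 : 2 * ((w + 1) * w) ≤ (w + 1) * (K + 1) + 2 * (r * (K + 1) * (w + 1)) := by
    calc 2 * ((w + 1) * w) ≤ 2 * ((o + r * (w + 1)) * (K + 1)) := Nat.mul_le_mul_left _ h10
      _ = (o * 2) * (K + 1) + 2 * (r * (K + 1) * (w + 1)) := by ring
      _ ≤ (w + 1) * (K + 1) + 2 * (r * (K + 1) * (w + 1)) := by
        apply Nat.add_le_add_right
        exact Nat.mul_le_mul_right _ hC0s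
  have h12 : 2 * w ≤ (K + 1) + 2 * (r * (K + 1)) := by
    apply Nat.le_of_mul_le_mul_left _ (Nat.succ_pos w)
    calc (w + 1) * (2 * w) = 2 * ((w + 1) * w) := by ring
      _ ≤ _ := h11
      _ = (w + 1) * ((K + 1) + 2 * (r * (K + 1))) := by ring
  have h13 : (r + 1) * (K + 1) = r * (K + 1) + (K + 1) := by ring
  rw [h13] at hle
  omega

end Pool.Agent.R117.Cyc
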