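import Pool.Agent.R117.Cyc

set_option autoImplicit false

namespace Pool.Agent.R117.Cyc

open Finset

/-- `{t - d, t + d, t + e}` -/
def T2 {v : ℕ} (e t d : ZMod v) : Finset (ZMod v) := {t - d, t + d, t + e}

/-- `{t, t + e, t - e}` -/
def T1 {v : ℕ} (e t : ZMod v) : Finset (ZMod v) := {t, t + e, t - e}

/-- the hypotheses on the idempotent `e` -/
structure Idem (v : ℕ) (e : ZMod v) : Prop where
  idem : e * e = e
  three : e + e + e = 0
  ne : e ≠ 0
  cases : ∀ x : ZMod v, e * x = 0 ∨ e * x = e ∨ e * x = -e
  half : ∃ h : ZMod v, h + h = 1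

variable {v : ℕ} {e : ZMod v}

lemma Idem.neg_ne (H : Idem v e) : -e ≠ e := by
  intro h
  apply H.ne
  have h1 := H.three
  linear_combination h1 + h

lemma Idem.neg_ne_zero (H : Idem v e) : -e ≠ 0 := fun h => H.ne (neg_eq_zero.1 h)

lemma Idem.two_inj (H : Idem v e) {x y : ZMod v} (h : x + x = y + y) : x = y := by
  obtain ⟨c, hc⟩ := H.half
  linear_combination c * h - (x - y) * hc

lemma mem_T2 (e t d x : ZMod v) : x ∈ T2 e t d ↔ x = t - d ∨ x = t + d ∨ x = t + e := by
  simp [T2]

lemma mem_T1 (e t x : ZMod v) : x ∈ T1 e t ↔ x = t ∨ x = t + e ∨ x = t - e := by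
  simp [T1]

lemma card_T2 (H : Idem v e) (t d : ZMod v) (hd : e * d = 0) (hd0 : d ≠ 0) :
    (T2 e t d).card = 3 := by
  unfold T2
  rw [card_eq_three]
  refine ⟨t - d, t + d, t + e, ?_, ?_, ?_, rfl⟩
  · intro h
    apply hd0
    apply H.two_inj
    linear_combination -h
  · intro h
    apply H.ne
    have h1 : e = -d := by linear_combination -h
    have h2 := H.idem
    calc e = e * e := h2.symm
      _ = -(e * d) := by rw [h1]; ring
      _ = 0 := by rw [hd, neg_zero]
  · intro h
    apply H.ne
    have h1 : e = d := by linear_combination -h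
    calc e = e * e := H.idem.symm
      _ = e * d := by rw [← h1]
      _ = 0 := hd

lemma card_T1 (H : Idem v e) (t : ZMod v) : (T1 e t).card = 3 := by
  unfold T1
  rw [card_eq_three]
  refine ⟨t, t + e, t - e, ?_, ?_, ?_, rfl⟩
  · intro h; exact H.ne (by linear_combination -h)
  · intro h; exact H.ne (by linear_combination h)
  · intro h
    exact H.neg_ne (by linear_combination -h)

lemma translate_T2 (s t d : ZMod v) : translate s (T2 e t d) = T2 e (t + s) d := by
  ext x
  rw [mem_translate, mem_T2, mem_T2]
  refine or_congr ?_ (or_congr ?_ ?_) <;>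
  · constructor
    · intro h; linear_combination h
    · intro h; linear_combination h

lemma translate_T1 (s t : ZMod v) : translate s (T1 e t) = T1 e (t + s) := by
  ext x
  rw [mem_translate, mem_T1, mem_T1]
  refine or_congr ?_ (or_congr ?_ ?_) <;>
  · constructor
    · intro h; linear_combination h
    · intro h; linear_combination h

lemma T1_add (H : Idem v e) (t : ZMod v) : T1 e (t + e) = T1 e t := by
  have h3 := H.three
  ext x
  rw [mem_T1, mem_T1]
  constructor
  · rintro (h | h | h)
    · exact Or.inr (Or.inl h)
    · exact Or.inr (Or.inr (by linear_combination h + h3))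
    · exact Or.inl (by linear_combination h)
  · rintro (h | h | h)
    · exact Or.inr (Or.inr (by linear_combination h))
    · exact Or.inl h
    · exact Or.inr (Or.inl (by linear_combination h - h3))

/-- differences in a block of the second kind -/
lemma T2_diff (H : Idem v e) (t d a b : ZMod v) (hd : e * d = 0) (hab : a ≠ b)
    (ha : a ∈ T2 e t d) (hb : b ∈ T2 e t d) :
    (e * (b - a) = 0 ∧ (b - a = d + d ∨ b - a = -(d + d)) ∧ a + b = t + t) ∨
    (e * (b - a) = e ∧ (b - a - e = d ∨ b - a - e = -d) ∧ t = b - e) ∨
    (e * (b - a) = -e ∧ (a - b - e = d ∨ a - b - e = -d) ∧ t = a - e) := by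
  have hi := H.idem
  rw [mem_T2] at ha hb
  rcases ha with ha | ha | ha <;> rcases hb with hb | hb | hb
  · exact absurd (ha.trans hb.symm) hab
  · left
    exact ⟨by rw [ha, hb]; linear_combination 2 * hd, Or.inl (by rw [ha, hb]; ring),
      by rw [ha, hb]; ring⟩
  · right; left
    exact ⟨by rw [ha, hb]; linear_combination hd + hi, Or.inl (by rw [ha, hb]; ring),
      by rw [hb]; ring⟩
  · left
    exact ⟨by rw [ha, hb]; linear_combination (-2) * hd, Or.inr (by rw [ha, hb]; ring),
      by rw [ha, hb]; ring⟩
  · exact absurd (ha.trans hb.symm) hab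
  · right; left
    exact ⟨by rw [ha, hb]; linear_combination (-1) * hd + hi, Or.inr (by rw [ha, hb]; ring),
      by rw [hb]; ring⟩
  · right; right
    exact ⟨by rw [ha, hb]; linear_combination (-1) * hd - hi, Or.inl (by rw [ha, hb]; ring),
      by rw [ha]; ring⟩
  · right; right
    exact ⟨by rw [ha, hb]; linear_combination hd - hi, Or.inr (by rw [ha, hb]; ring),
      by rw [ha]; ring⟩
  · exact absurd (ha.trans hb.symm) hab

variable [NeZero v]

/-- the index set of the blocks of the second kind -/
def I2 (e : ZMod v) : Finset (ZMod v × ZMod v) :=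
  univ.filter (fun p => e * p.2 = 0 ∧ p.2 ≠ 0)

/-- the design -/
def design (e : ZMod v) : Multiset (Finset (ZMod v)) :=
  (I2 e).val.map (fun p => T2 e p.1 p.2) + 2 • (univ.image (fun t => T1 e t)).val

/-- pairs in blocks of the second kind -/
lemma pair_two (H : Idem v e) (a b : ZMod v) (hab : a ≠ b) :
    ((I2 e).filter (fun p => a ∈ T2 e p.1 p.2 ∧ b ∈ T2 e p.1 p.2)).card
      = if b - a = e ∨ a - b = e then 0 else 2 := by
  have hi := H.idem
  have h3 := H.three
  obtain ⟨c, hc⟩ := H.half
  have hne : b - a ≠ 0 := fun h => hab (sub_eq_zero.1 h).symm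
  split_ifs with hcase
  · rw [card_eq_zero, filter_eq_empty_iff]
    rintro ⟨t, d⟩ hp ⟨h1, h2⟩
    simp only [I2, mem_filter, mem_univ, true_and] at hp
    have h4 := T2_diff H t d a b hp.1 hab h1 h2
    rcases hcase with hcase | hcase
    · have h5 : e * (b - a) = e := by rw [hcase, hi]
      rcases h4 with ⟨h6, -⟩ | ⟨-, h6, -⟩ | ⟨h6, -⟩
      · exact H.ne (h5.symm.trans h6)
      · apply hp.2
        rcases h6 with h6 | h6
        · rw [← h6, hcase, sub_self]
        · rw [hcase, sub_self] at h6
          exact neg_eq_zero.1 h6.symm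
      · exact H.neg_ne (h6.symm.trans h5)
    · have h5 : e * (b - a) = -e := by
        rw [show b - a = -(a - b) by ring, hcase, mul_neg, hi]
      rcases h4 with ⟨h6, -⟩ | ⟨h6, -⟩ | ⟨-, h6, -⟩
      · exact H.neg_ne_zero (h5.symm.trans h6)
      · exact H.neg_ne (h5.symm.trans h6)
      · apply hp.2
        rcases h6 with h6 | h6
        · rw [← h6, hcase, sub_self]
        · rw [hcase, sub_self] at h6
          exact neg_eq_zero.1 h6.symm
  · rw [not_or] at hcase
    rw [card_eq_two]
    rcases H.cases (b - a) with h0 | h0 | h0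
    · -- both solutions have the midpoint
      refine ⟨(c * (a + b), c * (b - a)), (c * (a + b), -(c * (b - a))), ?_, ?_⟩
      · intro h
        rw [Prod.mk.injEq] at h
        apply hne
        linear_combination h.2 - (b - a) * hc
      · ext ⟨t, d⟩
        simp only [I2, mem_filter, mem_univ, true_and, mem_insert, mem_singleton, Prod.mk.injEq]
        constructor
        · rintro ⟨⟨hd, hd0⟩, h1, h2⟩
          rcases T2_diff H t d a b hd hab h1 h2 with ⟨-, h6, h7⟩ | ⟨h6, -⟩ | ⟨h6, -⟩
          · have ht : t = c * (a + b) := by linear_combination -(c * h7) - t * hc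
            rcases h6 with h6 | h6
            · exact Or.inl ⟨ht, by linear_combination -(c * h6) - d * hc⟩
            · exact Or.inr ⟨ht, by linear_combination (c * h6) - d * hc⟩
          · exact absurd (h0.symm.trans h6).symm H.ne
          · exact absurd (h0.symm.trans h6).symm H.neg_ne_zero
        · have hd0 : c * (b - a) ≠ 0 := by
            intro h
            apply hne
            linear_combination 2 * h - (b - a) * hc
          rintro (⟨rfl, rfl⟩ | ⟨rfl, rfl⟩)
          · refine ⟨⟨by linear_combination c * h0, hd0⟩, ?_, ?_⟩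
            · rw [mem_T2]; left; linear_combination -(a * hc)
            · rw [mem_T2]; right; left; linear_combination -(b * hc)
          · refine ⟨⟨by linear_combination -(c * h0), neg_ne_zero.2 hd0⟩, ?_, ?_⟩
            · rw [mem_T2]; right; left; linear_combination -(a * hc)
            · rw [mem_T2]; left; linear_combination -(b * hc)
    · refine ⟨(b - e, b - a - e), (b - e, -(b - a - e)), ?_, ?_⟩
      · intro h
        rw [Prod.mk.injEq] at h
        apply hcase.1
        have := H.two_inj (x := b - a - e) (y := 0) (by linear_combination h.2)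
        linear_combination this
      · ext ⟨t, d⟩
        simp only [I2, mem_filter, mem_univ, true_and, mem_insert, mem_singleton, Prod.mk.injEq]
        constructor
        · rintro ⟨⟨hd, hd0⟩, h1, h2⟩
          rcases T2_diff H t d a b hd hab h1 h2 with ⟨h6, -⟩ | ⟨-, h6, h7⟩ | ⟨h6, -⟩
          · exact absurd (h0.symm.trans h6) H.ne
          · rcases h6 with h6 | h6
            · exact Or.inl ⟨h7, h6.symm⟩
            · exact Or.inr ⟨h7, by linear_combination h6⟩
          · exact absurd (h0.symm.trans h6).symm H.neg_ne
        · have hd0 : b - a - e ≠ 0 := by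
            intro h
            exact hcase.1 (by linear_combination h)
          rintro (⟨rfl, rfl⟩ | ⟨rfl, rfl⟩)
          · refine ⟨⟨by linear_combination h0 - hi, hd0⟩, ?_, ?_⟩
            · rw [mem_T2]; left; ring
            · rw [mem_T2]; right; right; ring
          · refine ⟨⟨by linear_combination -h0 + hi, neg_ne_zero.2 hd0⟩, ?_, ?_⟩
            · rw [mem_T2]; right; left; ring
            · rw [mem_T2]; right; right; ring
    · refine ⟨(a - e, a - b - e), (a - e, -(a - b - e)), ?_, ?_⟩
      · intro h
        rw [Prod.mk.injEq] at h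
        apply hcase.2
        have := H.two_inj (x := a - b - e) (y := 0) (by linear_combination h.2)
        linear_combination this
      · ext ⟨t, d⟩
        simp only [I2, mem_filter, mem_univ, true_and, mem_insert, mem_singleton, Prod.mk.injEq]
        constructor
        · rintro ⟨⟨hd, hd0⟩, h1, h2⟩
          rcases T2_diff H t d a b hd hab h1 h2 with ⟨h6, -⟩ | ⟨h6, -⟩ | ⟨-, h6, h7⟩
          · exact absurd (h0.symm.trans h6) H.neg_ne_zero
          · exact absurd (h0.symm.trans h6) H.neg_ne
          · rcases h6 with h6 | h6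
            · exact Or.inl ⟨h7, h6.symm⟩
            · exact Or.inr ⟨h7, by linear_combination h6⟩
        · have hd0 : a - b - e ≠ 0 := by
            intro h
            exact hcase.2 (by linear_combination h)
          rintro (⟨rfl, rfl⟩ | ⟨rfl, rfl⟩)
          · refine ⟨⟨by linear_combination -h0 - hi, hd0⟩, ?_, ?_⟩
            · rw [mem_T2]; right; right; ring
            · rw [mem_T2]; left; ring
          · refine ⟨⟨by linear_combination h0 + hi, neg_ne_zero.2 hd0⟩, ?_, ?_⟩
            · rw [mem_T2]; right; right; ring
            · rw [mem_T2]; right; left; ring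

/-- pairs in blocks of the first kind -/
lemma pair_one (H : Idem v e) (a b : ZMod v) (hab : a ≠ b) :
    ((univ.image (fun t => T1 e t)).filter (fun B => a ∈ B ∧ b ∈ B)).card
      = if b - a = e ∨ a - b = e then 1 else 0 := by
  have h3 := H.three
  split_ifs with hcase
  · rw [card_eq_one]
    refine ⟨T1 e a, ?_⟩
    ext B
    simp only [mem_filter, mem_image, mem_univ, true_and, mem_singleton]
    constructor
    · rintro ⟨⟨t, rfl⟩, ha, -⟩
      rw [mem_T1] at ha
      rcases ha with rfl | rfl | rfl
      · rfl
      · rw [T1_add H]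
      · conv_lhs => rw [show t = t - e + e by ring]
        rw [T1_add H]
    · rintro rfl
      refine ⟨⟨a, rfl⟩, ?_, ?_⟩
      · rw [mem_T1]; left; rfl
      · rw [mem_T1]
        rcases hcase with h | h
        · right; left; linear_combination h
        · right; right; linear_combination -h
  · rw [not_or] at hcase
    rw [card_eq_zero, filter_eq_empty_iff]
    intro B hB
    rw [mem_image] at hB
    obtain ⟨t, -, rfl⟩ := hB
    rintro ⟨ha, hb⟩
    rw [mem_T1] at ha hb
    rcases ha with ha | ha | ha <;> rcases hb with hb | hb | hb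
    · exact hab (ha.trans hb.symm)
    · exact hcase.1 (by rw [ha, hb]; ring)
    · exact hcase.2 (by rw [ha, hb]; ring)
    · exact hcase.2 (by rw [ha, hb]; ring)
    · exact hab (ha.trans hb.symm)
    · exact hcase.1 (by rw [ha, hb]; linear_combination -h3)
    · exact hcase.1 (by rw [ha, hb]; ring)
    · exact hcase.2 (by rw [ha, hb]; linear_combination -h3)
    · exact hab (ha.trans hb.symm)

/-- translation as an embedding -/
def translateEmb (s : ZMod v) : Finset (ZMod v) ↪ Finset (ZMod v) :=
  ⟨translate s, fun _ _ h => Finset.map_injective _ h⟩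

omit [NeZero v] in
lemma translateEmb_apply (s : ZMod v) (B : Finset (ZMod v)) : translateEmb s B = translate s B := rfl

/-- shift of the index set -/
def shiftEmb (s : ZMod v) : ZMod v × ZMod v ↪ ZMod v × ZMod v :=
  ⟨fun p => (p.1 + s, p.2), by
    rintro ⟨a, b⟩ ⟨c, d⟩ h
    simp only [Prod.mk.injEq, add_left_inj] at h
    rw [Prod.mk.injEq]; exact h⟩

omit [NeZero v] in
lemma shiftEmb_apply (s t d : ZMod v) : shiftEmb s (t, d) = (t + s, d) := rfl

omit [NeZero v] in
/-- invariance of a multiset under all translations, from the map formulation -/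
lemma count_of_map (Bs : Multiset (Finset (ZMod v)))
    (h : ∀ t : ZMod v, Bs.map (translate t) = Bs) (t : ZMod v) (B : Finset (ZMod v)) :
    Bs.count (translate t B) = Bs.count B := by
  conv_lhs => rw [← h t]
  apply Multiset.count_map_eq_count' (translate t) Bs
  intro C D hCD
  exact Finset.map_injective _ hCD

theorem design_isCyclic (H : Idem v e) : IsCyclicDesign v 3 2 (design e) := by
  constructor
  · intro B hB
    unfold design at hB
    rw [Multiset.mem_add, Multiset.mem_map] at hB
    rcases hB with ⟨⟨t, d⟩, hp, rfl⟩ | hB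
    · have hp' : (t, d) ∈ I2 e := hp
      simp only [I2, mem_filter, mem_univ, true_and] at hp'
      exact card_T2 H t d hp'.1 hp'.2
    · have hB' := Multiset.mem_of_mem_nsmul hB
      rw [Finset.mem_val, mem_image] at hB'
      obtain ⟨t, -, rfl⟩ := hB'
      exact card_T1 H t
  · intro x y hxy
    unfold design
    rw [Multiset.filter_add, Multiset.card_add, Multiset.filter_map, Multiset.card_map,
      Multiset.filter_nsmul, Multiset.card_nsmul]
    have h1 := pair_two H x y hxy
    have h2 := pair_one H x y hxy
    rw [Finset.card_def, Finset.filter_val] at h1 h2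
    have h1' : Multiset.card ((I2 e).val.filter
        ((fun B => x ∈ B ∧ y ∈ B) ∘ fun p => T2 e p.1 p.2))
        = if y - x = e ∨ x - y = e then 0 else 2 := by
      rw [← h1]; rfl
    rw [h1', h2]
    split_ifs <;> rfl
  · apply count_of_map
    intro s
    unfold design
    rw [Multiset.map_add, Multiset.map_nsmul]
    congr 1
    · rw [Multiset.map_map]
      have h1 : (translate s ∘ fun p : ZMod v × ZMod v => T2 e p.1 p.2)
          = (fun p : ZMod v × ZMod v => T2 e p.1 p.2)
            ∘ (fun p : ZMod v × ZMod v => (p.1 + s, p.2)) := by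
        funext p
        exact translate_T2 s p.1 p.2
      rw [h1, ← Multiset.map_map]
      congr 1
      have h2 : (I2 e).map (shiftEmb s) = I2 e := by
        ext ⟨t, d⟩
        rw [mem_map]
        constructor
        · rintro ⟨⟨t', d'⟩, h, h'⟩
          rw [shiftEmb_apply, Prod.mk.injEq] at h'
          obtain ⟨rfl, rfl⟩ := h'
          simp only [I2, mem_filter, mem_univ, true_and] at h ⊢
          exact h
        · intro h
          refine ⟨(t - s, d), ?_, ?_⟩
          · simp only [I2, mem_filter, mem_univ, true_and] at h ⊢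
            exact h
          · rw [shiftEmb_apply, sub_add_cancel]
      exact congrArg Finset.val h2
    · congr 1
      have h2 : (univ.image (fun t => T1 e t)).map (translateEmb s)
          = univ.image (fun t => T1 e t) := by
        ext B
        rw [mem_map]
        constructor
        · rintro ⟨C, hC, rfl⟩
          rw [mem_image] at hC
          obtain ⟨t, -, rfl⟩ := hC
          rw [translateEmb_apply, translate_T1, mem_image]
          exact ⟨t + s, mem_univ _, rfl⟩
        · intro hB
          rw [mem_image] at hB
          obtain ⟨t, -, rfl⟩ := hB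
          refine ⟨T1 e (t - s), mem_image.2 ⟨t - s, mem_univ _, rfl⟩, ?_⟩
          rw [translateEmb_apply, translate_T1, sub_add_cancel]
      exact congrArg Finset.val h2

theorem design_no_reps (H : Idem v e) : ¬ HasDisjointReps (design e) := by
  apply no_reps (k := 3) le_rfl (design e) (design_isCyclic H) (T1 e 0) _ e H.ne
  · rw [translate_T1, T1_add H]
  · unfold design
    rw [Multiset.mem_add]
    right
    rw [Multiset.mem_nsmul]
    refine ⟨by norm_num, ?_⟩
    rw [Finset.mem_val, mem_image]
    exact ⟨0, mem_univ _, rfl⟩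

/-- the idempotent `6 j + 1` modulo `18 j + 3` -/
theorem idem_exists (j : ℕ) :
    Idem (18 * j + 3) (((6 * j + 1 : ℕ) : ZMod (18 * j + 3))) := by
  have hz : (18 * (j : ZMod (18 * j + 3)) + 3) = 0 := by
    have := ZMod.natCast_self (18 * j + 3)
    push_cast at this
    exact this
  constructor
  · push_cast
    linear_combination (2 * (j : ZMod (18 * j + 3))) * hz
  · push_cast
    linear_combination hz
  · intro h
    rw [ZMod.natCast_eq_zero_iff] at h
    have := Nat.le_of_dvd (by omega) h
    omega
  · intro x
    obtain ⟨n, rfl⟩ : ∃ n : ℕ, (n : ZMod (18 * j + 3)) = x := ⟨x.val, ZMod.natCast_zmod_val x⟩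
    have h1 : n = 3 * (n / 3) + n % 3 := (Nat.div_add_mod n 3).symm
    set q := n / 3 with hq
    have h2 : n % 3 = 0 ∨ n % 3 = 1 ∨ n % 3 = 2 := by omega
    rcases h2 with h2 | h2 | h2
    · left
      rw [h1, h2]
      push_cast
      linear_combination (q : ZMod (18 * j + 3)) * hz
    · right; left
      rw [h1, h2]
      push_cast
      linear_combination (q : ZMod (18 * j + 3)) * hz
    · right; right
      rw [h1, h2]
      push_cast
      linear_combination ((q : ZMod (18 * j + 3)) + 1) * hz
  · refine ⟨((9 * j + 2 : ℕ) : ZMod (18 * j + 3)), ?_⟩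
    push_cast
    linear_combination hz

/-- main theorem -/
theorem main (j : ℕ) : ∃ Bs : Multiset (Finset (ZMod (18 * j + 3))),
    IsCyclicDesign (18 * j + 3) 3 2 Bs ∧ ¬ HasDisjointReps Bs :=
  ⟨design _, design_isCyclic (idem_exists j), design_no_reps (idem_exists j)⟩

end Pool.Agent.R117.Cyc
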