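import Mathlib

set_option autoImplicit false

/-! Cyclic Steiner triple systems from difference triples; orbit flips; few isomorphic copies. -/

namespace Pool.Agent.R117.CSTS

open Finset

/-! ### Steiner triple systems and rigidity -/

/-- a Steiner triple system -/
def IsSTS {V : Type} [DecidableEq V] (B : Finset (Finset V)) : Prop :=
  (∀ b ∈ B, b.card = 3) ∧ ∀ x y : V, x ≠ y → ∃! b : Finset V, b ∈ B ∧ x ∈ b ∧ y ∈ b

/-- closed sets (subsystems) -/
def Closed {V : Type} [DecidableEq V] (B : Finset (Finset V)) (S : Finset V) : Prop :=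
  ∀ b ∈ B, ∀ x ∈ b, ∀ y ∈ b, x ≠ y → x ∈ S → y ∈ S → b ⊆ S

section

variable {V : Type} [DecidableEq V] [Fintype V]

omit [Fintype V] in
lemma third (B : Finset (Finset V)) (hB : IsSTS B) (x y : V) (hxy : x ≠ y) :
    ∃ z, ({x, y, z} : Finset V) ∈ B ∧ z ≠ x ∧ z ≠ y := by
  obtain ⟨b, ⟨hb, hx, hy⟩, -⟩ := hB.2 x y hxy
  have h3 := hB.1 b hb
  have h1 : ((b.erase x).erase y).card = 1 := by
    rw [card_erase_of_mem (mem_erase.2 ⟨hxy.symm, hy⟩), card_erase_of_mem hx, h3]
  obtain ⟨z, hz⟩ := card_eq_one.1 h1
  have hz' : z ∈ (b.erase x).erase y := by rw [hz]; exact mem_singleton_self z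
  rw [mem_erase, mem_erase] at hz'
  refine ⟨z, ?_, hz'.2.1, hz'.1⟩
  have h2 : ({x, y, z} : Finset V) = b := by
    apply eq_of_subset_of_card_le
    · intro w hw
      simp only [mem_insert, mem_singleton] at hw
      rcases hw with rfl | rfl | rfl
      · exact hx
      · exact hy
      · exact hz'.2.2
    · rw [h3, card_eq_three.2 ⟨x, y, z, hxy, hz'.2.1.symm, hz'.1.symm, rfl⟩]
  rw [h2]; exact hb

open scoped Classical in
/-- the subsystem generated by a set -/
noncomputable def gen (B : Finset (Finset V)) (G : Finset V) : Finset V :=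
  univ.filter (fun x => ∀ S : Finset V, Closed B S → G ⊆ S → x ∈ S)

lemma mem_gen (B : Finset (Finset V)) (G : Finset V) (x : V) :
    x ∈ gen B G ↔ ∀ S : Finset V, Closed B S → G ⊆ S → x ∈ S := by
  simp [gen]

lemma gen_closed (B : Finset (Finset V)) (G : Finset V) : Closed B (gen B G) := by
  intro b hb x hx y hy hxy hxG hyG z hz
  rw [mem_gen] at *
  intro S hS hGS
  exact hS b hb x hx y hy hxy (hxG S hS hGS) (hyG S hS hGS) hz

lemma subset_gen (B : Finset (Finset V)) (G : Finset V) : G ⊆ gen B G := by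
  intro x hx
  rw [mem_gen]
  intro S _ hGS
  exact hGS hx

lemma gen_subset (B : Finset (Finset V)) (G S : Finset V) (hS : Closed B S) (hG : G ⊆ S) :
    gen B G ⊆ S := by
  intro x hx
  rw [mem_gen] at hx
  exact hx S hS hG

/-- every Steiner triple system has small generating sets -/
lemma exists_gen (B : Finset (Finset V)) (hB : IsSTS B) (g : ℕ) :
    ∃ G : Finset V, G.card ≤ g ∧ (gen B G = univ ∨ 2 ^ g ≤ (gen B G).card + 1) := by
  classical
  induction g with
  | zero => exact ⟨∅, by simp, Or.inr (by simp)⟩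
  | succ g ih =>
    obtain ⟨G, hG, h⟩ := ih
    by_cases hu : gen B G = univ
    · exact ⟨G, hG.trans (Nat.le_succ g), Or.inl hu⟩
    · have h2 := h.resolve_left hu
      obtain ⟨x, hx⟩ : ∃ x, x ∉ gen B G := by
        by_contra hcon
        push Not at hcon
        exact hu (eq_univ_iff_forall.2 hcon)
      refine ⟨insert x G, (card_insert_le x G).trans (Nat.succ_le_succ hG), Or.inr ?_⟩
      set S := gen B (insert x G) with hS
      set S0 := gen B G with hS0
      have hsub : S0 ⊆ S := gen_subset B G S (gen_closed B _)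
        ((subset_insert x G).trans (subset_gen B _))
      have hxS : x ∈ S := subset_gen B _ (mem_insert_self x G)
      have hne : ∀ s ∈ S0, x ≠ s := fun s hs h => hx (h ▸ hs)
      have hz : ∀ s : V, ∃ z, s ∈ S0 → ({x, s, z} : Finset V) ∈ B ∧ z ≠ x ∧ z ≠ s := by
        intro s
        by_cases hs : s ∈ S0
        · obtain ⟨z, hz⟩ := third B hB x s (hne s hs)
          exact ⟨z, fun _ => hz⟩
        · exact ⟨x, fun h => absurd h hs⟩
      choose f hf using hz
      have hfS : ∀ s ∈ S0, f s ∈ S := by
        intro s hs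
        have h3 := (hf s hs).1
        exact gen_closed B _ _ h3 x (by simp) s (by simp) (hne s hs) hxS (hsub hs) (by simp)
      have hfn : ∀ s ∈ S0, f s ∉ S0 := by
        intro s hs hfs
        have h3 := hf s hs
        exact hx (gen_closed B _ _ h3.1 s (by simp) (f s) (by simp) h3.2.2.symm hs hfs (by simp))
      have hinj : Set.InjOn f S0 := by
        intro s hs s' hs' hss
        have h3 := hf s hs
        have h4 := hf s' hs'
        rw [← hss] at h4
        obtain ⟨b, -, hb⟩ := hB.2 x (f s) h3.2.1.symm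
        have e1 := hb {x, s, f s} ⟨h3.1, by simp, by simp⟩
        have e2 := hb {x, s', f s} ⟨h4.1, by simp, by simp⟩
        have h5 : s' ∈ ({x, s, f s} : Finset V) := by
          rw [e1, ← e2]; simp
        simp only [mem_insert, mem_singleton] at h5
        rcases h5 with h5 | h5 | h5
        · exact absurd h5.symm (hne s' hs')
        · exact h5.symm
        · exact absurd h5.symm h4.2.2
      have hsub2 : insert x (S0 ∪ S0.image f) ⊆ S := by
        intro w hw
        rw [mem_insert, mem_union, mem_image] at hw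
        rcases hw with rfl | hw | ⟨s, hs, rfl⟩
        · exact hxS
        · exact hsub hw
        · exact hfS s hs
      have hcard := card_le_card hsub2
      rw [card_insert_of_notMem, card_union_of_disjoint, card_image_of_injOn hinj] at hcard
      · rw [pow_succ]; omega
      · rw [disjoint_left]
        intro w hw hw'
        rw [mem_image] at hw'
        obtain ⟨s, hs, rfl⟩ := hw'
        exact hfn s hs hw
      · rw [mem_union, mem_image]
        rintro (hw | ⟨s, hs, hw⟩)
        · exact hx hw
        · exact (hf s hs).2.1 hw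

/-- automorphisms agreeing on a generating set are equal -/
lemma rigid (B : Finset (Finset V)) (hB : IsSTS B) (G : Finset V) (hG : gen B G = univ)
    (α β : Equiv.Perm V) (hα : ∀ b ∈ B, b.map α.toEmbedding ∈ B)
    (hβ : ∀ b ∈ B, b.map β.toEmbedding ∈ B) (h : ∀ x ∈ G, α x = β x) : α = β := by
  classical
  have hcl : Closed B (univ.filter (fun x => α x = β x)) := by
    intro b hb x hx y hy hxy hxS hyS z hz
    rw [mem_filter] at hxS hyS ⊢
    refine ⟨mem_univ z, ?_⟩
    by_cases hzx : z = x
    · rw [hzx]; exact hxS.2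
    by_cases hzy : z = y
    · rw [hzy]; exact hyS.2
    have hmem : ∀ (γ : Equiv.Perm V) (w : V), w ∈ b → γ w ∈ b.map γ.toEmbedding := by
      intro γ w hw
      exact mem_map.2 ⟨w, hw, rfl⟩
    obtain ⟨b', -, hb'⟩ := hB.2 (α x) (α y) (fun h => hxy (α.injective h))
    have e1 := hb' _ ⟨hα b hb, hmem α x hx, hmem α y hy⟩
    have e2 := hb' _ ⟨hβ b hb, by rw [hxS.2]; exact hmem β x hx, by rw [hyS.2]; exact hmem β y hy⟩
    have h1 : β z ∈ b.map α.toEmbedding := by
      rw [e1, ← e2]; exact hmem β z hz
    have hb3 : b = {x, y, z} := by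
      symm
      apply eq_of_subset_of_card_le
      · intro w hw
        simp only [mem_insert, mem_singleton] at hw
        rcases hw with rfl | rfl | rfl
        · exact hx
        · exact hy
        · exact hz
      · rw [hB.1 b hb, card_eq_three.2 ⟨x, y, z, hxy, Ne.symm hzx, Ne.symm hzy, rfl⟩]
    rw [hb3, mem_map] at h1
    obtain ⟨w, hw, hwz⟩ := h1
    simp only [mem_insert, mem_singleton] at hw
    have hwz' : α w = β z := hwz
    rcases hw with rfl | rfl | rfl
    · rw [hxS.2] at hwz'
      exact absurd (β.injective hwz').symm hzx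
    · rw [hyS.2] at hwz'
      exact absurd (β.injective hwz').symm hzy
    · exact hwz'
  have h1 := gen_subset B G _ hcl (fun x hx => mem_filter.2 ⟨mem_univ x, h x hx⟩)
  rw [hG] at h1
  ext x
  have := h1 (mem_univ x)
  rw [mem_filter] at this
  exact this.2

end

/-! ### Few isomorphic copies -/

section

variable {n : ℕ} [NeZero n]

/-- invariance under `x ↦ x + 1` -/
def Inv (B : Finset (Finset (ZMod n))) : Prop := ∀ b ∈ B, b.image (fun x => x + 1) ∈ B

/-- isomorphism -/
def Iso (B B' : Finset (Finset (ZMod n))) : Prop :=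
  ∃ σ : Equiv.Perm (ZMod n), ∀ b : Finset (ZMod n), b ∈ B ↔ b.map σ.toEmbedding ∈ B'

lemma shift_mem (B : Finset (Finset (ZMod n))) (hB : Inv B) (t : ZMod n) (b : Finset (ZMod n))
    (hb : b ∈ B) : b.image (fun x => x + t) ∈ B := by
  have key : ∀ m : ℕ, b.image (fun x => x + (m : ZMod n)) ∈ B := by
    intro m
    induction m with
    | zero =>
      have : b.image (fun x => x + ((0 : ℕ) : ZMod n)) = b := by simp
      rw [this]; exact hb
    | succ m ih =>
      have h1 := hB _ ih
      rw [image_image] at h1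
      have h2 : ((fun x : ZMod n => x + 1) ∘ fun x => x + (m : ZMod n))
          = fun x => x + ((m + 1 : ℕ) : ZMod n) := by
        funext x
        simp only [Function.comp]
        push_cast
        ring
      rwa [h2] at h1
  have h := key t.val
  rwa [ZMod.natCast_zmod_val] at h

lemma shift_iff (B : Finset (Finset (ZMod n))) (hB : Inv B) (t : ZMod n) (b : Finset (ZMod n)) :
    b.image (fun x => x + t) ∈ B ↔ b ∈ B := by
  constructor
  · intro h
    have h1 := shift_mem B hB (-t) _ h
    rw [image_image] at h1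
    have h2 : ((fun x : ZMod n => x + -t) ∘ fun x => x + t) = id := by
      funext x; simp
    rwa [h2, image_id] at h1
  · exact shift_mem B hB t b

lemma normalise (B B' : Finset (Finset (ZMod n))) (hB' : Inv B') (h : Iso B B') :
    ∃ σ : Equiv.Perm (ZMod n), σ 0 = 0 ∧
      ∀ b : Finset (ZMod n), b ∈ B ↔ b.map σ.toEmbedding ∈ B' := by
  obtain ⟨σ, hσ⟩ := h
  refine ⟨σ.trans (Equiv.addRight (-σ 0)), by simp, fun b => ?_⟩
  rw [hσ b, ← shift_iff B' hB' (-σ 0)]
  have : (b.map σ.toEmbedding).image (fun x => x + -σ 0)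
      = b.map (σ.trans (Equiv.addRight (-σ 0))).toEmbedding := by
    rw [map_eq_image, map_eq_image, image_image]
    rfl
  rw [this]

/-- the pulled back translation -/
def pull (σ : Equiv.Perm (ZMod n)) : Equiv.Perm (ZMod n) :=
  (σ.trans (Equiv.addRight 1)).trans σ.symm

omit [NeZero n] in
lemma pull_apply (σ : Equiv.Perm (ZMod n)) (x : ZMod n) : pull σ x = σ.symm (σ x + 1) := rfl

omit [NeZero n] in
lemma pull_aut (B B' : Finset (Finset (ZMod n))) (hB' : Inv B') (σ : Equiv.Perm (ZMod n))
    (hσ : ∀ b : Finset (ZMod n), b ∈ B ↔ b.map σ.toEmbedding ∈ B') (b : Finset (ZMod n))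
    (hb : b ∈ B) : b.map (pull σ).toEmbedding ∈ B := by
  rw [hσ]
  have h1 := hB' _ ((hσ b).1 hb)
  have h2 : (b.map σ.toEmbedding).image (fun x => x + 1)
      = (b.map (pull σ).toEmbedding).map σ.toEmbedding := by
    rw [map_eq_image, map_eq_image, map_eq_image, image_image, image_image]
    congr 1
    funext x
    change σ x + 1 = σ (σ.symm (σ x + 1))
    rw [Equiv.apply_symm_apply]
  rwa [h2] at h1

lemma pull_inj (σ τ : Equiv.Perm (ZMod n)) (h1 : σ 0 = 0) (h2 : τ 0 = 0) (h : pull σ = pull τ) :
    σ = τ := by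
  have key : ∀ m : ℕ, σ.symm (m : ZMod n) = τ.symm (m : ZMod n) := by
    intro m
    induction m with
    | zero =>
      have e1 : σ.symm 0 = 0 := by rw [Equiv.symm_apply_eq, h1]
      have e2 : τ.symm 0 = 0 := by rw [Equiv.symm_apply_eq, h2]
      rw [Nat.cast_zero, e1, e2]
    | succ m ih =>
      have e1 : σ.symm ((m + 1 : ℕ) : ZMod n) = pull σ (σ.symm (m : ZMod n)) := by
        rw [pull_apply, Equiv.apply_symm_apply]; push_cast; rfl
      have e2 : τ.symm ((m + 1 : ℕ) : ZMod n) = pull τ (τ.symm (m : ZMod n)) := by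
        rw [pull_apply, Equiv.apply_symm_apply]; push_cast; rfl
      rw [e1, e2, ih, h]
  have h3 : σ.symm = τ.symm := by
    ext x
    have := key x.val
    rwa [ZMod.natCast_zmod_val] at this
  have h4 := congrArg Equiv.symm h3
  simpa using h4

/-- the number of invariant isomorphic copies is small -/
lemma copies_le (B : Finset (Finset (ZMod n))) (hB : IsSTS B) (G : Finset (ZMod n))
    (hG : gen B G = univ) (F : Finset (Finset (Finset (ZMod n))))
    (hF : ∀ B' ∈ F, Inv B' ∧ Iso B B') : F.card ≤ n ^ G.card := by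
  classical
  have h1 : ∀ B' : {x // x ∈ F}, ∃ σ : Equiv.Perm (ZMod n), σ 0 = 0 ∧
      ∀ b : Finset (ZMod n), b ∈ B ↔ b.map σ.toEmbedding ∈ B'.1 :=
    fun B' => normalise B B'.1 (hF _ B'.2).1 (hF _ B'.2).2
  choose σ hσ0 hσ using h1
  have h2 : Function.Injective (fun (B' : {x // x ∈ F}) (x : {x // x ∈ G}) => pull (σ B') x.1) := by
    intro B1 B2 h12
    have h3 : pull (σ B1) = pull (σ B2) := by
      apply rigid B hB G hG
      · intro b hb; exact pull_aut B B1.1 (hF _ B1.2).1 (σ B1) (hσ B1) b hb
      · intro b hb; exact pull_aut B B2.1 (hF _ B2.2).1 (σ B2) (hσ B2) b hb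
      · intro x hx
        exact congrFun h12 ⟨x, hx⟩
    have h4 := pull_inj _ _ (hσ0 B1) (hσ0 B2) h3
    apply Subtype.ext
    ext b
    have e : (b.map (σ B1).symm.toEmbedding).map (σ B1).toEmbedding = b := by
      ext x; simp
    have e1 := hσ B1 (b.map (σ B1).symm.toEmbedding)
    have e2 := hσ B2 (b.map (σ B1).symm.toEmbedding)
    rw [← h4] at e2
    rw [e] at e1 e2
    rw [← e1, ← e2]
  have h5 := Fintype.card_le_of_injective _ h2
  rw [Fintype.card_coe, Fintype.card_fun, Fintype.card_coe, ZMod.card] at h5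
  exact h5

end

/-! ### Difference families and orbit flips -/

section

variable {n k : ℕ} [NeZero n]

/-- A perfect difference family in `ZMod n`: `k` difference triples `(a j, b j, a j + b j)`, and
`e` with `3 e = 0` (`e = 0` if there is no short orbit). -/
structure DF (n k : ℕ) (a b : Fin k → ZMod n) (e : ZMod n) : Prop where
  three : e + e + e = 0
  card : 6 * k + ({0, e, -e} : Finset (ZMod n)).card = n
  surj : ∀ d : ZMod n, d ∉ ({0, e, -e} : Finset (ZMod n)) →
    ∃ j, d = a j ∨ d = -a j ∨ d = b j ∨ d = -b j ∨ d = a j + b j ∨ d = -(a j + b j)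

/-- base blocks -/
def base (a b : Fin k → ZMod n) (ε : Fin k → Bool) (j : Fin k) (u : Fin 3) : ZMod n :=
  if u = 0 then 0 else if u = 1 then (if ε j then a j else b j) else a j + b j

/-- index set of the differences -/
def P (k : ℕ) : Finset (Fin k × Fin 3 × Fin 3) := univ.filter (fun p => p.2.1 ≠ p.2.2)

/-- differences -/
def psi (a b : Fin k → ZMod n) (ε : Fin k → Bool) (p : Fin k × Fin 3 × Fin 3) : ZMod n :=
  base a b ε p.1 p.2.2 - base a b ε p.1 p.2.1

lemma card_P : (P k).card = 6 * k := by
  have h1 : P k = (univ : Finset (Fin k)) ×ˢ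
      ((univ : Finset (Fin 3 × Fin 3)).filter (fun q => q.1 ≠ q.2)) := by
    ext ⟨j, u, w⟩
    simp [P]
  rw [h1, card_product, card_univ, Fintype.card_fin]
  have h2 : ((univ : Finset (Fin 3 × Fin 3)).filter (fun q => q.1 ≠ q.2)).card = 6 := by decide
  rw [h2, mul_comm]

omit [NeZero n] in
lemma psi_surj {a b : Fin k → ZMod n} {e : ZMod n} (h : DF n k a b e) (ε : Fin k → Bool)
    (d : ZMod n) (hd : d ∉ ({0, e, -e} : Finset (ZMod n))) : ∃ p ∈ P k, psi a b ε p = d := by
  obtain ⟨j, hj⟩ := h.surj d hd
  have mk : ∀ u w : Fin 3, u ≠ w → psi a b ε (j, u, w) = d → ∃ p ∈ P k, psi a b ε p = d := by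
    intro u w huw hp
    exact ⟨(j, u, w), by simp [P, huw], hp⟩
  cases hε : ε j with
  | true =>
    rcases hj with rfl | rfl | rfl | rfl | rfl | rfl
    · exact mk 0 1 (by decide) (by simp [psi, base, hε])
    · exact mk 1 0 (by decide) (by simp [psi, base, hε])
    · exact mk 1 2 (by decide) (by simp [psi, base, hε])
    · exact mk 2 1 (by decide) (by simp [psi, base, hε])
    · exact mk 0 2 (by decide) (by simp [psi, base])
    · exact mk 2 0 (by decide) (by simp [psi, base])
  | false =>
    rcases hj with rfl | rfl | rfl | rfl | rfl | rfl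
    · exact mk 1 2 (by decide) (by simp [psi, base, hε])
    · exact mk 2 1 (by decide) (by simp [psi, base, hε])
    · exact mk 0 1 (by decide) (by simp [psi, base, hε])
    · exact mk 1 0 (by decide) (by simp [psi, base, hε])
    · exact mk 0 2 (by decide) (by simp [psi, base])
    · exact mk 2 0 (by decide) (by simp [psi, base])

lemma psi_image {a b : Fin k → ZMod n} {e : ZMod n} (h : DF n k a b e) (ε : Fin k → Bool) :
    (univ \ ({0, e, -e} : Finset (ZMod n))) = (P k).image (psi a b ε) := by
  apply eq_of_subset_of_card_le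
  · intro d hd
    rw [mem_sdiff] at hd
    obtain ⟨p, hp, hpd⟩ := psi_surj h ε d hd.2
    exact mem_image.2 ⟨p, hp, hpd⟩
  · refine card_image_le.trans ?_
    rw [card_P, card_sdiff_of_subset (subset_univ _), card_univ, ZMod.card]
    have := h.card
    omega

lemma psi_inj {a b : Fin k → ZMod n} {e : ZMod n} (h : DF n k a b e) (ε : Fin k → Bool) :
    Set.InjOn (psi a b ε) (P k) := by
  rw [← card_image_iff, ← psi_image h ε, card_P, card_sdiff_of_subset (subset_univ _), card_univ,
    ZMod.card]
  have := h.card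
  omega

lemma psi_not {a b : Fin k → ZMod n} {e : ZMod n} (h : DF n k a b e) (ε : Fin k → Bool)
    (j : Fin k) (u w : Fin 3) (huw : u ≠ w) :
    psi a b ε (j, u, w) ∉ ({0, e, -e} : Finset (ZMod n)) := by
  have h1 : psi a b ε (j, u, w) ∈ (P k).image (psi a b ε) :=
    mem_image.2 ⟨(j, u, w), by simp [P, huw], rfl⟩
  rw [← psi_image h ε, mem_sdiff] at h1
  exact h1.2

lemma base_inj {a b : Fin k → ZMod n} {e : ZMod n} (h : DF n k a b e) (ε : Fin k → Bool)
    (j : Fin k) : Function.Injective (base a b ε j) := by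
  intro u w huw
  by_contra hne
  apply psi_not h ε j u w hne
  have : psi a b ε (j, u, w) = 0 := by
    unfold psi
    simp only
    rw [huw, sub_self]
  rw [this]; simp

/-- long blocks -/
def lb (a b : Fin k → ZMod n) (ε : Fin k → Bool) (p : Fin k × ZMod n) : Finset (ZMod n) :=
  univ.image (fun u : Fin 3 => base a b ε p.1 u + p.2)

/-- short blocks -/
def sb (e t : ZMod n) : Finset (ZMod n) := {t, t + e, t - e}

/-- the system of triples -/
def sys (a b : Fin k → ZMod n) (e : ZMod n) (ε : Fin k → Bool) : Finset (Finset (ZMod n)) :=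
  univ.image (lb a b ε) ∪ (if e = 0 then ∅ else univ.image (sb e))

lemma mem_sys (a b : Fin k → ZMod n) (e : ZMod n) (ε : Fin k → Bool) (c : Finset (ZMod n)) :
    c ∈ sys a b e ε ↔ (∃ j t, lb a b ε (j, t) = c) ∨ (e ≠ 0 ∧ ∃ t, sb e t = c) := by
  unfold sys
  rw [mem_union, mem_image]
  by_cases he : e = 0
  · rw [if_pos he]
    simp [he]
  · rw [if_neg he, mem_image]
    simp [he]

omit [NeZero n] in
lemma mem_lb (a b : Fin k → ZMod n) (ε : Fin k → Bool) (j : Fin k) (t x : ZMod n) :
    x ∈ lb a b ε (j, t) ↔ ∃ u, base a b ε j u + t = x := by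
  simp [lb]

omit [NeZero n] in
lemma mem_sb (e t x : ZMod n) : x ∈ sb e t ↔ x = t ∨ x = t + e ∨ x = t - e := by
  simp [sb]

omit [NeZero n] in
lemma sb_add {e : ZMod n} (h3 : e + e + e = 0) (t : ZMod n) : sb e (t + e) = sb e t := by
  ext x
  rw [mem_sb, mem_sb]
  constructor
  · rintro (h | h | h)
    · exact Or.inr (Or.inl h)
    · exact Or.inr (Or.inr (by linear_combination h + h3))
    · exact Or.inl (by linear_combination h)
  · rintro (h | h | h)
    · exact Or.inr (Or.inr (by linear_combination h))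
    · exact Or.inl h
    · exact Or.inr (Or.inl (by linear_combination h - h3))

lemma sb_eq {e : ZMod n} (h3 : e + e + e = 0) (t x : ZMod n) (hx : x ∈ sb e t) :
    sb e t = sb e x := by
  rw [mem_sb] at hx
  rcases hx with rfl | rfl | rfl
  · rfl
  · rw [sb_add h3]
  · conv_lhs => rw [show t = t - e + e by ring]
    rw [sb_add h3]

omit [NeZero n] in
lemma sb_diff {e : ZMod n} (h3 : e + e + e = 0) (t x y : ZMod n) (hxy : x ≠ y)
    (hx : x ∈ sb e t) (hy : y ∈ sb e t) : y - x = e ∨ y - x = -e := by
  rw [mem_sb] at hx hy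
  rcases hx with hx | hx | hx <;> rcases hy with hy | hy | hy
  · exact absurd (hx.trans hy.symm) hxy
  · left; rw [hx, hy]; ring
  · right; rw [hx, hy]; ring
  · right; rw [hx, hy]; ring
  · exact absurd (hx.trans hy.symm) hxy
  · left; rw [hx, hy]; linear_combination -h3
  · left; rw [hx, hy]; ring
  · right; rw [hx, hy]; linear_combination h3
  · exact absurd (hx.trans hy.symm) hxy

theorem sys_sts {a b : Fin k → ZMod n} {e : ZMod n} (h : DF n k a b e) (ε : Fin k → Bool) :
    IsSTS (sys a b e ε) := by
  have h3 := h.three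
  constructor
  · intro c hc
    rw [mem_sys] at hc
    rcases hc with ⟨j, t, rfl⟩ | ⟨he, t, rfl⟩
    · unfold lb
      rw [card_image_of_injective, card_univ, Fintype.card_fin]
      intro u w huw
      exact base_inj h ε j (add_right_cancel huw)
    · unfold sb
      rw [card_eq_three]
      refine ⟨t, t + e, t - e, ?_, ?_, ?_, rfl⟩
      · intro h1; exact he (by linear_combination -h1)
      · intro h1; exact he (by linear_combination h1)
      · intro h1; exact he (by linear_combination h3 - h1)
  · intro x y hxy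
    by_cases hd : y - x ∈ ({0, e, -e} : Finset (ZMod n))
    · have hd' : y - x = e ∨ y - x = -e := by
        simp only [mem_insert, mem_singleton] at hd
        rcases hd with hd | hd | hd
        · exact absurd (sub_eq_zero.1 hd).symm hxy
        · exact Or.inl hd
        · exact Or.inr hd
      have he : e ≠ 0 := by
        rintro rfl
        rw [neg_zero, or_self] at hd'
        exact hxy (sub_eq_zero.1 hd').symm
      refine ⟨sb e x, ⟨?_, ?_, ?_⟩, ?_⟩
      · rw [mem_sys]; exact Or.inr ⟨he, x, rfl⟩
      · rw [mem_sb]; left; rfl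
      · rw [mem_sb]
        rcases hd' with hd' | hd'
        · right; left; linear_combination hd'
        · right; right; linear_combination hd'
      · rintro c ⟨hc, hx, hy⟩
        rw [mem_sys] at hc
        rcases hc with ⟨j, t, rfl⟩ | ⟨-, t, rfl⟩
        · exfalso
          rw [mem_lb] at hx hy
          obtain ⟨u, hu⟩ := hx
          obtain ⟨w, hw⟩ := hy
          have huw : u ≠ w := by
            rintro rfl
            exact hxy (hu.symm.trans hw)
          apply psi_not h ε j u w huw
          have : psi a b ε (j, u, w) = y - x := by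
            unfold psi; simp only
            rw [← hu, ← hw]; ring
          rw [this]; exact hd
        · exact sb_eq h3 t x hx
    · obtain ⟨⟨j, u, w⟩, hp, hpd⟩ := psi_surj h ε _ hd
      have huw : u ≠ w := by simpa [P] using hp
      have hpd' : base a b ε j w - base a b ε j u = y - x := hpd
      refine ⟨lb a b ε (j, x - base a b ε j u), ⟨?_, ?_, ?_⟩, ?_⟩
      · rw [mem_sys]; exact Or.inl ⟨j, _, rfl⟩
      · rw [mem_lb]; exact ⟨u, by ring⟩
      · rw [mem_lb]; exact ⟨w, by linear_combination hpd'⟩
      · rintro c ⟨hc, hx, hy⟩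
        rw [mem_sys] at hc
        rcases hc with ⟨j', t, rfl⟩ | ⟨-, t, rfl⟩
        · rw [mem_lb] at hx hy
          obtain ⟨u', hu'⟩ := hx
          obtain ⟨w', hw'⟩ := hy
          have huw' : u' ≠ w' := by
            rintro rfl
            exact hxy (hu'.symm.trans hw')
          have h5 : psi a b ε (j', u', w') = psi a b ε (j, u, w) := by
            rw [hpd]
            unfold psi; simp only
            rw [← hu', ← hw']; ring
          have h6 := psi_inj h ε (by simp [P, huw'] : (j', u', w') ∈ (P k : Set _))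
            (by simp [P, huw] : (j, u, w) ∈ (P k : Set _)) h5
          rw [Prod.mk.injEq, Prod.mk.injEq] at h6
          obtain ⟨rfl, rfl, rfl⟩ := h6
          rw [← hu', add_sub_cancel_left]
        · exfalso
          apply hd
          rcases sb_diff h3 t x y hxy hx hy with h5 | h5
          · rw [h5]; simp
          · rw [h5]; simp

theorem sys_inv (a b : Fin k → ZMod n) (e : ZMod n) (ε : Fin k → Bool) : Inv (sys a b e ε) := by
  intro c hc
  rw [mem_sys] at hc ⊢
  rcases hc with ⟨j, t, rfl⟩ | ⟨he, t, rfl⟩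
  · left
    refine ⟨j, t + 1, ?_⟩
    unfold lb
    rw [image_image]
    congr 1
    funext u
    simp only [Function.comp]
    ring
  · right
    refine ⟨he, t + 1, ?_⟩
    ext x
    rw [mem_sb, mem_image]
    constructor
    · rintro (hx | hx | hx)
      · exact ⟨t, by rw [mem_sb]; left; rfl, hx.symm⟩
      · exact ⟨t + e, by rw [mem_sb]; right; left; rfl, by rw [hx]; ring⟩
      · exact ⟨t - e, by rw [mem_sb]; right; right; rfl, by rw [hx]; ring⟩
    · rintro ⟨y, hy, rfl⟩
      rw [mem_sb] at hy
      rcases hy with rfl | rfl | rfl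
      · left; rfl
      · right; left; ring
      · right; right; ring

theorem sys_inj {a b : Fin k → ZMod n} {e : ZMod n} (h : DF n k a b e) :
    Function.Injective (sys a b e) := by
  intro ε ε' hee
  funext j
  by_contra hne
  have hS := sys_sts h ε
  -- the block through `0` and `a j + b j`
  have hc0 : (0 : ZMod n) ≠ a j + b j := by
    intro h0
    have := base_inj h ε j (a₁ := 0) (a₂ := 2) (by simpa [base] using h0)
    exact absurd this (by decide)
  obtain ⟨c, -, hc⟩ := hS.2 0 (a j + b j) hc0
  have m0 : ∀ δ : Fin k → Bool, (0 : ZMod n) ∈ lb a b δ (j, 0) := by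
    intro δ; rw [mem_lb]; exact ⟨0, by simp [base]⟩
  have m2 : ∀ δ : Fin k → Bool, a j + b j ∈ lb a b δ (j, 0) := by
    intro δ; rw [mem_lb]; exact ⟨2, by simp [base]⟩
  have e1 := hc (lb a b ε (j, 0)) ⟨by rw [mem_sys]; exact Or.inl ⟨j, 0, rfl⟩, m0 ε, m2 ε⟩
  have e2 := hc (lb a b ε' (j, 0))
    ⟨by rw [hee, mem_sys]; exact Or.inl ⟨j, 0, rfl⟩, m0 ε', m2 ε'⟩
  have e3 : lb a b ε (j, 0) = lb a b ε' (j, 0) := e1.trans e2.symm
  have m1 : base a b ε j 1 ∈ lb a b ε' (j, 0) := by
    rw [← e3, mem_lb]; exact ⟨1, by simp⟩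
  rw [mem_lb] at m1
  obtain ⟨w, hw⟩ := m1
  rw [add_zero] at hw
  have hw1 : w = 1 := by
    by_contra hw1
    have hw2 : base a b ε' j w = base a b ε j w := by
      have key : ∀ w : Fin 3, w ≠ 1 → w = 0 ∨ w = 2 := by decide
      rcases key w hw1 with rfl | rfl <;> simp [base]
    rw [hw2] at hw
    exact hw1 (base_inj h ε j hw)
  rw [hw1] at hw
  have hab : a j = b j := by
    cases h1 : ε j <;> cases h2 : ε' j
    · rw [h1, h2] at hne; exact absurd rfl hne
    · simpa [base, h1, h2] using hw
    · simpa [base, h1, h2] using hw.symm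
    · rw [h1, h2] at hne; exact absurd rfl hne
  -- `psi (0, 1) = psi (1, 2)`
  have h5 : psi a b ε (j, 0, 1) = psi a b ε (j, 1, 2) := by
    simp [psi, base, hab]
  have p1 : (j, (0 : Fin 3), (1 : Fin 3)) ∈ P k :=
    mem_filter.2 ⟨mem_univ _, (by decide : (0 : Fin 3) ≠ 1)⟩
  have p2 : (j, (1 : Fin 3), (2 : Fin 3)) ∈ P k :=
    mem_filter.2 ⟨mem_univ _, (by decide : (1 : Fin 3) ≠ 2)⟩
  have h6 := psi_inj h ε (mem_coe.2 p1) (mem_coe.2 p2) h5
  rw [Prod.mk.injEq, Prod.mk.injEq] at h6
  exact absurd h6.2.1 (by decide)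

end

end Pool.Agent.R117.CSTS
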