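import Pool.Agent.R117.Pelt
import Pool.Agent.R117.CycSTS

set_option autoImplicit false

namespace Pool.Agent.R117.CSTS

open Finset

theorem df_exists (n : ℕ) [NeZero n] (hn : 81 ≤ n) (h6 : n % 6 = 1 ∨ n % 6 = 3) :
    ∃ (a b : Fin (n / 6) → ZMod n) (e : ZMod n), DF n (n / 6) a b e := by
  obtain ⟨a, b, hg⟩ := exists_good n hn h6
  set e : ZMod n := if n % 6 = 3 then ((n / 3 : ℕ) : ZMod n) else 0 with he
  refine ⟨fun j => (a j : ZMod n), fun j => (b j : ZMod n), e, ?_, ?_, ?_⟩
  · rw [he]
    split_ifs with h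
    · have : ((3 * (n / 3) : ℕ) : ZMod n) = 0 := by
        rw [show 3 * (n / 3) = n by omega, ZMod.natCast_self]
      push_cast at this
      linear_combination this
    · ring
  · by_cases h : n % 6 = 3
    · rw [if_pos h] at he
      have e0 : e ≠ 0 := by
        rw [he, Ne, ZMod.natCast_eq_zero_iff]
        intro hd
        have := Nat.le_of_dvd (by omega) hd
        omega
      have e1 : e ≠ -e := by
        intro h1
        have h2 : ((2 * (n / 3) : ℕ) : ZMod n) = 0 := by
          push_cast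
          rw [← he]
          linear_combination h1
        rw [ZMod.natCast_eq_zero_iff] at h2
        have := Nat.le_of_dvd (by omega) h2
        omega
      have h3 : ({0, e, -e} : Finset (ZMod n)).card = 3 := by
        rw [card_eq_three]
        exact ⟨0, e, -e, e0.symm, (neg_ne_zero.2 e0).symm, e1, rfl⟩
      rw [h3]; omega
    · rw [if_neg h] at he
      rw [he]
      simp only [neg_zero, pair_eq_singleton, card_singleton, insert_eq_of_mem, mem_singleton]
      omega
  · intro d hd
    simp only [mem_insert, mem_singleton, not_or] at hd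
    obtain ⟨hd0, hde, hdn⟩ := hd
    have hv : (d.val : ZMod n) = d := ZMod.natCast_zmod_val d
    have hlt : d.val < n := ZMod.val_lt d
    have hpos : 1 ≤ d.val := by
      rw [Nat.one_le_iff_ne_zero]
      intro h0
      rw [h0, Nat.cast_zero] at hv
      exact hd0 hv.symm
    have key : ∀ D : ℕ, 1 ≤ D → 2 * D < n → 3 * D ≠ n → ∃ j : Fin (n / 6),
        ((D : ZMod n) = (a j : ZMod n) ∨ (D : ZMod n) = (b j : ZMod n) ∨
          (D : ZMod n) = (a j : ZMod n) + (b j : ZMod n) ∨
          (D : ZMod n) = -((a j : ZMod n) + (b j : ZMod n))) := by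
      intro D h1 h2 h3
      obtain ⟨j, hj, h⟩ := hg D h1 h2 h3
      refine ⟨⟨j, hj⟩, ?_⟩
      rcases h with h | h | h | h
      · left; rw [h]
      · right; left; rw [h]
      · right; right; left; rw [h]; push_cast; rfl
      · right; right; right
        have h5 : ((D + (a j + b j) : ℕ) : ZMod n) = 0 := by rw [h, ZMod.natCast_self]
        push_cast at h5
        linear_combination h5
    by_cases hs : 2 * d.val < n
    · have h3 : 3 * d.val ≠ n := by
        intro h3
        have h6' : n % 6 = 3 := by omega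
        rw [if_pos h6'] at he
        apply hde
        rw [he, ← hv]
        congr 1
        omega
      obtain ⟨j, hj⟩ := key d.val hpos hs h3
      rw [hv] at hj
      refine ⟨j, ?_⟩
      tauto
    · have hD : ((n - d.val : ℕ) : ZMod n) = -d := by
        rw [Nat.cast_sub hlt.le, ZMod.natCast_self, hv, zero_sub]
      have h3 : 3 * (n - d.val) ≠ n := by
        intro h3
        have h6' : n % 6 = 3 := by omega
        rw [if_pos h6'] at he
        apply hdn
        rw [he]
        have h7 : ((n / 3 : ℕ) : ZMod n) = ((n - d.val : ℕ) : ZMod n) := by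
          congr 1; omega
        rw [h7, hD, neg_neg]
      obtain ⟨j, hj⟩ := key (n - d.val) (by omega) (by omega) h3
      rw [hD] at hj
      refine ⟨j, ?_⟩
      rcases hj with hj | hj | hj | hj
      · right; left; rw [← hj, neg_neg]
      · right; right; right; left; rw [← hj, neg_neg]
      · right; right; right; right; right; rw [← hj, neg_neg]
      · right; right; right; right; left; exact neg_injective hj

/-- greedy choice of pairwise inequivalent elements -/
lemma greedy {X : Type} [Fintype X] [DecidableEq X] (R : X → X → Prop) (hrefl : ∀ x, R x x)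
    (hsymm : ∀ x y, R x y → R y x) (c : ℕ)
    (hc : ∀ (x : X) (F : Finset X), (∀ y ∈ F, R x y) → F.card ≤ c) (M : ℕ)
    (hM : M * c < Fintype.card X) :
    ∃ F : Finset X, F.card = M ∧ ∀ x ∈ F, ∀ y ∈ F, x ≠ y → ¬ R x y := by
  classical
  induction M with
  | zero => exact ⟨∅, rfl, by simp⟩
  | succ M ih =>
    obtain ⟨F, hF, hR⟩ := ih (lt_of_le_of_lt (Nat.mul_le_mul_right c (Nat.le_succ M)) hM)
    obtain ⟨x, hx⟩ : ∃ x, ∀ y ∈ F, ¬ R y x := by
      by_contra hcon
      push Not at hcon
      have h1 : (univ : Finset X) ⊆ F.biUnion (fun y => univ.filter (fun x => R y x)) := by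
        intro x _
        obtain ⟨y, hy, hyx⟩ := hcon x
        exact mem_biUnion.2 ⟨y, hy, mem_filter.2 ⟨mem_univ x, hyx⟩⟩
      have h2 := (card_le_card h1).trans card_biUnion_le
      have h3 : ∑ y ∈ F, (univ.filter (fun x => R y x)).card ≤ ∑ _y ∈ F, c :=
        sum_le_sum fun y _ => hc y _ (fun z hz => (mem_filter.1 hz).2)
      rw [sum_const, smul_eq_mul, hF] at h3
      rw [card_univ] at h2
      have h4 : M * c ≤ (M + 1) * c := Nat.mul_le_mul_right c (Nat.le_succ M)
      omega
    have hxF : x ∉ F := fun h => hx x h (hrefl x)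
    refine ⟨insert x F, by rw [card_insert_of_notMem hxF, hF], ?_⟩
    intro y hy z hz hyz
    rw [mem_insert] at hy hz
    rcases hy with rfl | hy <;> rcases hz with rfl | hz
    · exact absurd rfl hyz
    · exact fun h => hx z hz (hsymm _ _ h)
    · exact hx y hy
    · exact hR y hy z hz hyz

lemma iso_refl {n : ℕ} (B : Finset (Finset (ZMod n))) : Iso B B :=
  ⟨Equiv.refl _, fun b => by
    have : b.map (Equiv.refl (ZMod n)).toEmbedding = b := by ext x; simp
    rw [this]⟩

lemma iso_symm {n : ℕ} (B B' : Finset (Finset (ZMod n))) (h : Iso B B') : Iso B' B := by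
  obtain ⟨σ, hσ⟩ := h
  refine ⟨σ.symm, fun b => ?_⟩
  rw [hσ (b.map σ.symm.toEmbedding)]
  have : (b.map σ.symm.toEmbedding).map σ.toEmbedding = b := by ext x; simp
  rw [this]

/-- numerical estimate -/
lemma est (L : ℕ) (hL : 16 ≤ L) : 12 * (L + 1) ^ 2 ≤ 2 ^ L := by
  induction L, hL using Nat.le_induction with
  | base => norm_num
  | succ L hL ih =>
    rw [pow_succ 2 L]
    nlinarith

lemma est2 (M L : ℕ) (hL : M + 16 ≤ L) : 6 * (M + (L + 1) ^ 2) ≤ 2 ^ L := by
  have h1 := est L (by omega)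
  have h2 : 12 * M ≤ 2 ^ L := by
    calc 12 * M ≤ 16 * 2 ^ M := by
          have := (Nat.lt_two_pow_self (n := M)).le
          omega
      _ = 2 ^ (M + 4) := by rw [pow_add]; ring
      _ ≤ 2 ^ L := Nat.pow_le_pow_right (by norm_num) (by omega)
  omega

theorem main (M : ℕ) : ∃ N : ℕ, ∀ n : ℕ, N ≤ n → (n % 6 = 1 ∨ n % 6 = 3) →
    ∃ B : Fin M → Finset (Finset (ZMod n)),
      (∀ i, IsSTS (B i) ∧ Inv (B i)) ∧ (∀ i j, i ≠ j → ¬ Iso (B i) (B j)) := by
  refine ⟨2 ^ (M + 16), fun n hn h6 => ?_⟩
  have hn81 : 81 ≤ n := by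
    have : 2 ^ 16 ≤ 2 ^ (M + 16) := Nat.pow_le_pow_right (by norm_num) (by omega)
    have h2 : (81 : ℕ) ≤ 2 ^ 16 := by norm_num
    omega
  have hne : NeZero n := ⟨by omega⟩
  obtain ⟨k, hk, a, b, e, hDF⟩ : ∃ k, k = n / 6 ∧
      ∃ (a b : Fin k → ZMod n) (e : ZMod n), DF n k a b e := ⟨n / 6, rfl, df_exists n hn81 h6⟩
  obtain ⟨g, hg⟩ : ∃ g, g = Nat.log 2 n + 1 := ⟨_, rfl⟩
  have hng : n < 2 ^ g := by rw [hg]; exact Nat.lt_pow_succ_log_self (by norm_num) n
  have hL : M + 16 ≤ Nat.log 2 n := by
    rw [Nat.le_log_iff_pow_le (by norm_num) (by omega)]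
    exact hn
  have hLn : 2 ^ Nat.log 2 n ≤ n := Nat.pow_log_le_self 2 (by omega)
  have hest := est2 M (Nat.log 2 n) hL
  rw [← hg] at hest
  have hkM : M + g ^ 2 ≤ k := by
    rw [hk, Nat.le_div_iff_mul_le (by norm_num)]
    omega
  -- the class sizes
  have hcls : ∀ (ε : Fin k → Bool) (F : Finset (Fin k → Bool)),
      (∀ δ ∈ F, Iso (sys a b e ε) (sys a b e δ)) → F.card ≤ n ^ g := by
    intro ε F hF
    obtain ⟨G, hG, hGu⟩ := exists_gen (sys a b e ε) (sys_sts hDF ε) g
    have hGu' : gen (sys a b e ε) G = univ := by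
      rcases hGu with h | h
      · exact h
      · apply eq_univ_of_card
        apply le_antisymm (card_le_univ _)
        rw [ZMod.card]
        omega
    have h1 := copies_le (sys a b e ε) (sys_sts hDF ε) G hGu' (F.image (sys a b e)) (by
      intro B' hB'
      rw [mem_image] at hB'
      obtain ⟨δ, hδ, rfl⟩ := hB'
      exact ⟨sys_inv a b e δ, hF δ hδ⟩)
    rw [card_image_of_injective F (sys_inj hDF)] at h1
    exact h1.trans (Nat.pow_le_pow_right (by omega) hG)
  have hcount : M * n ^ g < Fintype.card (Fin k → Bool) := by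
    rw [Fintype.card_fun, Fintype.card_bool, Fintype.card_fin]
    have h1 : n ^ g ≤ 2 ^ (g ^ 2) := by
      calc n ^ g ≤ (2 ^ g) ^ g := Nat.pow_le_pow_left hng.le g
        _ = 2 ^ (g ^ 2) := by rw [← pow_mul, sq]
    have h2 : M < 2 ^ M := Nat.lt_two_pow_self
    calc M * n ^ g < 2 ^ M * 2 ^ (g ^ 2) := by
          apply Nat.mul_lt_mul_of_lt_of_le h2 h1
          positivity
      _ = 2 ^ (M + g ^ 2) := by rw [pow_add]
      _ ≤ 2 ^ k := Nat.pow_le_pow_right (by norm_num) hkM
  obtain ⟨F, hF, hR⟩ := greedy (fun ε δ : Fin k → Bool => Iso (sys a b e ε) (sys a b e δ))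
    (fun ε => iso_refl _) (fun ε δ h => iso_symm _ _ h) (n ^ g) hcls M hcount
  have eq := F.equivFinOfCardEq hF
  refine ⟨fun i => sys a b e (eq.symm i).1, fun i => ⟨sys_sts hDF _, sys_inv a b e _⟩, ?_⟩
  intro i j hij
  apply hR _ (eq.symm i).2 _ (eq.symm j).2
  intro h
  exact hij (eq.symm.injective (Subtype.ext h))

end Pool.Agent.R117.CSTS
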