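import Pool.Agent.R117.HoleMain

set_option autoImplicit false
set_option maxRecDepth 100000

namespace Pool.Agent.R117.Hole

open Finset

/-- Total weight of the pairs of points of `b`. -/
def W (f : Fin 8 → Fin 8 → ℤ) (b : Finset (Fin 8)) : ℤ :=
  ∑ i ∈ b, ∑ j ∈ b, if i < j then f i j else 0

lemma sum_W (f : Fin 8 → Fin 8 → ℤ) (B : Finset (Finset (Fin 8))) (hB : IsDesign 2 8 4 3 B) :
    ∑ b ∈ B, W f b = ∑ i : Fin 8, ∑ j : Fin 8, if i < j then 3 * f i j else 0 := by
  have h1 : ∀ b ∈ B, W f b = ∑ i : Fin 8, ∑ j : Fin 8,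
      if i < j then (if i ∈ b ∧ j ∈ b then f i j else 0) else 0 := by
    intro b _
    unfold W
    rw [← Finset.sum_filter_add_sum_filter_not (s := (univ : Finset (Fin 8))) (p := fun i => i ∈ b)]
    have e1 : ∑ i ∈ (univ : Finset (Fin 8)).filter (fun i => ¬ i ∈ b), ∑ j : Fin 8,
        (if i < j then (if i ∈ b ∧ j ∈ b then f i j else 0) else 0) = 0 := by
      apply Finset.sum_eq_zero
      intro i hi
      rw [mem_filter] at hi
      apply Finset.sum_eq_zero
      intro j _
      simp [hi.2]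
    rw [e1, add_zero, Finset.filter_mem_eq_inter, Finset.univ_inter]
    refine Finset.sum_congr rfl fun i hi => ?_
    rw [← Finset.sum_filter_add_sum_filter_not (s := (univ : Finset (Fin 8))) (p := fun j => j ∈ b)]
    have e2 : ∑ j ∈ (univ : Finset (Fin 8)).filter (fun j => ¬ j ∈ b),
        (if i < j then (if i ∈ b ∧ j ∈ b then f i j else 0) else 0) = 0 := by
      apply Finset.sum_eq_zero
      intro j hj
      rw [mem_filter] at hj
      simp [hj.2]
    rw [e2, add_zero, Finset.filter_mem_eq_inter, Finset.univ_inter]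
    refine Finset.sum_congr rfl fun j hj => ?_
    simp [hi, hj]
  rw [Finset.sum_congr rfl h1, Finset.sum_comm]
  refine Finset.sum_congr rfl fun i _ => ?_
  rw [Finset.sum_comm]
  refine Finset.sum_congr rfl fun j _ => ?_
  by_cases hij : i < j
  · simp only [hij, if_true]
    rw [← Finset.sum_filter, Finset.sum_const, nsmul_eq_mul]
    have h2 := hB.2 {i, j} (card_pair hij.ne)
    have h3 : B.filter (fun b => i ∈ b ∧ j ∈ b) = B.filter (fun b => ({i, j} : Finset (Fin 8)) ⊆ b) := by
      ext b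
      simp [insert_subset_iff]
    rw [h3, h2]
    norm_num
  · simp [hij]

lemma W_quad (f : Fin 8 → Fin 8 → ℤ) (a b c d : Fin 8) (hab : a < b) (hbc : b < c) (hcd : c < d) :
    W f {a, b, c, d} = f a b + f a c + f a d + f b c + f b d + f c d := by
  unfold W
  have hac := hab.trans hbc
  have hbd := hbc.trans hcd
  have had := hac.trans hcd
  have n1 : a ∉ ({b, c, d} : Finset (Fin 8)) := by
    simp [hab.ne, hac.ne, had.ne]
  have n2 : b ∉ ({c, d} : Finset (Fin 8)) := by simp [hbc.ne, hbd.ne]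
  have n3 : c ∉ ({d} : Finset (Fin 8)) := by simp [hcd.ne]
  rw [Finset.sum_insert n1, Finset.sum_insert n2, Finset.sum_insert n3, Finset.sum_singleton]
  simp only [Finset.sum_insert n1, Finset.sum_insert n2, Finset.sum_insert n3,
    Finset.sum_singleton, lt_irrefl, if_false, hab, hac, had, hbc, hbd, hcd, if_true,
    not_lt_of_gt hab, not_lt_of_gt hac, not_lt_of_gt had, not_lt_of_gt hbc, not_lt_of_gt hbd,
    not_lt_of_gt hcd]
  ring

/-- The position of the pair `i, j` in a packed weighting. -/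
def sh (i j : Fin 8) : ℕ := 4 * (8 * i.val + j.val)

/-- The weight of a pair. -/
def nib (N : ℕ) (i j : Fin 8) : ℤ := ((Nat.mod (Nat.shiftRight N (sh i j)) 16 : ℕ) : ℤ) - 8

lemma quad_cases : ∀ a b : Fin 8, a < b → ∀ c : Fin 8, b < c → ∀ d : Fin 8, c < d →
    [sh a b, sh a c, sh a d, sh b c, sh b d, sh c d] ∈ nonPlanes ∨
      ∃ i : Fin 14, (i.val, [sh a b, sh a c, sh a d, sh b c, sh b d, sh c d]) ∈ planePos ∧
        ({a, b, c, d} : Finset (Fin 8)) = blk i := by
  decide +kernel

lemma exists_quad (b : Finset (Fin 8)) (hb : b.card = 4) :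
    ∃ x y z w : Fin 8, x < y ∧ y < z ∧ z < w ∧ b = {x, y, z, w} := by
  have h1 := b.range_orderEmbOfFin hb
  have hm := (b.orderEmbOfFin hb).strictMono
  refine ⟨b.orderEmbOfFin hb 0, b.orderEmbOfFin hb 1, b.orderEmbOfFin hb 2,
    b.orderEmbOfFin hb 3, hm (by decide), hm (by decide), hm (by decide), ?_⟩
  ext u
  constructor
  · intro hu
    have : u ∈ Set.range (b.orderEmbOfFin hb) := by rw [h1]; exact hu
    obtain ⟨i, rfl⟩ := this
    fin_cases i <;> simp
  · intro hu
    simp only [mem_insert, mem_singleton] at hu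
    rcases hu with rfl | rfl | rfl | rfl <;> exact b.orderEmbOfFin_mem hb _

lemma qsum_eq (N : ℕ) (a b c d : Fin 8) (hab : a < b) (hbc : b < c) (hcd : c < d) :
    W (nib N) {a, b, c, d}
      = (qsum N [sh a b, sh a c, sh a d, sh b c, sh b d, sh c d] : ℤ) - 48 := by
  rw [W_quad _ a b c d hab hbc hcd]
  have h : qsum N [sh a b, sh a c, sh a d, sh b c, sh b d, sh c d]
      = Nat.mod (Nat.shiftRight N (sh a b)) 16 + (Nat.mod (Nat.shiftRight N (sh a c)) 16
        + (Nat.mod (Nat.shiftRight N (sh a d)) 16 + (Nat.mod (Nat.shiftRight N (sh b c)) 16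
        + (Nat.mod (Nat.shiftRight N (sh b d)) 16 + (Nat.mod (Nat.shiftRight N (sh c d)) 16
        + 0))))) := rfl
  rw [h]
  unfold nib
  push_cast
  ring

lemma cert_pos (s : ℕ × ℕ) (hs : s ∈ mins) (b : Finset (Fin 8)) (hb : b.card = 4)
    (hbs : b ∉ sel s.1) (hbp : b ∈ pl) : 1 ≤ W (nib s.2) b := by
  obtain ⟨x, y, z, w, hxy, hyz, hzw, rfl⟩ := exists_quad b hb
  have h0 := certB_true
  unfold certB at h0
  rw [allL_iff] at h0
  obtain ⟨h1, h2⟩ := cond_and (h0 s hs)
  rw [allL_iff] at h1 h2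
  rw [qsum_eq _ x y z w hxy hyz hzw]
  have hkey : ∃ i : Fin 14, (i.val, [sh x y, sh x z, sh x w, sh y z, sh y w, sh z w]) ∈ planePos ∧
        ({x, y, z, w} : Finset (Fin 8)) = blk i := by
    rcases quad_cases x y hxy z hyz w hzw with h | h
    · exfalso
      have hdis : ∀ a b : Fin 8, a < b → ∀ c : Fin 8, b < c → ∀ d : Fin 8, c < d →
        [sh a b, sh a c, sh a d, sh b c, sh b d, sh c d] ∈ nonPlanes →
          ∀ i : Fin 14, ({a, b, c, d} : Finset (Fin 8)) ≠ blk i := by decide +kernel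
      unfold pl at hbp
      rw [mem_image] at hbp
      obtain ⟨i, -, hi⟩ := hbp
      exact hdis x y hxy z hyz w hzw h i hi.symm
    · exact h
  obtain ⟨i, hi, hblk⟩ := hkey
  have h3 := h2 _ hi
  rw [hblk, blk_mem_sel] at hbs
  rw [tb_eq] at h3
  simp only [Bool.not_eq_true] at hbs
  simp only [hbs, cond_false] at h3
  have h4 : 48 < qsum s.2 [sh x y, sh x z, sh x w, sh y z, sh y w, sh z w] := by
    have := Nat.blt_eq.mp h3
    exact this
  have h5 : (48 : ℤ) < (qsum s.2 [sh x y, sh x z, sh x w, sh y z, sh y w, sh z w] : ℤ) := by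
    exact_mod_cast h4
  linarith

lemma cert_neg (s : ℕ × ℕ) (hs : s ∈ mins) (b : Finset (Fin 8)) (hb : b.card = 4)
    (hbp : b ∉ pl) : W (nib s.2) b ≤ -1 := by
  obtain ⟨x, y, z, w, hxy, hyz, hzw, rfl⟩ := exists_quad b hb
  have h0 := certB_true
  unfold certB at h0
  rw [allL_iff] at h0
  obtain ⟨h1, h2⟩ := cond_and (h0 s hs)
  rw [allL_iff] at h1 h2
  rw [qsum_eq _ x y z w hxy hyz hzw]
  rcases quad_cases x y hxy z hyz w hzw with h | ⟨i, hi, hblk⟩
  · have h4 : qsum s.2 [sh x y, sh x z, sh x w, sh y z, sh y w, sh z w] < 48 := by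
      have := Nat.blt_eq.mp (h1 _ h)
      exact this
    have h5 : (qsum s.2 [sh x y, sh x z, sh x w, sh y z, sh y w, sh z w] : ℤ) < 48 := by
      exact_mod_cast h4
    linarith
  · exact absurd (by rw [hblk]; unfold pl; exact mem_image_of_mem _ (mem_univ _)) hbp

lemma pl_design : IsDesign 2 8 4 3 pl := by
  have h : IsDesign 2 8 4 3 pl ↔ ((∀ b ∈ pl, b.card = 4) ∧
    ∀ i j : Fin 8, i < j → (pl.filter (fun b => ({i, j} : Finset (Fin 8)) ⊆ b)).card = 3) := by
    constructor
    · rintro ⟨h1, h2⟩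
      exact ⟨h1, fun i j hij => h2 _ (card_pair hij.ne)⟩
    · rintro ⟨h1, h2⟩
      refine ⟨h1, fun T hT => ?_⟩
      obtain ⟨i, j, hij, rfl⟩ := card_eq_two.1 hT
      rcases lt_or_gt_of_ne hij with h | h
      · exact h2 i j h
      · rw [pair_comm]
        exact h2 j i h
  rw [h]
  constructor
  · decide +kernel
  · decide +kernel

/-- The listed sets are defining sets. -/
lemma mins_defining (s : ℕ × ℕ) (hs : s ∈ mins) : IsDefining 2 8 4 3 pl (sel s.1) := by
  refine ⟨sel_subset _, fun B hB hsB => ?_⟩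
  have h1 := sum_W (nib s.2) B hB
  have h2 := sum_W (nib s.2) pl pl_design
  have h3 : ∑ b ∈ B \ pl, W (nib s.2) b = ∑ b ∈ pl \ B, W (nib s.2) b := by
    have e1 := Finset.sum_inter_add_sum_sdiff B pl (fun b => W (nib s.2) b)
    have e2 := Finset.sum_inter_add_sum_sdiff pl B (fun b => W (nib s.2) b)
    rw [inter_comm] at e2
    linarith
  have h4 : ∑ b ∈ B \ pl, W (nib s.2) b ≤ ∑ b ∈ B \ pl, (-1 : ℤ) := by
    apply Finset.sum_le_sum
    intro b hb
    rw [mem_sdiff] at hb
    exact cert_neg s hs b (hB.1 b hb.1) hb.2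
  have h5 : ∑ b ∈ pl \ B, (1 : ℤ) ≤ ∑ b ∈ pl \ B, W (nib s.2) b := by
    apply Finset.sum_le_sum
    intro b hb
    rw [mem_sdiff] at hb
    exact cert_pos s hs b (pl_design.1 b hb.1) (fun h => hb.2 (hsB h)) hb.1
  rw [Finset.sum_const, nsmul_eq_mul] at h4 h5
  have h6 : (B \ pl).card = 0 := by
    have : (0 : ℤ) ≤ ((pl \ B).card : ℤ) := by positivity
    have : (0 : ℤ) ≤ ((B \ pl).card : ℤ) := by positivity
    have : ((B \ pl).card : ℤ) = 0 := by linarith
    exact_mod_cast this
  have h7 : (pl \ B).card = 0 := by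
    have : (0 : ℤ) ≤ ((pl \ B).card : ℤ) := by positivity
    have : (0 : ℤ) ≤ ((B \ pl).card : ℤ) := by positivity
    have : ((pl \ B).card : ℤ) = 0 := by linarith
    exact_mod_cast this
  rw [card_eq_zero, sdiff_eq_empty_iff_subset] at h6 h7
  exact Subset.antisymm h6 h7

lemma card_sel (m : ℕ) : (sel m).card = ((List.range 14).filter (fun i => tb m i)).length := by
  unfold sel
  rw [card_image_of_injective _ blk_inj]
  have h1 : (univ : Finset (Fin 14)).filter (fun i => m.testBit i.val)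
      = (univ : Finset (Fin 14)).filter (fun i => tb m i.val) := by
    ext i; simp [tb_eq]
  rw [h1]
  have h2 : (List.range 14) = (List.finRange 14).map (fun i : Fin 14 => i.val) := by decide
  rw [h2, List.filter_map, List.length_map]
  rw [← List.toFinset_card_of_nodup]
  · congr 1
    ext i
    simp
  · exact (List.nodup_finRange 14).filter _

lemma mins_card (s : ℕ × ℕ) (hs : s ∈ mins) : (sel s.1).card = 6 ∨ (sel s.1).card = 8 := by
  rw [card_sel]
  have h0 := sizesB_true
  unfold sizesB at h0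
  rw [allL_iff] at h0
  have h1 := h0 s hs
  by_cases h : Nat.beq (countL (fun i => tb s.1 i) (List.range 14)) 6 = true
  · left
    rw [← countL_eq]
    exact Nat.beq_eq.mp h
  · right
    simp only [Bool.not_eq_true] at h
    rw [h] at h1
    rw [← countL_eq]
    exact Nat.beq_eq.mp h1

/-- A defining set of planes contains a listed set. -/
lemma defining_contains (S : Finset (Finset (Fin 8))) (hS : IsDefining 2 8 4 3 pl S) :
    ∃ s ∈ mins, sel s.1 ⊆ S := by
  rcases cover S hS.1 with ⟨p, hp, hSp⟩ | h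
  · exfalso
    obtain ⟨h1, h2, h3⟩ := alt_ok p hp
    exact h3 (hS.2 _ h1 (hSp.trans h2))
  · exact h

lemma minimal_eq (S : Finset (Finset (Fin 8))) (hS : IsMinimalDefining 2 8 4 3 pl S) :
    ∃ s ∈ mins, S = sel s.1 := by
  obtain ⟨s, hs, hsS⟩ := defining_contains S hS.1
  refine ⟨s, hs, ?_⟩
  by_contra hne
  exact hS.2 (sel s.1) (Finset.ssubset_iff_subset_ne.2 ⟨hsS, fun h => hne h.symm⟩)
    (mins_defining s hs)

lemma antichain_first : ∀ s ∈ mins, s.1 ≠ (mins.getD 0 (0, 0)).1 →
    ∃ i : Fin 14, s.1.testBit i.val = true ∧ (mins.getD 0 (0, 0)).1.testBit i.val = false := by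
  decide +kernel

lemma antichain_last : ∀ s ∈ mins, s.1 ≠ (mins.getD 195 (0, 0)).1 →
    ∃ i : Fin 14, s.1.testBit i.val = true ∧ (mins.getD 195 (0, 0)).1.testBit i.val = false := by
  decide +kernel

lemma minimal_of_antichain (m : ℕ × ℕ) (hm : m ∈ mins)
    (h : ∀ s ∈ mins, s.1 ≠ m.1 → ∃ i : Fin 14, s.1.testBit i.val = true ∧ m.1.testBit i.val = false) :
    IsMinimalDefining 2 8 4 3 pl (sel m.1) := by
  refine ⟨mins_defining m hm, fun S' hS' hdef => ?_⟩
  obtain ⟨s, hs, hsS⟩ := defining_contains S' hdef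
  by_cases hsm : s.1 = m.1
  · rw [hsm] at hsS
    exact hS'.2 hsS
  · obtain ⟨i, hi1, hi2⟩ := h s hs hsm
    have h1 : blk i ∈ sel m.1 := hS'.1 (hsS ((blk_mem_sel s.1 i).2 hi1))
    rw [blk_mem_sel, hi2] at h1
    exact absurd h1 (by simp)

/-- The spectrum of the design of the planes. -/
theorem spectrum_pl : spectrum 2 8 4 3 pl = {6, 8} := by
  ext n
  constructor
  · rintro ⟨S, hS, rfl⟩
    obtain ⟨s, hs, rfl⟩ := minimal_eq S hS
    rcases mins_card s hs with h | h <;> rw [h] <;> simp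
  · have m0 : mins.getD 0 (0, 0) ∈ mins := by
      rw [List.getD_eq_getElem _ _ (by rw [mins_length]; norm_num)]
      exact List.getElem_mem _
    have m1 : mins.getD 195 (0, 0) ∈ mins := by
      rw [List.getD_eq_getElem _ _ (by rw [mins_length]; norm_num)]
      exact List.getElem_mem _
    intro hn
    rcases hn with rfl | hn
    · refine ⟨sel (mins.getD 0 (0, 0)).1, minimal_of_antichain _ m0 antichain_first, ?_⟩
      rw [card_sel]
      decide +kernel
    · rw [Set.mem_singleton_iff] at hn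
      subst hn
      refine ⟨sel (mins.getD 195 (0, 0)).1, minimal_of_antichain _ m1 antichain_last, ?_⟩
      rw [card_sel]
      decide +kernel

end Pool.Agent.R117.Hole
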