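import Pool.Agent.R117.HoleData

set_option autoImplicit false
set_option maxRecDepth 100000

namespace Pool.Agent.R117.Hole

open Finset

/-- `B` is the block set of a simple `t-(v,k,lam)` design on the point set `Fin v`. -/
def IsDesign (t v k lam : ℕ) (B : Finset (Finset (Fin v))) : Prop :=
  (∀ b ∈ B, b.card = k) ∧
    ∀ T : Finset (Fin v), T.card = t → (B.filter (fun b => T ⊆ b)).card = lam

/-- `S` is a defining set of the `t-(v,k,lam)` design `D`: `D` is the only `t-(v,k,lam)` design on
the same point set whose block set contains `S`. -/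
def IsDefining (t v k lam : ℕ) (D S : Finset (Finset (Fin v))) : Prop :=
  S ⊆ D ∧ ∀ B : Finset (Finset (Fin v)), IsDesign t v k lam B → S ⊆ B → B = D

/-- A defining set no proper subset of which is a defining set. -/
def IsMinimalDefining (t v k lam : ℕ) (D S : Finset (Finset (Fin v))) : Prop :=
  IsDefining t v k lam D S ∧ ∀ S' : Finset (Finset (Fin v)), S' ⊂ S → ¬ IsDefining t v k lam D S'

/-- The set of sizes of the minimal defining sets. -/
def spectrum (t v k lam : ℕ) (D : Finset (Finset (Fin v))) : Set ℕ :=
  {n | ∃ S, IsMinimalDefining t v k lam D S ∧ S.card = n}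

/-- The set of points with bit mask `n`. -/
def toF (n : ℕ) : Finset (Fin 8) := (univ : Finset (Fin 8)).filter (fun i => n.testBit i.val)

lemma mem_toF (n : ℕ) (i : Fin 8) : i ∈ toF n ↔ n.testBit i.val = true := by
  unfold toF; simp

/-- The planes, numbered. -/
def blk (i : Fin 14) : Finset (Fin 8) := toF (bmL.getD i.val 0)

/-- The planes. -/
def pl : Finset (Finset (Fin 8)) := univ.image blk

lemma blk_inj : Function.Injective blk := by decide +kernel

/-- The set of planes with bit mask `m`. -/
def sel (m : ℕ) : Finset (Finset (Fin 8)) :=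
  ((univ : Finset (Fin 14)).filter (fun i => m.testBit i.val)).image blk

lemma sel_subset (m : ℕ) : sel m ⊆ pl := image_subset_image (subset_univ _)

lemma blk_mem_sel (m : ℕ) (i : Fin 14) : blk i ∈ sel m ↔ m.testBit i.val = true := by
  unfold sel
  rw [mem_image]
  constructor
  · rintro ⟨j, hj, h⟩
    rw [mem_filter] at hj
    rw [← blk_inj h]
    exact hj.2
  · intro h
    exact ⟨i, mem_filter.2 ⟨mem_univ _, h⟩, rfl⟩

/-! ### the covering -/

lemma land_ne {x k : ℕ} (h : ¬ (Nat.land x (2 ^ k - 1) = 2 ^ k - 1)) :
    ∃ j < k, x.testBit j = false := by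
  by_contra hcon
  push Not at hcon
  apply h
  apply Nat.eq_of_testBit_eq
  intro j
  change (x &&& (2 ^ k - 1)).testBit j = _
  rw [Nat.testBit_land, Nat.testBit_two_pow_sub_one]
  by_cases hj : j < k
  · have := hcon j hj
    simp only [ne_eq, Bool.not_eq_false] at this
    simp [this, hj]
  · simp [hj]

lemma cov_sound (l : List (ℕ × ℕ)) (hit kill : ℕ) (c : ℕ → Bool) (n : ℕ)
    (h : cov l hit kill = true) :
    (∃ j < 56, hit.testBit j = false ∧ ∀ i < l.length, c (n + i) = true →
        (l.getD i (0, 0)).1.testBit j = false) ∨
      (∃ j < 196, kill.testBit j = false ∧ ∀ i < l.length, c (n + i) = false →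
        (l.getD i (0, 0)).2.testBit j = false) := by
  induction l generalizing hit kill n with
  | nil =>
    have h0 : cov [] hit kill = cond (Nat.beq (Nat.land hit 72057594037927935) 72057594037927935)
      (cond (Nat.beq (Nat.land kill 100433627766186892221372630771322662657637687111424552206335)
        100433627766186892221372630771322662657637687111424552206335) false true) true := rfl
    rw [h0] at h
    by_cases h1 : Nat.land hit 72057594037927935 = 72057594037927935
    · by_cases h2 : Nat.land kill 100433627766186892221372630771322662657637687111424552206335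
          = 100433627766186892221372630771322662657637687111424552206335
      · rw [h1, h2] at h
        simp at h
      · right
        obtain ⟨j, hj, hj'⟩ := land_ne (x := kill) (k := 196) (by norm_num; exact h2)
        exact ⟨j, hj, hj', by simp⟩
    · left
      obtain ⟨j, hj, hj'⟩ := land_ne (x := hit) (k := 56) (by norm_num; exact h1)
      exact ⟨j, hj, hj', by simp⟩
  | cons p l ih =>
    have h0 : cov (p :: l) hit kill
      = cond (cov l (Nat.lor hit p.1) kill) (cov l hit (Nat.lor kill p.2)) false := rfl
    rw [h0] at h
    have h1 : cov l (Nat.lor hit p.1) kill = true := by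
      cases hh : cov l (Nat.lor hit p.1) kill with
      | true => rfl
      | false => rw [hh] at h; exact absurd h (by simp)
    have h2 : cov l hit (Nat.lor kill p.2) = true := by
      rw [h1] at h; exact h
    have lorbit : ∀ a b j : ℕ, (Nat.lor a b).testBit j = (a.testBit j || b.testBit j) :=
      fun a b j => Nat.testBit_lor a b j
    cases hc : c n with
    | true =>
      rcases ih _ _ (n + 1) h1 with ⟨j, hj, hb, hi⟩ | ⟨j, hj, hb, hi⟩
      · left
        rw [lorbit, Bool.or_eq_false_iff] at hb
        refine ⟨j, hj, hb.1, ?_⟩
        intro i hil hci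
        cases i with
        | zero => simpa using hb.2
        | succ i =>
          have := hi i (by simpa using hil) (by rw [← hci]; congr 1; omega)
          simpa using this
      · right
        refine ⟨j, hj, hb, ?_⟩
        intro i hil hci
        cases i with
        | zero => rw [add_zero, hc] at hci; exact absurd hci (by simp)
        | succ i =>
          have := hi i (by simpa using hil) (by rw [← hci]; congr 1; omega)
          simpa using this
    | false =>
      rcases ih _ _ (n + 1) h2 with ⟨j, hj, hb, hi⟩ | ⟨j, hj, hb, hi⟩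
      · left
        refine ⟨j, hj, hb, ?_⟩
        intro i hil hci
        cases i with
        | zero => rw [add_zero, hc] at hci; exact absurd hci (by simp)
        | succ i =>
          have := hi i (by simpa using hil) (by rw [← hci]; congr 1; omega)
          simpa using this
      · right
        rw [lorbit, Bool.or_eq_false_iff] at hb
        refine ⟨j, hj, hb.1, ?_⟩
        intro i hil hci
        cases i with
        | zero => simpa using hb.2
        | succ i =>
          have := hi i (by simpa using hil) (by rw [← hci]; congr 1; omega)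
          simpa using this

lemma colsH_sound (l : List (ℕ × List ℕ)) (n : ℕ) (h : colsH l n = true) (j : ℕ)
    (hj : j < l.length) (i : ℕ) (hi : i < 14) :
    (cols.getD i (0, 0)).1.testBit (n + j) = !(l.getD j (0, [])).1.testBit i := by
  induction l generalizing n j with
  | nil => simp at hj
  | cons p l ih =>
    have h0 : colsH (p :: l) n = cond (allL (fun i => cond (tb (cols.getD i (0, 0)).1 n)
      (cond (tb p.1 i) false true) (tb p.1 i)) (List.range 14)) (colsH l (Nat.succ n)) false := rfl
    rw [h0] at h
    have h1 : allL (fun i => cond (tb (cols.getD i (0, 0)).1 n)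
      (cond (tb p.1 i) false true) (tb p.1 i)) (List.range 14) = true := by
      cases hh : allL (fun i => cond (tb (cols.getD i (0, 0)).1 n)
        (cond (tb p.1 i) false true) (tb p.1 i)) (List.range 14) with
      | true => rfl
      | false => rw [hh] at h; exact absurd h (by simp)
    rw [h1] at h
    cases j with
    | zero =>
      rw [allL_iff] at h1
      have := h1 i (List.mem_range.2 hi)
      rw [tb_eq, tb_eq] at this
      simp only [add_zero, List.getD_cons_zero]
      revert this
      cases (cols.getD i (0, 0)).1.testBit n <;> cases p.1.testBit i <;> simp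
    | succ j =>
      have := ih (Nat.succ n) h j (by simpa using hj)
      rw [show n + (j + 1) = Nat.succ n + j by omega, this]
      simp

lemma colsA_sound (l : List (ℕ × ℕ)) (n : ℕ) (h : colsA l n = true) (j : ℕ)
    (hj : j < l.length) (i : ℕ) (hi : i < 14) :
    (cols.getD i (0, 0)).2.testBit (n + j) = (l.getD j (0, 0)).1.testBit i := by
  induction l generalizing n j with
  | nil => simp at hj
  | cons p l ih =>
    have h0 : colsA (p :: l) n = cond (allL (fun i => cond (tb (cols.getD i (0, 0)).2 n)
      (tb p.1 i) (cond (tb p.1 i) false true)) (List.range 14)) (colsA l (Nat.succ n)) false := rfl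
    rw [h0] at h
    have h1 : allL (fun i => cond (tb (cols.getD i (0, 0)).2 n)
      (tb p.1 i) (cond (tb p.1 i) false true)) (List.range 14) = true := by
      cases hh : allL (fun i => cond (tb (cols.getD i (0, 0)).2 n)
        (tb p.1 i) (cond (tb p.1 i) false true)) (List.range 14) with
      | true => rfl
      | false => rw [hh] at h; exact absurd h (by simp)
    rw [h1] at h
    cases j with
    | zero =>
      rw [allL_iff] at h1
      have := h1 i (List.mem_range.2 hi)
      rw [tb_eq, tb_eq] at this
      simp only [add_zero, List.getD_cons_zero]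
      revert this
      cases (cols.getD i (0, 0)).2.testBit n <;> cases p.1.testBit i <;> simp
    | succ j =>
      have := ih (Nat.succ n) h j (by simpa using hj)
      rw [show n + (j + 1) = Nat.succ n + j by omega, this]
      simp

lemma traces_length : traces.length = 56 := by decide +kernel
lemma mins_length : mins.length = 196 := by decide +kernel
lemma cols_length : cols.length = 14 := by decide +kernel

/-- Every set of planes is contained in a trace or contains a listed set. -/
lemma cover (S : Finset (Finset (Fin 8))) (hS : S ⊆ pl) :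
    (∃ p ∈ traces, S ⊆ sel p.1) ∨ (∃ s ∈ mins, sel s.1 ⊆ S) := by
  classical
  let c : ℕ → Bool := fun i => if h : i < 14 then decide (blk ⟨i, h⟩ ∈ S) else false
  rcases cov_sound cols 0 0 c 0 cov_true with ⟨j, hj, -, hi⟩ | ⟨j, hj, -, hi⟩
  · left
    refine ⟨traces.getD j (0, []), ?_, ?_⟩
    · rw [List.getD_eq_getElem _ _ (by rw [traces_length]; exact hj)]
      exact List.getElem_mem _
    · intro b hb
      have hb' := hS hb
      unfold pl at hb'
      rw [mem_image] at hb'
      obtain ⟨i, -, rfl⟩ := hb'
      rw [blk_mem_sel]
      have h1 := hi i.val (by rw [cols_length]; exact i.2) (by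
        simp only [zero_add, c, dif_pos i.2]
        exact decide_eq_true hb)
      have h2 := colsH_sound traces 0 colsH_true j (by rw [traces_length]; exact hj) i.val i.2
      rw [zero_add, h1] at h2
      simpa using h2.symm
  · right
    refine ⟨mins.getD j (0, 0), ?_, ?_⟩
    · rw [List.getD_eq_getElem _ _ (by rw [mins_length]; exact hj)]
      exact List.getElem_mem _
    · intro b hb
      have hb' := sel_subset _ hb
      unfold pl at hb'
      rw [mem_image] at hb'
      obtain ⟨i, -, rfl⟩ := hb'
      rw [blk_mem_sel] at hb
      by_contra hnot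
      have h1 := hi i.val (by rw [cols_length]; exact i.2) (by
        simp only [zero_add, c, dif_pos i.2]
        exact decide_eq_false hnot)
      have h2 := colsA_sound mins 0 colsA_true j (by rw [mins_length]; exact hj) i.val i.2
      rw [zero_add, h1] at h2
      rw [← h2] at hb
      exact absurd hb (by simp)

/-! ### the traces are not defining -/

lemma toF_inj : ∀ a < 256, ∀ b < 256, toF a = toF b → a = b := by
  intro a ha b hb h
  apply Nat.eq_of_testBit_eq
  intro i
  by_cases hi : i < 8
  · have h1 := mem_toF a ⟨i, hi⟩
    have h2 := mem_toF b ⟨i, hi⟩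
    rw [h] at h1
    have h3 : a.testBit i = true ↔ b.testBit i = true := h1.symm.trans h2
    exact Bool.eq_iff_iff.2 h3
  · have h1 : a < 2 ^ i := lt_of_lt_of_le ha (by
      calc 256 = 2 ^ 8 := by norm_num
        _ ≤ 2 ^ i := Nat.pow_le_pow_right (by norm_num) (by omega))
    have h2 : b < 2 ^ i := lt_of_lt_of_le hb (by
      calc 256 = 2 ^ 8 := by norm_num
        _ ≤ 2 ^ i := Nat.pow_le_pow_right (by norm_num) (by omega))
    rw [Nat.testBit_eq_false_of_lt h1, Nat.testBit_eq_false_of_lt h2]

/-- The family with the given list of masks. -/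
def fam (L : List ℕ) : Finset (Finset (Fin 8)) := (L.map toF).toFinset

lemma traces_nodup : ∀ p ∈ traces, p.2.Nodup ∧ (∀ n ∈ p.2, n < 256) ∧
    ∃ n ∈ p.2, n ∉ bmL := by decide +kernel

lemma bmL_lt : ∀ n ∈ bmL, n < 256 := by decide

lemma mem_pl (n : ℕ) (hn : n < 256) (h : toF n ∈ pl) : n ∈ bmL := by
  unfold pl at h
  rw [mem_image] at h
  obtain ⟨i, -, hi⟩ := h
  unfold blk at hi
  have hlen : i.val < bmL.length := by
    have : bmL.length = 14 := by decide
    rw [this]; exact i.2
  rw [List.getD_eq_getElem _ _ hlen] at hi
  have h1 := toF_inj _ (bmL_lt _ (List.getElem_mem hlen)) n hn hi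
  rw [← h1]
  exact List.getElem_mem hlen

lemma card_toF (n : ℕ) : (toF n).card = ((List.range 8).filter (fun i => tb n i)).length := by
  unfold toF
  have h1 : (univ : Finset (Fin 8)).filter (fun i => n.testBit i.val)
      = (univ : Finset (Fin 8)).filter (fun i => tb n i.val) := by
    ext i; simp [tb_eq]
  rw [h1]
  have h2 : (List.range 8) = (List.finRange 8).map (fun i : Fin 8 => i.val) := by decide
  rw [h2, List.filter_map, List.length_map]
  rw [← List.toFinset_card_of_nodup]
  · congr 1
    ext i
    simp
  · exact (List.nodup_finRange 8).filter _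

lemma cond_and {a b : Bool} (h : cond a b false = true) : a = true ∧ b = true := by
  cases a <;> cases b <;> simp_all

lemma alt_ok (p : ℕ × List ℕ) (hp : p ∈ traces) :
    IsDesign 2 8 4 3 (fam p.2) ∧ sel p.1 ⊆ fam p.2 ∧ fam p.2 ≠ pl := by
  classical
  obtain ⟨hnd, hlt, n0, hn0, hn0'⟩ := traces_nodup p hp
  have h0 := trB_true
  unfold trB at h0
  rw [allL_iff] at h0
  obtain ⟨h1, h2⟩ := cond_and (h0 p hp)
  obtain ⟨h2, h3⟩ := cond_and h2
  rw [allL_iff] at h1 h2 h3
  have hmapnd : (p.2.map toF).Nodup := by
    refine List.Nodup.map_on ?_ hnd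
    intro a ha b hb hab
    exact toF_inj a (hlt a ha) b (hlt b hb) hab
  have hpairs : ∀ i j : Fin 8, i < j →
      ((fam p.2).filter (fun b => ({i, j} : Finset (Fin 8)) ⊆ b)).card = 3 := by
    intro i j hij
    have hmem : (i.val, j.val) ∈ prs := by
      revert hij; revert i j; decide
    have h4 := h1 _ hmem
    rw [Nat.beq_eq, countL_eq] at h4
    have h5 : (fam p.2).filter (fun b => ({i, j} : Finset (Fin 8)) ⊆ b)
        = ((p.2.filter (fun n => cond (tb n i.val) (tb n j.val) false)).map toF).toFinset := by
      unfold fam
      ext b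
      simp only [mem_filter, List.mem_toFinset, List.mem_map, List.mem_filter, insert_subset_iff,
        singleton_subset_iff]
      constructor
      · rintro ⟨⟨n, hn, rfl⟩, hi, hj⟩
        refine ⟨n, ⟨hn, ?_⟩, rfl⟩
        rw [mem_toF] at hi hj
        rw [tb_eq, tb_eq, hi, hj]
        rfl
      · rintro ⟨n, ⟨hn, hc⟩, rfl⟩
        obtain ⟨hi, hj⟩ := cond_and hc
        rw [tb_eq] at hi hj
        exact ⟨⟨n, hn, rfl⟩, (mem_toF n i).2 hi, (mem_toF n j).2 hj⟩
    rw [h5, List.toFinset_card_of_nodup, List.length_map, h4]
    exact List.Nodup.sublist (List.Sublist.map _ List.filter_sublist) hmapnd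
  refine ⟨⟨?_, ?_⟩, ?_, ?_⟩
  · intro b hb
    unfold fam at hb
    rw [List.mem_toFinset, List.mem_map] at hb
    obtain ⟨n, hn, rfl⟩ := hb
    have h4 := h2 n hn
    rw [Nat.beq_eq, countL_eq] at h4
    rw [card_toF, h4]
  · intro T hT
    obtain ⟨i, j, hij, rfl⟩ := card_eq_two.1 hT
    rcases lt_or_gt_of_ne hij with h | h
    · exact hpairs i j h
    · rw [pair_comm]
      exact hpairs j i h
  · intro b hb
    have hb' := sel_subset _ hb
    unfold pl at hb'
    rw [mem_image] at hb'
    obtain ⟨i, -, rfl⟩ := hb'
    rw [blk_mem_sel] at hb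
    have h4 := h3 i.val (List.mem_range.2 i.2)
    rw [tb_eq, hb] at h4
    simp only [cond_true] at h4
    obtain ⟨h5, -⟩ := cond_and h4
    rw [Nat.beq_eq, countL_eq] at h5
    have h6 : 0 < (p.2.filter (fun n => Nat.beq n (bmL.getD i.val 0))).length := by
      rw [h5]; norm_num
    obtain ⟨n, hn⟩ := List.exists_mem_of_length_pos h6
    rw [List.mem_filter] at hn
    unfold fam blk
    rw [List.mem_toFinset, List.mem_map]
    exact ⟨n, hn.1, by rw [(Nat.beq_eq.mp hn.2 : n = bmL.getD i.val 0)]⟩
  · intro h
    apply hn0'
    apply mem_pl n0 (hlt n0 hn0)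
    rw [← h]
    unfold fam
    rw [List.mem_toFinset, List.mem_map]
    exact ⟨n0, hn0, rfl⟩

end Pool.Agent.R117.Hole
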