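import Mathlib

set_option autoImplicit false

/-! Difference triples (Peltesohn's solution of Heffter's difference problems), `n ≥ 81`. -/

namespace Pool.Agent.R117.CSTS

/-- the differences `a j`, `b j`, `a j + b j` cover everything up to sign modulo `n` -/
def Good (n k : ℕ) (a b : ℕ → ℕ) : Prop :=
  ∀ D, 1 ≤ D → 2 * D < n → 3 * D ≠ n →
    ∃ j, j < k ∧ (D = a j ∨ D = b j ∨ D = a j + b j ∨ D + (a j + b j) = n)

/-- `18 s + 1` -/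
def a1 (s j : ℕ) : ℕ :=
  if j < s then 3 * j + 1 else if j < 2 * s then 3 * (j - s) + 2 else
    if j < 3 * s - 1 then 3 * (j - 2 * s) + 3 else 3 * s

/-- `18 s + 1` -/
def b1 (s j : ℕ) : ℕ :=
  if j < s then 4 * s + 1 - j else if j < 2 * s then 8 * s - (j - s) else
    if j < 3 * s - 1 then 6 * s - 1 - 2 * (j - 2 * s) else 3 * s + 1

lemma good1 (s : ℕ) (hs : 2 ≤ s) : Good (18 * s + 1) (3 * s) (a1 s) (b1 s) := by
  intro D h1 h2 _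
  have hc : (D % 3 = 1 ∧ D < 3 * s) ∨ (D % 3 = 2 ∧ D < 3 * s) ∨ (D % 3 = 0 ∧ D < 3 * s) ∨
      D = 3 * s ∨ D = 3 * s + 1 ∨ (3 * s + 2 ≤ D ∧ D ≤ 4 * s + 1) ∨
      (4 * s + 2 ≤ D ∧ D ≤ 6 * s ∧ D % 2 = 0) ∨ (4 * s + 3 ≤ D ∧ D ≤ 6 * s - 1 ∧ D % 2 = 1) ∨
      D = 6 * s + 1 ∨ (6 * s + 2 ≤ D ∧ D ≤ 7 * s) ∨ (7 * s + 1 ≤ D ∧ D ≤ 8 * s) ∨
      (8 * s + 1 ≤ D ∧ D % 2 = 0) ∨ (8 * s + 1 ≤ D ∧ D % 2 = 1) := by omega
  rcases hc with h | h | h | h | h | h | h | h | h | h | h | h | h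
  · exact ⟨(D - 1) / 3, by omega, by unfold a1 b1; split_ifs <;> omega⟩
  · exact ⟨s + (D - 2) / 3, by omega, by unfold a1 b1; split_ifs <;> omega⟩
  · exact ⟨2 * s + (D / 3 - 1), by omega, by unfold a1 b1; split_ifs <;> omega⟩
  · exact ⟨3 * s - 1, by omega, by unfold a1 b1; split_ifs <;> omega⟩
  · exact ⟨3 * s - 1, by omega, by unfold a1 b1; split_ifs <;> omega⟩
  · exact ⟨4 * s + 1 - D, by omega, by unfold a1 b1; split_ifs <;> omega⟩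
  · exact ⟨(D - 4 * s - 2) / 2, by omega, by unfold a1 b1; split_ifs <;> omega⟩
  · exact ⟨2 * s + (6 * s - 1 - D) / 2, by omega, by unfold a1 b1; split_ifs <;> omega⟩
  · exact ⟨3 * s - 1, by omega, by unfold a1 b1; split_ifs <;> omega⟩
  · exact ⟨2 * s + (D - 6 * s - 2), by omega, by unfold a1 b1; split_ifs <;> omega⟩
  · exact ⟨s + (8 * s - D), by omega, by unfold a1 b1; split_ifs <;> omega⟩
  · exact ⟨s + (D - 8 * s - 2) / 2, by omega, by unfold a1 b1; split_ifs <;> omega⟩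
  · exact ⟨s + (10 * s - 1 - D) / 2, by omega, by unfold a1 b1; split_ifs <;> omega⟩

/-- `18 s + 7` -/
def a7 (s j : ℕ) : ℕ :=
  if j < s then 3 * j + 1 else if j < 2 * s then 3 * (j - s) + 2 else
    if j < 3 * s then 3 * (j - 2 * s) + 3 else 3 * s + 1

/-- `18 s + 7` -/
def b7 (s j : ℕ) : ℕ :=
  if j < s then 8 * s + 3 - j else if j < 2 * s then 6 * s + 1 - 2 * (j - s) else
    if j < 3 * s then 4 * s + 1 - (j - 2 * s) else 4 * s + 2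

lemma good7 (s : ℕ) (hs : 2 ≤ s) : Good (18 * s + 7) (3 * s + 1) (a7 s) (b7 s) := by
  intro D h1 h2 _
  have hc : (D % 3 = 1 ∧ D ≤ 3 * s) ∨ (D % 3 = 2 ∧ D ≤ 3 * s) ∨ (D % 3 = 0 ∧ D ≤ 3 * s) ∨
      D = 3 * s + 1 ∨ (3 * s + 2 ≤ D ∧ D ≤ 4 * s + 1) ∨ D = 4 * s + 2 ∨
      (4 * s + 3 ≤ D ∧ D ≤ 6 * s + 1 ∧ D % 2 = 1) ∨ (4 * s + 4 ≤ D ∧ D ≤ 6 * s + 2 ∧ D % 2 = 0) ∨
      (6 * s + 3 ≤ D ∧ D ≤ 7 * s + 2) ∨ D = 7 * s + 3 ∨ (7 * s + 4 ≤ D ∧ D ≤ 8 * s + 3) ∨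
      (8 * s + 4 ≤ D ∧ D % 2 = 0) ∨ (8 * s + 4 ≤ D ∧ D % 2 = 1) := by omega
  rcases hc with h | h | h | h | h | h | h | h | h | h | h | h | h
  · exact ⟨(D - 1) / 3, by omega, by unfold a7 b7; split_ifs <;> omega⟩
  · exact ⟨s + (D - 2) / 3, by omega, by unfold a7 b7; split_ifs <;> omega⟩
  · exact ⟨2 * s + (D / 3 - 1), by omega, by unfold a7 b7; split_ifs <;> omega⟩
  · exact ⟨3 * s, by omega, by unfold a7 b7; split_ifs <;> omega⟩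
  · exact ⟨2 * s + (4 * s + 1 - D), by omega, by unfold a7 b7; split_ifs <;> omega⟩
  · exact ⟨3 * s, by omega, by unfold a7 b7; split_ifs <;> omega⟩
  · exact ⟨s + (6 * s + 1 - D) / 2, by omega, by unfold a7 b7; split_ifs <;> omega⟩
  · exact ⟨2 * s + (D - 4 * s - 4) / 2, by omega, by unfold a7 b7; split_ifs <;> omega⟩
  · exact ⟨s + (D - 6 * s - 3), by omega, by unfold a7 b7; split_ifs <;> omega⟩
  · exact ⟨3 * s, by omega, by unfold a7 b7; split_ifs <;> omega⟩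
  · exact ⟨8 * s + 3 - D, by omega, by unfold a7 b7; split_ifs <;> omega⟩
  · exact ⟨(D - 8 * s - 4) / 2, by omega, by unfold a7 b7; split_ifs <;> omega⟩
  · exact ⟨(10 * s + 3 - D) / 2, by omega, by unfold a7 b7; split_ifs <;> omega⟩

/-- `18 s + 13` -/
def a13 (s j : ℕ) : ℕ :=
  if j < s then 3 * j + 2 else if j < 2 * s then 3 * (j - s) + 3 else
    if j < 3 * s + 1 then 3 * (j - 2 * s) + 1 else 3 * s + 2

/-- `18 s + 13` -/
def b13 (s j : ℕ) : ℕ :=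
  if j < s then 6 * s + 3 - 2 * j else if j < 2 * s then 8 * s + 5 - (j - s) else
    if j < 3 * s + 1 then 4 * s + 3 - (j - 2 * s) else 7 * s + 5

lemma good13 (s : ℕ) (hs : 2 ≤ s) : Good (18 * s + 13) (3 * s + 2) (a13 s) (b13 s) := by
  intro D h1 h2 _
  have hc : (D % 3 = 1 ∧ D ≤ 3 * s + 1) ∨ (D % 3 = 2 ∧ D ≤ 3 * s + 1) ∨
      (D % 3 = 0 ∧ D ≤ 3 * s + 1) ∨ D = 3 * s + 2 ∨ (3 * s + 3 ≤ D ∧ D ≤ 4 * s + 3) ∨
      (4 * s + 4 ≤ D ∧ D ≤ 6 * s + 4 ∧ D % 2 = 0) ∨ (4 * s + 5 ≤ D ∧ D ≤ 6 * s + 3 ∧ D % 2 = 1) ∨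
      (6 * s + 5 ≤ D ∧ D ≤ 7 * s + 4) ∨ D = 7 * s + 5 ∨ (7 * s + 6 ≤ D ∧ D ≤ 8 * s + 5) ∨
      D = 8 * s + 6 ∨ (8 * s + 7 ≤ D ∧ D % 2 = 0) ∨ (8 * s + 7 ≤ D ∧ D % 2 = 1) := by omega
  rcases hc with h | h | h | h | h | h | h | h | h | h | h | h | h
  · exact ⟨2 * s + (D - 1) / 3, by omega, by unfold a13 b13; split_ifs <;> omega⟩
  · exact ⟨(D - 2) / 3, by omega, by unfold a13 b13; split_ifs <;> omega⟩
  · exact ⟨s + (D / 3 - 1), by omega, by unfold a13 b13; split_ifs <;> omega⟩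
  · exact ⟨3 * s + 1, by omega, by unfold a13 b13; split_ifs <;> omega⟩
  · exact ⟨2 * s + (4 * s + 3 - D), by omega, by unfold a13 b13; split_ifs <;> omega⟩
  · exact ⟨2 * s + (D - 4 * s - 4) / 2, by omega, by unfold a13 b13; split_ifs <;> omega⟩
  · exact ⟨(6 * s + 3 - D) / 2, by omega, by unfold a13 b13; split_ifs <;> omega⟩
  · exact ⟨D - 6 * s - 5, by omega, by unfold a13 b13; split_ifs <;> omega⟩
  · exact ⟨3 * s + 1, by omega, by unfold a13 b13; split_ifs <;> omega⟩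
  · exact ⟨s + (8 * s + 5 - D), by omega, by unfold a13 b13; split_ifs <;> omega⟩
  · exact ⟨3 * s + 1, by omega, by unfold a13 b13; split_ifs <;> omega⟩
  · exact ⟨s + (D - 8 * s - 8) / 2, by omega, by unfold a13 b13; split_ifs <;> omega⟩
  · exact ⟨s + (10 * s + 5 - D) / 2, by omega, by unfold a13 b13; split_ifs <;> omega⟩

/-- `18 s + 3` -/
def a3 (s j : ℕ) : ℕ :=
  if j < s then 3 * j + 1 else if j < 2 * s then 3 * (j - s) + 2 else 3 * (j - 2 * s) + 3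

/-- `18 s + 3` -/
def b3 (s j : ℕ) : ℕ :=
  if j < s then 8 * s + 1 - j else if j < 2 * s then 4 * s - (j - s) else
    6 * s - 1 - 2 * (j - 2 * s)

lemma good3 (s : ℕ) (hs : 2 ≤ s) : Good (18 * s + 3) (3 * s) (a3 s) (b3 s) := by
  intro D h1 h2 h3
  have hc : (D % 3 = 1 ∧ D ≤ 3 * s) ∨ (D % 3 = 2 ∧ D ≤ 3 * s) ∨ (D % 3 = 0 ∧ D ≤ 3 * s) ∨
      (3 * s + 1 ≤ D ∧ D ≤ 4 * s) ∨
      (4 * s + 1 ≤ D ∧ D ≤ 6 * s - 1 ∧ D % 2 = 1) ∨ (4 * s + 2 ≤ D ∧ D ≤ 6 * s ∧ D % 2 = 0) ∨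
      (6 * s + 2 ≤ D ∧ D ≤ 7 * s + 1) ∨ (7 * s + 2 ≤ D ∧ D ≤ 8 * s + 1) ∨
      (8 * s + 2 ≤ D ∧ D % 2 = 0) ∨ (8 * s + 2 ≤ D ∧ D % 2 = 1) := by omega
  rcases hc with h | h | h | h | h | h | h | h | h | h
  · exact ⟨(D - 1) / 3, by omega, by unfold a3 b3; split_ifs <;> omega⟩
  · exact ⟨s + (D - 2) / 3, by omega, by unfold a3 b3; split_ifs <;> omega⟩
  · exact ⟨2 * s + (D / 3 - 1), by omega, by unfold a3 b3; split_ifs <;> omega⟩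
  · exact ⟨s + (4 * s - D), by omega, by unfold a3 b3; split_ifs <;> omega⟩
  · exact ⟨2 * s + (6 * s - 1 - D) / 2, by omega, by unfold a3 b3; split_ifs <;> omega⟩
  · exact ⟨s + (D - 4 * s - 2) / 2, by omega, by unfold a3 b3; split_ifs <;> omega⟩
  · exact ⟨2 * s + (D - 6 * s - 2), by omega, by unfold a3 b3; split_ifs <;> omega⟩
  · exact ⟨8 * s + 1 - D, by omega, by unfold a3 b3; split_ifs <;> omega⟩
  · exact ⟨(D - 8 * s - 2) / 2, by omega, by unfold a3 b3; split_ifs <;> omega⟩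
  · exact ⟨(10 * s + 1 - D) / 2, by omega, by unfold a3 b3; split_ifs <;> omega⟩

/-- `18 s + 9`; indices: `0 .. s` first family, `s + 1 .. 2 s - 3` second family (`r = 2 .. s - 2`),
`2 s - 2 .. 3 s - 5` third family (`r = 1 .. s - 2`), then five single triples -/
def a9 (s j : ℕ) : ℕ :=
  if j < s + 1 then 3 * j + 1 else if j < 2 * s - 2 then 3 * (j - (s + 1) + 2) + 2 else
    if j < 3 * s - 4 then 3 * (j - (2 * s - 2) + 1) + 3 else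
      if j = 3 * s - 4 then 2 else if j = 3 * s - 3 then 3 else if j = 3 * s - 2 then 5 else
        if j = 3 * s - 1 then 3 * s - 1 else 3 * s

/-- `18 s + 9` -/
def b9 (s j : ℕ) : ℕ :=
  if j < s + 1 then 4 * s + 3 - j else if j < 2 * s - 2 then 8 * s + 2 - (j - (s + 1) + 2) else
    if j < 3 * s - 4 then 6 * s + 1 - 2 * (j - (2 * s - 2) + 1) else
      if j = 3 * s - 4 then 8 * s + 3 else if j = 3 * s - 3 then 8 * s + 1 else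
        if j = 3 * s - 2 then 8 * s + 2 else if j = 3 * s - 1 then 3 * s + 2 else 7 * s + 3

lemma ab9_1 (s j : ℕ) (h : j < s + 1) : a9 s j = 3 * j + 1 ∧ b9 s j = 4 * s + 3 - j := by
  unfold a9 b9
  rw [if_pos h, if_pos h]
  exact ⟨rfl, rfl⟩

lemma ab9_2 (s j : ℕ) (h1 : s + 1 ≤ j) (h2 : j < 2 * s - 2) :
    a9 s j = 3 * (j - (s + 1) + 2) + 2 ∧ b9 s j = 8 * s + 2 - (j - (s + 1) + 2) := by
  unfold a9 b9
  rw [if_neg (by omega), if_pos h2, if_neg (by omega), if_pos h2]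
  exact ⟨rfl, rfl⟩

lemma ab9_3 (s j : ℕ) (hs : 4 ≤ s) (h1 : 2 * s - 2 ≤ j) (h2 : j < 3 * s - 4) :
    a9 s j = 3 * (j - (2 * s - 2) + 1) + 3 ∧ b9 s j = 6 * s + 1 - 2 * (j - (2 * s - 2) + 1) := by
  unfold a9 b9
  rw [if_neg (by omega), if_neg (by omega), if_pos h2, if_neg (by omega), if_neg (by omega),
    if_pos h2]
  exact ⟨rfl, rfl⟩

lemma ab9_4 (s : ℕ) (hs : 4 ≤ s) : a9 s (3 * s - 4) = 2 ∧ b9 s (3 * s - 4) = 8 * s + 3 := by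
  unfold a9 b9
  rw [if_neg (by omega), if_neg (by omega), if_neg (by omega), if_pos rfl, if_neg (by omega),
    if_neg (by omega), if_neg (by omega), if_pos rfl]
  exact ⟨rfl, rfl⟩

lemma ab9_5 (s : ℕ) (hs : 4 ≤ s) : a9 s (3 * s - 3) = 3 ∧ b9 s (3 * s - 3) = 8 * s + 1 := by
  unfold a9 b9
  rw [if_neg (by omega), if_neg (by omega), if_neg (by omega), if_neg (by omega), if_pos rfl,
    if_neg (by omega), if_neg (by omega), if_neg (by omega), if_neg (by omega), if_pos rfl]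
  exact ⟨rfl, rfl⟩

lemma ab9_6 (s : ℕ) (hs : 4 ≤ s) : a9 s (3 * s - 2) = 5 ∧ b9 s (3 * s - 2) = 8 * s + 2 := by
  unfold a9 b9
  rw [if_neg (by omega), if_neg (by omega), if_neg (by omega), if_neg (by omega),
    if_neg (by omega), if_pos rfl, if_neg (by omega), if_neg (by omega), if_neg (by omega),
    if_neg (by omega), if_neg (by omega), if_pos rfl]
  exact ⟨rfl, rfl⟩

lemma ab9_7 (s : ℕ) (hs : 4 ≤ s) :
    a9 s (3 * s - 1) = 3 * s - 1 ∧ b9 s (3 * s - 1) = 3 * s + 2 := by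
  unfold a9 b9
  rw [if_neg (by omega), if_neg (by omega), if_neg (by omega), if_neg (by omega),
    if_neg (by omega), if_neg (by omega), if_pos rfl, if_neg (by omega), if_neg (by omega),
    if_neg (by omega), if_neg (by omega), if_neg (by omega), if_neg (by omega), if_pos rfl]
  exact ⟨rfl, rfl⟩

lemma ab9_8 (s : ℕ) (hs : 4 ≤ s) : a9 s (3 * s) = 3 * s ∧ b9 s (3 * s) = 7 * s + 3 := by
  unfold a9 b9
  rw [if_neg (by omega), if_neg (by omega), if_neg (by omega), if_neg (by omega),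
    if_neg (by omega), if_neg (by omega), if_neg (by omega), if_neg (by omega),
    if_neg (by omega), if_neg (by omega), if_neg (by omega), if_neg (by omega),
    if_neg (by omega), if_neg (by omega)]
  exact ⟨rfl, rfl⟩

lemma good9 (s : ℕ) (hs : 4 ≤ s) : Good (18 * s + 9) (3 * s + 1) (a9 s) (b9 s) := by
  intro D h1 h2 h3
  have hc : (D % 3 = 1 ∧ D ≤ 3 * s + 1) ∨ (D % 3 = 2 ∧ 8 ≤ D ∧ D ≤ 3 * s - 4) ∨
      (D % 3 = 0 ∧ 6 ≤ D ∧ D ≤ 3 * s - 3) ∨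
      (D = 2 ∨ D = 8 * s + 3 ∨ D = 8 * s + 5) ∨ (D = 3 ∨ D = 8 * s + 1 ∨ D = 8 * s + 4) ∨
      (D = 5 ∨ D = 8 * s + 2 ∨ D = 8 * s + 7) ∨ (D = 3 * s - 1 ∨ D = 3 * s + 2 ∨ D = 6 * s + 1) ∨
      (D = 3 * s ∨ D = 7 * s + 3 ∨ D = 8 * s + 6) ∨
      (3 * s + 3 ≤ D ∧ D ≤ 4 * s + 3) ∨
      (4 * s + 4 ≤ D ∧ D ≤ 6 * s + 4 ∧ D % 2 = 0) ∨ (4 * s + 5 ≤ D ∧ D ≤ 6 * s - 1 ∧ D % 2 = 1) ∨
      (6 * s + 5 ≤ D ∧ D ≤ 7 * s + 2) ∨ (7 * s + 4 ≤ D ∧ D ≤ 8 * s) ∨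
      (8 * s + 8 ≤ D ∧ D % 2 = 0) ∨ (8 * s + 8 ≤ D ∧ D % 2 = 1) := by omega
  rcases hc with h | h | h | h | h | h | h | h | h | h | h | h | h | h | h
  · obtain ⟨e1, e2⟩ := ab9_1 s ((D - 1) / 3) (by omega)
    exact ⟨(D - 1) / 3, by omega, by rw [e1, e2]; omega⟩
  · obtain ⟨e1, e2⟩ := ab9_2 s ((s + 1) + ((D - 2) / 3 - 2)) (by omega) (by omega)
    exact ⟨(s + 1) + ((D - 2) / 3 - 2), by omega, by rw [e1, e2]; omega⟩
  · obtain ⟨e1, e2⟩ := ab9_3 s ((2 * s - 2) + (D / 3 - 2)) hs (by omega) (by omega)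
    exact ⟨(2 * s - 2) + (D / 3 - 2), by omega, by rw [e1, e2]; omega⟩
  · obtain ⟨e1, e2⟩ := ab9_4 s hs
    exact ⟨3 * s - 4, by omega, by rw [e1, e2]; omega⟩
  · obtain ⟨e1, e2⟩ := ab9_5 s hs
    exact ⟨3 * s - 3, by omega, by rw [e1, e2]; omega⟩
  · obtain ⟨e1, e2⟩ := ab9_6 s hs
    exact ⟨3 * s - 2, by omega, by rw [e1, e2]; omega⟩
  · obtain ⟨e1, e2⟩ := ab9_7 s hs
    exact ⟨3 * s - 1, by omega, by rw [e1, e2]; omega⟩
  · obtain ⟨e1, e2⟩ := ab9_8 s hs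
    exact ⟨3 * s, by omega, by rw [e1, e2]; omega⟩
  · obtain ⟨e1, e2⟩ := ab9_1 s (4 * s + 3 - D) (by omega)
    exact ⟨4 * s + 3 - D, by omega, by rw [e1, e2]; omega⟩
  · obtain ⟨e1, e2⟩ := ab9_1 s ((D - 4 * s - 4) / 2) (by omega)
    exact ⟨(D - 4 * s - 4) / 2, by omega, by rw [e1, e2]; omega⟩
  · obtain ⟨e1, e2⟩ := ab9_3 s ((2 * s - 2) + ((6 * s + 1 - D) / 2 - 1)) hs (by omega) (by omega)
    exact ⟨(2 * s - 2) + ((6 * s + 1 - D) / 2 - 1), by omega, by rw [e1, e2]; omega⟩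
  · obtain ⟨e1, e2⟩ := ab9_3 s ((2 * s - 2) + (D - 6 * s - 5)) hs (by omega) (by omega)
    exact ⟨(2 * s - 2) + (D - 6 * s - 5), by omega, by rw [e1, e2]; omega⟩
  · obtain ⟨e1, e2⟩ := ab9_2 s ((s + 1) + (8 * s - D)) (by omega) (by omega)
    exact ⟨(s + 1) + (8 * s - D), by omega, by rw [e1, e2]; omega⟩
  · obtain ⟨e1, e2⟩ := ab9_2 s ((s + 1) + ((D - 8 * s - 4) / 2 - 2)) (by omega) (by omega)
    exact ⟨(s + 1) + ((D - 8 * s - 4) / 2 - 2), by omega, by rw [e1, e2]; omega⟩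
  · obtain ⟨e1, e2⟩ := ab9_2 s ((s + 1) + ((10 * s + 5 - D) / 2 - 2)) (by omega) (by omega)
    exact ⟨(s + 1) + ((10 * s + 5 - D) / 2 - 2), by omega, by rw [e1, e2]; omega⟩

/-- `18 s + 15` -/
def a15 (s j : ℕ) : ℕ :=
  if j < s + 1 then 3 * j + 1 else if j < 2 * s + 2 then 3 * (j - (s + 1)) + 2 else
    3 * (j - (2 * s + 2)) + 3

/-- `18 s + 15` -/
def b15 (s j : ℕ) : ℕ :=
  if j < s + 1 then 4 * s + 3 - j else if j < 2 * s + 2 then 8 * s + 6 - (j - (s + 1)) else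
    6 * s + 3 - 2 * (j - (2 * s + 2))

lemma good15 (s : ℕ) (hs : 2 ≤ s) : Good (18 * s + 15) (3 * s + 2) (a15 s) (b15 s) := by
  intro D h1 h2 h3
  have hc : (D % 3 = 1 ∧ D ≤ 3 * s + 2) ∨ (D % 3 = 2 ∧ D ≤ 3 * s + 2) ∨
      (D % 3 = 0 ∧ D ≤ 3 * s + 2) ∨ (3 * s + 3 ≤ D ∧ D ≤ 4 * s + 3) ∨
      (4 * s + 4 ≤ D ∧ D ≤ 6 * s + 4 ∧ D % 2 = 0) ∨ (4 * s + 5 ≤ D ∧ D ≤ 6 * s + 3 ∧ D % 2 = 1) ∨
      (6 * s + 6 ≤ D ∧ D ≤ 7 * s + 5) ∨ (7 * s + 6 ≤ D ∧ D ≤ 8 * s + 6) ∨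
      (8 * s + 7 ≤ D ∧ D % 2 = 0) ∨ (8 * s + 7 ≤ D ∧ D % 2 = 1) := by omega
  rcases hc with h | h | h | h | h | h | h | h | h | h
  · exact ⟨(D - 1) / 3, by omega, by unfold a15 b15; split_ifs <;> omega⟩
  · exact ⟨(s + 1) + (D - 2) / 3, by omega, by unfold a15 b15; split_ifs <;> omega⟩
  · exact ⟨(2 * s + 2) + (D / 3 - 1), by omega, by unfold a15 b15; split_ifs <;> omega⟩
  · exact ⟨4 * s + 3 - D, by omega, by unfold a15 b15; split_ifs <;> omega⟩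
  · exact ⟨(D - 4 * s - 4) / 2, by omega, by unfold a15 b15; split_ifs <;> omega⟩
  · exact ⟨(2 * s + 2) + (6 * s + 3 - D) / 2, by omega, by unfold a15 b15; split_ifs <;> omega⟩
  · exact ⟨(2 * s + 2) + (D - 6 * s - 6), by omega, by unfold a15 b15; split_ifs <;> omega⟩
  · exact ⟨(s + 1) + (8 * s + 6 - D), by omega, by unfold a15 b15; split_ifs <;> omega⟩
  · exact ⟨(s + 1) + (D - 8 * s - 8) / 2, by omega, by unfold a15 b15; split_ifs <;> omega⟩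
  · exact ⟨(s + 1) + (10 * s + 7 - D) / 2, by omega, by unfold a15 b15; split_ifs <;> omega⟩

/-- difference triples exist -/
theorem exists_good (n : ℕ) (hn : 81 ≤ n) (h6 : n % 6 = 1 ∨ n % 6 = 3) :
    ∃ a b : ℕ → ℕ, Good n (n / 6) a b := by
  have h : n % 18 = 1 ∨ n % 18 = 7 ∨ n % 18 = 13 ∨ n % 18 = 3 ∨ n % 18 = 9 ∨ n % 18 = 15 := by
    omega
  rcases h with h | h | h | h | h | h
  · refine ⟨a1 (n / 18), b1 (n / 18), ?_⟩
    have e := good1 (n / 18) (by omega)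
    rwa [show 18 * (n / 18) + 1 = n by omega, show 3 * (n / 18) = n / 6 by omega] at e
  · refine ⟨a7 (n / 18), b7 (n / 18), ?_⟩
    have e := good7 (n / 18) (by omega)
    rwa [show 18 * (n / 18) + 7 = n by omega, show 3 * (n / 18) + 1 = n / 6 by omega] at e
  · refine ⟨a13 (n / 18), b13 (n / 18), ?_⟩
    have e := good13 (n / 18) (by omega)
    rwa [show 18 * (n / 18) + 13 = n by omega, show 3 * (n / 18) + 2 = n / 6 by omega] at e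
  · refine ⟨a3 (n / 18), b3 (n / 18), ?_⟩
    have e := good3 (n / 18) (by omega)
    rwa [show 18 * (n / 18) + 3 = n by omega, show 3 * (n / 18) = n / 6 by omega] at e
  · refine ⟨a9 (n / 18), b9 (n / 18), ?_⟩
    have e := good9 (n / 18) (by omega)
    rwa [show 18 * (n / 18) + 9 = n by omega, show 3 * (n / 18) + 1 = n / 6 by omega] at e
  · refine ⟨a15 (n / 18), b15 (n / 18), ?_⟩
    have e := good15 (n / 18) (by omega)
    rwa [show 18 * (n / 18) + 15 = n by omega, show 3 * (n / 18) + 2 = n / 6 by omega] at e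

end Pool.Agent.R117.CSTS
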