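import Pool.Agent.TH413.QS.Params

set_option autoImplicit false

/-! Quasi-symmetric 3-designs with intersection numbers 1 and 3 on 23 and on 22 points. -/

namespace Pool.Agent.R117.Witt

open Finset
open Pool.Agent.TH413.QS

variable {P : Type*} [Fintype P] [DecidableEq P]

lemma deg_le_one (B : Finset (Finset P))
    (hint : ∀ b₁ ∈ B, ∀ b₂ ∈ B, b₁ ≠ b₂ → (b₁ ∩ b₂).card = 1 ∨ (b₁ ∩ b₂).card = 3)
    (T : Finset P) (hT : T.card = 4) : deg B T ≤ 1 := by
  unfold deg
  rw [card_le_one]
  intro b1 h1 b2 h2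
  rw [mem_filter] at h1 h2
  by_contra hne
  have h3 : T.card ≤ (b1 ∩ b2).card := card_le_card (subset_inter h1.2 h2.2)
  rcases hint b1 h1.1 b2 h2.1 hne with h | h <;> omega

/-- On 23 points the design is a 4-(23,7,1) design. -/
lemma four_design (B : Finset (Finset P)) (hP : Fintype.card P = 23) (hB : ∀ b ∈ B, b.card = 7)
    (h3 : ∀ T : Finset P, T.card = 3 → deg B T = 5)
    (hint : ∀ b₁ ∈ B, ∀ b₂ ∈ B, b₁ ≠ b₂ → (b₁ ∩ b₂).card = 1 ∨ (b₁ ∩ b₂).card = 3)
    (T : Finset P) (hT : T.card = 4) : deg B T = 1 := by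
  obtain ⟨l2, r, hl2, hr, d2, d1, d0⟩ := basic B 7 5 (by norm_num) (by omega) hB h3
  rw [hP] at d2 d1 d0
  have hl : l2 = 21 := by omega
  subst hl
  have hr' : r = 77 := by omega
  subst hr'
  have hb : B.card = 253 := by omega
  have hsum := sum_deg B (univ : Finset P) 4
  have e1 : ∑ b ∈ B, ((univ : Finset P) ∩ b).card.choose 4 = 253 * 35 := by
    rw [Finset.sum_congr rfl (g := fun _ => 35), Finset.sum_const, hb, smul_eq_mul]
    intro b hb
    rw [univ_inter, hB b hb]
    rfl
  rw [e1] at hsum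
  have e2 : ∑ T ∈ (univ : Finset P).powersetCard 4, (1 - deg B T) = 0 := by
    have h4 : ∑ T ∈ (univ : Finset P).powersetCard 4, ((1 - deg B T) + deg B T) = 8855 := by
      rw [Finset.sum_congr rfl (g := fun _ => 1), Finset.sum_const, card_powersetCard, card_univ, hP]
      · rfl
      · intro S hS
        have := deg_le_one B hint S (mem_powersetCard.1 hS).2
        omega
    rw [Finset.sum_add_distrib, hsum] at h4
    omega
  have h5 := (Finset.sum_eq_zero_iff.1 e2) T (mem_powersetCard.2 ⟨subset_univ _, hT⟩)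
  have h6 := deg_le_one B hint T hT
  omega

section residual

variable (B : Finset (Finset P))

/-- The points on no block through `T`. -/
def U (T : Finset P) : Finset P := univ.filter (fun p => ∀ b ∈ B, T ⊆ b → p ∉ b)

/-- The hexad through `T`. -/
def H (T : Finset P) : Finset P := T ∪ U B T

/-- The hexads. -/
def hex : Finset (Finset P) := ((univ : Finset P).powersetCard 3).image (H B)

variable {B}

lemma disj (hB : ∀ b ∈ B, b.card = 7) (h3 : ∀ T : Finset P, T.card = 3 → deg B T = 4)
    (T : Finset P) (hT : T.card = 3) : Disjoint T (U B T) := by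
  rw [Finset.disjoint_left]
  intro p hp hpU
  unfold U at hpU
  rw [mem_filter] at hpU
  have h4 : 0 < deg B T := by rw [h3 T hT]; norm_num
  unfold deg at h4
  obtain ⟨b, hb⟩ := card_pos.1 h4
  rw [mem_filter] at hb
  exact hpU.2 b hb.1 hb.2 (hb.2 hp)

/-- `∑` over the blocks through `T` of the intersection with a set `D`. -/
lemma sum_inter (hB : ∀ b ∈ B, b.card = 7) (h3 : ∀ T : Finset P, T.card = 3 → deg B T = 4)
    (hint : ∀ b₁ ∈ B, ∀ b₂ ∈ B, b₁ ≠ b₂ → (b₁ ∩ b₂).card = 1 ∨ (b₁ ∩ b₂).card = 3)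
    (T : Finset P) (hT : T.card = 3) (D : Finset P) :
    ∑ b ∈ B.filter (fun b => T ⊆ b), (D ∩ b).card + (D ∩ H B T).card
      = 4 * (D ∩ T).card + D.card := by
  have h1 : ∀ b ∈ B.filter (fun b => T ⊆ b), (D ∩ b).card = (D ∩ T).card + (D ∩ (b \ T)).card := by
    intro b hb
    rw [mem_filter] at hb
    rw [← card_union_of_disjoint]
    · congr 1
      rw [← inter_union_distrib_left, union_sdiff_of_subset hb.2]
    · exact disjoint_of_subset_left inter_subset_right
        (disjoint_of_subset_right inter_subset_right disjoint_sdiff)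
  rw [Finset.sum_congr rfl h1, Finset.sum_add_distrib, Finset.sum_const, smul_eq_mul]
  have h4 : (B.filter (fun b => T ⊆ b)).card = 4 := h3 T hT
  rw [h4, add_assoc]
  congr 1
  rw [← card_biUnion]
  · rw [← card_union_of_disjoint]
    · congr 1
      ext p
      simp only [mem_union, mem_biUnion, mem_filter, mem_inter, mem_sdiff, H, U, mem_univ, true_and]
      constructor
      · rintro (⟨b, hb, hp⟩ | hp)
        · exact hp.1
        · exact hp.1
      · intro hp
        by_cases hpT : p ∈ T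
        · exact Or.inr ⟨hp, Or.inl hpT⟩
        · by_cases hU : ∀ b ∈ B, T ⊆ b → p ∉ b
          · exact Or.inr ⟨hp, Or.inr hU⟩
          · push Not at hU
            obtain ⟨b, hb, hTb, hpb⟩ := hU
            exact Or.inl ⟨b, ⟨hb, hTb⟩, hp, hpb, hpT⟩
    · rw [Finset.disjoint_left]
      intro p hp hpH
      simp only [mem_biUnion, mem_filter, mem_inter, mem_sdiff, H, U, mem_univ, true_and,
        mem_union] at hp hpH
      obtain ⟨b, ⟨hb, hTb⟩, hpD, hpb, hpT⟩ := hp
      rcases hpH.2 with h | h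
      · exact hpT h
      · exact h b hb hTb hpb
  · intro b1 hb1 b2 hb2 hne
    simp only [coe_filter, Set.mem_setOf_eq] at hb1 hb2
    have h5 : b1 ∩ b2 = T := by
      symm
      apply eq_of_subset_of_card_le (subset_inter hb1.2 hb2.2)
      rcases hint b1 hb1.1 b2 hb2.1 hne with h | h <;> omega
    rw [Function.onFun, Finset.disjoint_left]
    intro p hp1 hp2
    simp only [mem_inter, mem_sdiff] at hp1 hp2
    exact hp1.2.2 (h5 ▸ mem_inter.2 ⟨hp1.2.1, hp2.2.1⟩)

lemma card_H (hP : Fintype.card P = 22) (hB : ∀ b ∈ B, b.card = 7)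
    (h3 : ∀ T : Finset P, T.card = 3 → deg B T = 4)
    (hint : ∀ b₁ ∈ B, ∀ b₂ ∈ B, b₁ ≠ b₂ → (b₁ ∩ b₂).card = 1 ∨ (b₁ ∩ b₂).card = 3)
    (T : Finset P) (hT : T.card = 3) : (H B T).card = 6 := by
  have h := sum_inter hB h3 hint T hT univ
  simp only [univ_inter] at h
  rw [Finset.sum_congr rfl (g := fun _ => 7), Finset.sum_const, smul_eq_mul, card_univ, hP, hT] at h
  · have h4 : (B.filter (fun b => T ⊆ b)).card = 4 := h3 T hT
    rw [h4] at h
    omega
  · intro b hb
    exact hB b (mem_filter.1 hb).1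

/-- No block contains four points of a hexad. -/
lemma inter_le (hP : Fintype.card P = 22) (hB : ∀ b ∈ B, b.card = 7)
    (h3 : ∀ T : Finset P, T.card = 3 → deg B T = 4)
    (hint : ∀ b₁ ∈ B, ∀ b₂ ∈ B, b₁ ≠ b₂ → (b₁ ∩ b₂).card = 1 ∨ (b₁ ∩ b₂).card = 3)
    (T : Finset P) (hT : T.card = 3) (D : Finset P) (hD : D ∈ B) : (D ∩ H B T).card ≤ 3 := by
  have hH := card_H hP hB h3 hint T hT
  -- parity
  have hodd : ∀ D ∈ B, (D ∩ H B T).card = 1 ∨ (D ∩ H B T).card = 3 ∨ (D ∩ H B T).card = 5 := by
    intro D hD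
    have hle : (D ∩ H B T).card ≤ 6 := by
      rw [← hH]; exact card_le_card inter_subset_right
    by_cases hTD : T ⊆ D
    · right; left
      have h5 : D ∩ H B T = T := by
        ext p
        simp only [mem_inter, H, U, mem_union, mem_filter, mem_univ, true_and]
        constructor
        · rintro ⟨hp, hp' | hp'⟩
          · exact hp'
          · exact absurd hp (hp' D hD hTD)
        · intro hp
          exact ⟨hTD hp, Or.inl hp⟩
      rw [h5, hT]
    · have h := sum_inter hB h3 hint T hT D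
      have h6 : ∃ m : ℕ, ∑ b ∈ B.filter (fun b => T ⊆ b), (D ∩ b).card = 2 * m := by
        have h7 : ∀ b ∈ B.filter (fun b => T ⊆ b), (D ∩ b).card = 2 * ((D ∩ b).card / 2) + 1 := by
          intro b hb
          rw [mem_filter] at hb
          have hne : D ≠ b := fun h => hTD (h ▸ hb.2)
          rcases hint D hD b hb.1 hne with h | h <;> omega
        have h4 : (B.filter (fun b => T ⊆ b)).card = 4 := h3 T hT
        refine ⟨∑ b ∈ B.filter (fun b => T ⊆ b), (D ∩ b).card / 2 + 2, ?_⟩
        rw [Finset.sum_congr rfl h7, Finset.sum_add_distrib, Finset.sum_const, h4,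
          ← Finset.mul_sum]
        simp only [smul_eq_mul]
        ring
      obtain ⟨m, hm⟩ := h6
      rw [hm, hB D hD] at h
      omega
  obtain ⟨l2, r, hl2, hr, d2, d1, d0⟩ := basic B 7 4 (by norm_num) (by omega) hB h3
  rw [hP] at d2
  have hl : l2 = 16 := by omega
  subst hl
  have s2 := sum_deg B (H B T) 2
  have s3 := sum_deg B (H B T) 3
  rw [Finset.sum_congr rfl (g := fun _ => 16) (fun S hS => hl2 S (mem_powersetCard.1 hS).2),
    Finset.sum_const, card_powersetCard, hH, smul_eq_mul] at s2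
  rw [Finset.sum_congr rfl (g := fun _ => 4) (fun S hS => h3 S (mem_powersetCard.1 hS).2),
    Finset.sum_const, card_powersetCard, hH, smul_eq_mul] at s3
  have hsum : ∑ b ∈ B, (3 * (H B T ∩ b).card.choose 3 - (H B T ∩ b).card.choose 2) = 0 := by
    have h8 : ∑ b ∈ B, ((3 * (H B T ∩ b).card.choose 3 - (H B T ∩ b).card.choose 2)
        + (H B T ∩ b).card.choose 2) = 3 * ∑ b ∈ B, (H B T ∩ b).card.choose 3 := by
      rw [Finset.mul_sum]
      refine Finset.sum_congr rfl fun b hb => ?_
      have h9 := hodd b hb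
      rw [inter_comm] at h9
      rcases h9 with h | h | h <;> rw [h] <;> decide
    rw [Finset.sum_add_distrib, ← s2, ← s3] at h8
    have c62 : (6 : ℕ).choose 2 = 15 := by decide
    have c63 : (6 : ℕ).choose 3 = 20 := by decide
    rw [c62, c63] at h8
    omega
  have h10 := (Finset.sum_eq_zero_iff.1 hsum) D hD
  rw [inter_comm] at h10
  rcases hodd D hD with h | h | h
  · omega
  · omega
  · rw [h] at h10
    exact absurd h10 (by decide)

/-- The hexad through a triple of points of a hexad is that hexad. -/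
lemma H_eq (hP : Fintype.card P = 22) (hB : ∀ b ∈ B, b.card = 7)
    (h3 : ∀ T : Finset P, T.card = 3 → deg B T = 4)
    (hint : ∀ b₁ ∈ B, ∀ b₂ ∈ B, b₁ ≠ b₂ → (b₁ ∩ b₂).card = 1 ∨ (b₁ ∩ b₂).card = 3)
    (T S : Finset P) (hT : T.card = 3) (hS : S.card = 3) (hTS : T ⊆ H B S) : H B S = H B T := by
  apply eq_of_subset_of_card_le
  · intro x hx
    by_cases hxT : x ∈ T
    · exact mem_union_left _ hxT
    · apply mem_union_right
      unfold U
      rw [mem_filter]
      refine ⟨mem_univ _, fun b hb hTb hxb => ?_⟩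
      have h1 := inter_le hP hB h3 hint S hS b hb
      have h2 : insert x T ⊆ b ∩ H B S := by
        intro z hz
        rw [mem_insert] at hz
        rcases hz with rfl | hz
        · exact mem_inter.2 ⟨hxb, hx⟩
        · exact mem_inter.2 ⟨hTb hz, hTS hz⟩
      have h4 := card_le_card h2
      rw [card_insert_of_notMem hxT, hT] at h4
      omega
  · rw [card_H hP hB h3 hint T hT, card_H hP hB h3 hint S hS]

lemma hex_card (hP : Fintype.card P = 22) (hB : ∀ b ∈ B, b.card = 7)
    (h3 : ∀ T : Finset P, T.card = 3 → deg B T = 4)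
    (hint : ∀ b₁ ∈ B, ∀ b₂ ∈ B, b₁ ≠ b₂ → (b₁ ∩ b₂).card = 1 ∨ (b₁ ∩ b₂).card = 3)
    (h : Finset P) (hh : h ∈ hex B) : h.card = 6 := by
  unfold hex at hh
  rw [mem_image] at hh
  obtain ⟨S, hS, rfl⟩ := hh
  exact card_H hP hB h3 hint S (mem_powersetCard.1 hS).2

/-- Every triple is in exactly one hexad. -/
lemma hex_unique (hP : Fintype.card P = 22) (hB : ∀ b ∈ B, b.card = 7)
    (h3 : ∀ T : Finset P, T.card = 3 → deg B T = 4)
    (hint : ∀ b₁ ∈ B, ∀ b₂ ∈ B, b₁ ≠ b₂ → (b₁ ∩ b₂).card = 1 ∨ (b₁ ∩ b₂).card = 3)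
    (T : Finset P) (hT : T.card = 3) (h : Finset P) :
    (h ∈ hex B ∧ T ⊆ h) ↔ h = H B T := by
  constructor
  · rintro ⟨hh, hTh⟩
    unfold hex at hh
    rw [mem_image] at hh
    obtain ⟨S, hS, rfl⟩ := hh
    exact H_eq hP hB h3 hint T S hT (mem_powersetCard.1 hS).2 hTh
  · rintro rfl
    refine ⟨?_, subset_union_left⟩
    unfold hex
    exact mem_image_of_mem _ (mem_powersetCard.2 ⟨subset_univ _, hT⟩)

/-- The extended design on one more point. -/
def ext (B : Finset (Finset P)) : Finset (Finset (Option P)) :=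
  B.image (fun b => b.map Function.Embedding.some) ∪ (hex B).image (fun h => insertNone h)

lemma ext_card (hP : Fintype.card P = 22) (hB : ∀ b ∈ B, b.card = 7)
    (h3 : ∀ T : Finset P, T.card = 3 → deg B T = 4)
    (hint : ∀ b₁ ∈ B, ∀ b₂ ∈ B, b₁ ≠ b₂ → (b₁ ∩ b₂).card = 1 ∨ (b₁ ∩ b₂).card = 3) :
    ∀ c ∈ ext B, c.card = 7 := by
  intro c hc
  unfold ext at hc
  rw [mem_union, mem_image, mem_image] at hc
  rcases hc with ⟨b, hb, rfl⟩ | ⟨h, hh, rfl⟩
  · rw [card_map, hB b hb]
  · rw [card_insertNone, hex_card hP hB h3 hint h hh]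

lemma ext_filter (B : Finset (Finset P)) :
    (ext B).filter (fun c => none ∉ c) = B.image (fun b => b.map Function.Embedding.some) := by
  ext c
  unfold ext
  simp only [mem_filter, mem_union, mem_image]
  constructor
  · rintro ⟨⟨b, hb, rfl⟩ | ⟨h, hh, rfl⟩, hn⟩
    · exact ⟨b, hb, rfl⟩
    · exact absurd (by simp) hn
  · rintro ⟨b, hb, rfl⟩
    exact ⟨Or.inl ⟨b, hb, rfl⟩, by simp⟩

/-- Every 4-subset is in exactly one block of the extended design. -/
lemma ext_four (hP : Fintype.card P = 22) (hB : ∀ b ∈ B, b.card = 7)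
    (h3 : ∀ T : Finset P, T.card = 3 → deg B T = 4)
    (hint : ∀ b₁ ∈ B, ∀ b₂ ∈ B, b₁ ≠ b₂ → (b₁ ∩ b₂).card = 1 ∨ (b₁ ∩ b₂).card = 3)
    (Q : Finset (Option P)) (hQ : Q.card = 4) :
    ((ext B).filter (fun c => Q ⊆ c)).card = 1 := by
  rw [card_eq_one]
  by_cases hn : none ∈ Q
  · -- `Q = {none} ∪ T`
    obtain ⟨T, hTQ⟩ : ∃ T : Finset P, insertNone T = Q :=
      ⟨eraseNone Q, by rw [insertNone_eraseNone, insert_eq_self.2 hn]⟩
    have hT : T.card = 3 := by
      have := card_insertNone T
      rw [hTQ, hQ] at this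
      omega
    refine ⟨insertNone (H B T), ?_⟩
    ext c
    simp only [mem_filter, mem_singleton, ext, mem_union, mem_image]
    constructor
    · rintro ⟨⟨b, hb, rfl⟩ | ⟨h, hh, rfl⟩, hQc⟩
      · exact absurd (hQc hn) (by simp)
      · have h1 : T ⊆ h := by
          rw [← hTQ] at hQc
          intro x hx
          have := hQc (some_mem_insertNone.2 hx)
          exact some_mem_insertNone.1 this
        rw [(hex_unique hP hB h3 hint T hT h).1 ⟨hh, h1⟩]
    · rintro rfl
      obtain ⟨h1, h2⟩ := (hex_unique hP hB h3 hint T hT (H B T)).2 rfl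
      refine ⟨Or.inr ⟨_, h1, rfl⟩, ?_⟩
      rw [← hTQ]
      exact insertNone.monotone h2
  · obtain ⟨R, hRQ⟩ : ∃ R : Finset P, R.map Function.Embedding.some = Q :=
      ⟨eraseNone Q, by rw [map_some_eraseNone, erase_eq_of_notMem hn]⟩
    have hR : R.card = 4 := by rw [← hQ, ← hRQ, card_map]
    have key1 : ∀ b : Finset P, Q ⊆ b.map Function.Embedding.some ↔ R ⊆ b := by
      intro b
      rw [← hRQ, map_subset_map]
    have key2 : ∀ b : Finset P, Q ⊆ insertNone b ↔ R ⊆ b := by
      intro b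
      rw [← hRQ]
      constructor
      · intro h x hx
        exact some_mem_insertNone.1 (h (mem_map_of_mem _ hx))
      · intro h x hx
        rw [mem_map] at hx
        obtain ⟨y, hy, rfl⟩ := hx
        exact some_mem_insertNone.2 (h hy)
    obtain ⟨x, hx⟩ : R.Nonempty := card_pos.1 (by omega)
    have hT : (R.erase x).card = 3 := by rw [card_erase_of_mem hx, hR]
    by_cases hd : ∃ b ∈ B, R ⊆ b
    · obtain ⟨b, hb, hRb⟩ := hd
      refine ⟨b.map Function.Embedding.some, ?_⟩
      ext c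
      simp only [mem_filter, mem_singleton, ext, mem_union, mem_image]
      constructor
      · rintro ⟨⟨b', hb', rfl⟩ | ⟨h, hh, rfl⟩, hQc⟩
        · rw [key1] at hQc
          have h1 := deg_le_one B hint R hR
          unfold deg at h1
          rw [card_le_one.1 h1 b' (mem_filter.2 ⟨hb', hQc⟩) b (mem_filter.2 ⟨hb, hRb⟩)]
        · exfalso
          rw [key2] at hQc
          unfold hex at hh
          rw [mem_image] at hh
          obtain ⟨S, hS, rfl⟩ := hh
          have h1 := inter_le hP hB h3 hint S (mem_powersetCard.1 hS).2 b hb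
          have h2 := card_le_card (subset_inter hRb hQc)
          omega
      · rintro rfl
        exact ⟨Or.inl ⟨b, hb, rfl⟩, (key1 b).2 hRb⟩
    · push Not at hd
      have hsub : R ⊆ H B (R.erase x) := by
        intro z hz
        by_cases hzx : z = x
        · subst hzx
          apply mem_union_right
          unfold U
          rw [mem_filter]
          refine ⟨mem_univ _, fun b hb hTb hxb => hd b hb ?_⟩
          intro w hw
          by_cases hwz : w = z
          · rw [hwz]; exact hxb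
          · exact hTb (mem_erase.2 ⟨hwz, hw⟩)
        · exact mem_union_left _ (mem_erase.2 ⟨hzx, hz⟩)
      refine ⟨insertNone (H B (R.erase x)), ?_⟩
      ext c
      simp only [mem_filter, mem_singleton, ext, mem_union, mem_image]
      constructor
      · rintro ⟨⟨b', hb', rfl⟩ | ⟨h, hh, rfl⟩, hQc⟩
        · rw [key1] at hQc
          exact absurd hQc (hd b' hb')
        · rw [key2] at hQc
          rw [(hex_unique hP hB h3 hint (R.erase x) hT h).1 ⟨hh, (erase_subset _ _).trans hQc⟩]
      · rintro rfl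
        obtain ⟨h1, h2⟩ := (hex_unique hP hB h3 hint (R.erase x) hT _).2 rfl
        exact ⟨Or.inr ⟨_, h1, rfl⟩, (key2 _).2 hsub⟩

end residual

end Pool.Agent.R117.Witt
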